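import Mathlib

/-! Solutions of `∑ x_i ^ k = a` modulo `N`: Chinese remainder theorem. -/

set_option autoImplicit false

open Finset

namespace Pool.Agent.V8H20.LD

/-- the number of solutions of `x_1^k + ... + x_d^k = a` in `ℤ/N` -/
noncomputable def A (k d N : ℕ) (a : ℤ) : ℕ :=
  Nat.card {x : Fin d → ZMod N // ∑ i, x i ^ k = (a : ZMod N)}

/-- Chinese remainder theorem for solutions -/
def crtEquiv {m n : ℕ} (h : m.Coprime n) (k d : ℕ) (a : ℤ) :
    {x : Fin d → ZMod (m * n) // ∑ i, x i ^ k = (a : ZMod (m * n))} ≃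
      {x : Fin d → ZMod m // ∑ i, x i ^ k = (a : ZMod m)} ×
        {x : Fin d → ZMod n // ∑ i, x i ^ k = (a : ZMod n)} where
  toFun x := (⟨fun i => (ZMod.chineseRemainder h (x.1 i)).1, by
      have := congrArg (fun y => (ZMod.chineseRemainder h y).1) x.2
      simpa [Prod.fst_sum] using this⟩,
    ⟨fun i => (ZMod.chineseRemainder h (x.1 i)).2, by
      have := congrArg (fun y => (ZMod.chineseRemainder h y).2) x.2
      simpa [Prod.snd_sum] using this⟩)
  invFun y := ⟨fun i => (ZMod.chineseRemainder h).symm (y.1.1 i, y.2.1 i), by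
      apply (ZMod.chineseRemainder h).injective
      rw [map_sum, map_intCast]
      apply Prod.ext
      · rw [Prod.fst_sum]
        simpa using y.1.2
      · rw [Prod.snd_sum]
        simpa using y.2.2⟩
  left_inv x := by
    apply Subtype.ext
    funext i
    simp
  right_inv y := by
    apply Prod.ext
    · apply Subtype.ext
      funext i
      simp
    · apply Subtype.ext
      funext i
      simp

lemma A_mul {m n : ℕ} (h : m.Coprime n) (k d : ℕ) (a : ℤ) :
    A k d (m * n) a = A k d m a * A k d n a := by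
  unfold A
  rw [Nat.card_congr (crtEquiv h k d a), Nat.card_prod]

lemma A_one (k d : ℕ) (a : ℤ) : A k d 1 a = 1 := by
  unfold A
  rw [Nat.card_eq_one_iff_unique]
  refine ⟨⟨fun a b => Subtype.ext (Subsingleton.elim _ _)⟩, ⟨⟨fun _ => 0, Subsingleton.elim _ _⟩⟩⟩

lemma A_factor (k d : ℕ) (a : ℤ) {N : ℕ} (hN : N ≠ 0) :
    A k d N a = N.factorization.prod (fun p e => A k d (p ^ e) a) := by
  have := Nat.multiplicative_factorization (fun N => A k d N a)
    (fun x y h => A_mul h k d a) (A_one k d a) hN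
  exact this

/-- the set of solutions -/
def S (k d N : ℕ) [NeZero N] (a : ℤ) : Finset (Fin d → ZMod N) :=
  univ.filter (fun x => ∑ i, x i ^ k = (a : ZMod N))

lemma A_eq (k d N : ℕ) [NeZero N] (a : ℤ) : A k d N a = (S k d N a).card := by
  unfold A S
  rw [Nat.card_eq_fintype_card, Fintype.card_subtype]

lemma mem_S {k d N : ℕ} [NeZero N] {a : ℤ} (x : Fin d → ZMod N) :
    x ∈ S k d N a ↔ (N : ℤ) ∣ ∑ i, ((x i).val : ℤ) ^ k - a := by
  unfold S
  rw [mem_filter, ← ZMod.intCast_zmod_eq_zero_iff_dvd, Int.cast_sub, sub_eq_zero]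
  have : ((∑ i, ((x i).val : ℤ) ^ k : ℤ) : ZMod N) = ∑ i, x i ^ k := by
    rw [Int.cast_sum]
    apply sum_congr rfl
    intro i _
    rw [Int.cast_pow, Int.cast_natCast, ZMod.natCast_zmod_val]
  rw [this]
  simp

/-- solutions given by integers -/
lemma cast_mem_S {k d N : ℕ} [NeZero N] {a : ℤ} (y : Fin d → ℤ)
    (h : (N : ℤ) ∣ ∑ i, y i ^ k - a) : (fun i => ((y i : ℤ) : ZMod N)) ∈ S k d N a := by
  unfold S
  rw [mem_filter]
  refine ⟨mem_univ _, ?_⟩
  rw [← ZMod.intCast_zmod_eq_zero_iff_dvd, Int.cast_sub, sub_eq_zero] at h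
  rw [← h]
  push_cast
  rfl

lemma val_cast_sub {N : ℕ} [NeZero N] (y : ℤ) : (N : ℤ) ∣ (((y : ZMod N).val : ℤ)) - y := by
  rw [← ZMod.intCast_zmod_eq_zero_iff_dvd, Int.cast_sub, Int.cast_natCast, ZMod.natCast_zmod_val,
    sub_self]

end Pool.Agent.V8H20.LD
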