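import Mathlib

/-! Lifting the exponent and `k`-th powers modulo prime powers. -/

set_option autoImplicit false

open Finset

namespace Pool.Agent.V8H20.LD

/-- `1`, or `2` when `p = 2` and `k` is even -/
def m0 (p k : ℕ) : ℕ := if p = 2 ∧ 2 ∣ k then 2 else 1

/-- the exponent of `p` in `k` -/
def tau (p k : ℕ) : ℕ := padicValNat p k

/-- the level of Hensel's lemma -/
def gam (p k : ℕ) : ℕ := tau p k + m0 p k

lemma m0_pos (p k : ℕ) : 1 ≤ m0 p k := by
  unfold m0; split_ifs <;> omega

lemma m0_le_gam (p k : ℕ) : m0 p k ≤ gam p k := by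
  unfold gam; omega

lemma lte {p k : ℕ} (hp : p.Prime) (hk : 0 < k) {x y : ℤ} (hx : ¬ (p : ℤ) ∣ x)
    (hxy : (p : ℤ) ^ (m0 p k) ∣ x - y) :
    emultiplicity (p : ℤ) (x ^ k - y ^ k) = emultiplicity (p : ℤ) (x - y) + (tau p k : ℕ) := by
  have hmul : emultiplicity (p : ℤ) (k : ℤ) = (tau p k : ℕ) := by
    have h1 : emultiplicity (p : ℤ) (k : ℤ) = emultiplicity p k := Int.natCast_emultiplicity p k
    rw [h1]
    unfold tau
    have : Fact p.Prime := ⟨hp⟩
    rw [padicValNat_eq_emultiplicity hk.ne']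
  have hxy1 : (p : ℤ) ∣ x - y := (dvd_pow_self _ (by have := m0_pos p k; omega)).trans hxy
  have hpZ : Prime (p : ℤ) := Nat.prime_iff_prime_int.mp hp
  by_cases h2 : p = 2
  · subst h2
    by_cases hk2 : 2 ∣ k
    · have hm : m0 2 k = 2 := by unfold m0; rw [if_pos ⟨rfl, hk2⟩]
      rw [hm] at hxy
      have hev : Even k := even_iff_two_dvd.mpr hk2
      have h3 := Int.two_pow_sub_pow (x := x) (y := y) (n := k) (by exact_mod_cast hxy1) (by exact_mod_cast hx) hev
      have h4 : emultiplicity (2 : ℤ) (x + y) = 1 := by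
        have h5 : ((2 : ℤ) ^ 1 ∣ x + y) ∧ ¬ ((2 : ℤ) ^ (1 + 1) ∣ x + y) := by
          have h6 : (4 : ℤ) ∣ x - y := by
            have : ((2 : ℕ) : ℤ) ^ 2 = 4 := by norm_num
            rwa [this] at hxy
          have h7 : ¬ (2 : ℤ) ∣ x := by exact_mod_cast hx
          constructor
          · norm_num; omega
          · norm_num; omega
        exact_mod_cast emultiplicity_eq_coe.mpr h5
      have hk' : emultiplicity (2 : ℤ) (k : ℤ) = (tau 2 k : ℕ) := by exact_mod_cast hmul
      push_cast at h3 ⊢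
      rw [h4, hk'] at h3
      have h8 : emultiplicity (2 : ℤ) (x ^ k - y ^ k) + 1 =
          (emultiplicity (2 : ℤ) (x - y) + (tau 2 k : ℕ)) + 1 := by
        rw [h3]
        rw [add_assoc, add_comm]
      exact ENat.add_left_injective_of_ne_top (n := 1) (ENat.natCast_ne_top 1) h8
    · have ht : tau 2 k = 0 := by
        unfold tau
        exact padicValNat.eq_zero_of_not_dvd hk2
      rw [ht, Nat.cast_zero, add_zero]
      exact emultiplicity_pow_sub_pow_of_prime hpZ hxy1 hx (by
        intro h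
        exact hk2 (by exact_mod_cast h))
  · have hodd : Odd p := hp.odd_of_ne_two h2
    rw [Int.emultiplicity_pow_sub_pow hp hodd hxy1 hx, ← hmul]
    congr 1
    exact (Int.natCast_emultiplicity p k).symm

lemma lte_up {p k : ℕ} (hp : p.Prime) (hk : 0 < k) {x y : ℤ} (hx : ¬ (p : ℤ) ∣ x) {s : ℕ}
    (hs : m0 p k ≤ s) (h : (p : ℤ) ^ s ∣ x - y) : (p : ℤ) ^ (s + tau p k) ∣ x ^ k - y ^ k := by
  rw [pow_dvd_iff_le_emultiplicity, lte hp hk hx ((pow_dvd_pow _ hs).trans h)]
  push_cast
  exact add_le_add (le_emultiplicity_of_pow_dvd h) le_rfl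

lemma lte_down {p k : ℕ} (hp : p.Prime) (hk : 0 < k) {x y : ℤ} (hx : ¬ (p : ℤ) ∣ x) {s : ℕ}
    (hxy : (p : ℤ) ^ (m0 p k) ∣ x - y) (h : (p : ℤ) ^ (s + tau p k) ∣ x ^ k - y ^ k) :
    (p : ℤ) ^ s ∣ x - y := by
  rw [pow_dvd_iff_le_emultiplicity, lte hp hk hx hxy] at h
  rw [pow_dvd_iff_le_emultiplicity]
  push_cast at h
  exact (ENat.add_le_add_iff_right (ENat.natCast_ne_top _)).mp h

/-- every integer congruent modulo `p ^ gam` to the `k`-th power of a unit is a `k`-th power modulo
every power of `p` -/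
lemma hens {p k : ℕ} (hp : p.Prime) (hk : 0 < k) {a v : ℤ} (ha : ¬ (p : ℤ) ∣ a)
    (h : (p : ℤ) ^ (gam p k) ∣ a ^ k - v) (j : ℕ) (hj : gam p k ≤ j) :
    ∃ r : ℤ, (p : ℤ) ^ (m0 p k) ∣ r - a ∧ (p : ℤ) ^ j ∣ r ^ k - v := by
  induction j, hj using Nat.le_induction with
  | base => exact ⟨a, by simp, h⟩
  | succ j hj ih =>
    obtain ⟨r, hr1, hr2⟩ := ih
    have hp0 : (p : ℤ) ≠ 0 := by exact_mod_cast hp.ne_zero
    have hppos : 0 < p := hp.pos
    have : NeZero p := ⟨hp.ne_zero⟩
    have hm := m0_pos p k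
    have hr : ¬ (p : ℤ) ∣ r := by
      intro h1
      apply ha
      have h2 : (p : ℤ) ∣ r - a := (dvd_pow_self _ (by omega)).trans hr1
      have := dvd_sub h1 h2
      simpa using this
    set s := j - tau p k with hs
    have hsj : s + tau p k = j := by unfold gam at hj; omega
    have hms : m0 p k ≤ s := by unfold gam at hj; omega
    -- the candidates
    set R : ZMod p → ℤ := fun t => r + (p : ℤ) ^ s * (t.val : ℤ) with hR
    have hRr : ∀ t, (p : ℤ) ^ s ∣ R t - r := by
      intro t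
      exact ⟨t.val, by simp only [hR]; ring⟩
    have hRu : ∀ t, ¬ (p : ℤ) ∣ R t := by
      intro t h1
      apply hr
      have h2 : (p : ℤ) ∣ R t - r := (dvd_pow_self _ (by omega)).trans (hRr t)
      have := dvd_sub h1 h2
      simpa using this
    have hRv : ∀ t, (p : ℤ) ^ j ∣ R t ^ k - v := by
      intro t
      have h1 := lte_up hp hk (hRu t) hms (hRr t)
      rw [hsj] at h1
      have h2 : R t ^ k - v = (R t ^ k - r ^ k) + (r ^ k - v) := by ring
      rw [h2]
      exact dvd_add h1 hr2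
    choose q hq using hRv
    have hinj : Function.Injective (fun t : ZMod p => ((q t : ℤ) : ZMod p)) := by
      intro t t' htt
      simp only at htt
      rw [ZMod.intCast_eq_intCast_iff_dvd_sub] at htt
      have h1 : (p : ℤ) ^ (j + 1) ∣ R t ^ k - R t' ^ k := by
        have h2 : R t ^ k - R t' ^ k = (p : ℤ) ^ j * (q t - q t') := by
          rw [mul_sub, ← hq, ← hq]; ring
        rw [h2, pow_succ]
        apply mul_dvd_mul_left
        have := (dvd_neg).mpr htt
        simpa using this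
      have h3 : (p : ℤ) ^ (s + 1) ∣ R t - R t' := by
        apply lte_down hp hk (hRu t)
        · have h4 : R t - R t' = (R t - r) - (R t' - r) := by ring
          rw [h4]
          exact dvd_sub ((pow_dvd_pow _ hms).trans (hRr t)) ((pow_dvd_pow _ hms).trans (hRr t'))
        · have : s + 1 + tau p k = j + 1 := by omega
          rwa [this]
      have h4 : R t - R t' = (p : ℤ) ^ s * ((t.val : ℤ) - (t'.val : ℤ)) := by
        simp only [hR]; ring
      rw [h4, pow_succ] at h3
      have h5 : (p : ℤ) ∣ (t.val : ℤ) - (t'.val : ℤ) :=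
        (mul_dvd_mul_iff_left (pow_ne_zero _ hp0)).mp h3
      have h6 := (ZMod.intCast_eq_intCast_iff_dvd_sub _ _ p).mpr h5
      push_cast at h6
      rw [ZMod.natCast_zmod_val, ZMod.natCast_zmod_val] at h6
      exact h6.symm
    have hsurj := Finite.surjective_of_injective hinj
    obtain ⟨t, ht⟩ := hsurj 0
    simp only at ht
    rw [ZMod.intCast_zmod_eq_zero_iff_dvd] at ht
    refine ⟨R t, ?_, ?_⟩
    · have h4 : R t - a = (R t - r) + (r - a) := by ring
      rw [h4]
      exact dvd_add ((pow_dvd_pow _ hms).trans (hRr t)) hr1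
    · rw [hq, pow_succ]
      exact mul_dvd_mul_left _ ht

end Pool.Agent.V8H20.LD
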