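import Mathlib
import Pool.Agent.V8H20.LD.L1
import Pool.Agent.V8H20.LD.L2

/-! Lower bounds for fibres. -/

set_option autoImplicit false

open Finset

namespace Pool.Agent.V8H20.LD

/-- lifting a solution modulo `p ^ gam` with a unit coordinate -/
lemma fiber_lower {p k d j : ℕ} (hp : p.Prime) (hk : 0 < k) [NeZero (p ^ j)] (hj : gam p k ≤ j)
    (z : Fin d → ℤ) (i0 : Fin d) (hi0 : ¬ (p : ℤ) ∣ z i0) (a : ℤ)
    (hz : (p : ℤ) ^ (gam p k) ∣ ∑ i, z i ^ k - a) :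
    (p ^ (j - gam p k)) ^ (d - 1) ≤
      ((S k d (p ^ j) a).filter (fun x => ∀ i, (p : ℤ) ^ (m0 p k) ∣ ((x i).val : ℤ) - z i)).card := by
  classical
  set g := gam p k with hg
  have hmg : m0 p k ≤ g := m0_le_gam p k
  have hpz : (p : ℤ) ≠ 0 := by exact_mod_cast hp.ne_zero
  -- the free coordinates
  set y : ({i : Fin d // i ≠ i0} → Fin (p ^ (j - g))) → Fin d → ℤ :=
    fun w i => if h : i ≠ i0 then z i + (p : ℤ) ^ g * ((w ⟨i, h⟩ : ℕ) : ℤ) else 0 with hy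
  have hyne : ∀ w (i : Fin d) (h : i ≠ i0), y w i = z i + (p : ℤ) ^ g * ((w ⟨i, h⟩ : ℕ) : ℤ) := by
    intro w i h
    simp only [hy, dif_pos h]
  have hex : ∀ w, ∃ r : ℤ, (p : ℤ) ^ (m0 p k) ∣ r - z i0 ∧
      (p : ℤ) ^ j ∣ r ^ k - (a - ∑ i ∈ univ.erase i0, y w i ^ k) := by
    intro w
    apply hens hp hk hi0 _ j hj
    have h1 : z i0 ^ k - (a - ∑ i ∈ univ.erase i0, y w i ^ k) =
        (∑ i, z i ^ k - a) + ∑ i ∈ univ.erase i0, (y w i ^ k - z i ^ k) := by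
      rw [sum_sub_distrib, ← add_sum_erase univ (fun i => z i ^ k) (mem_univ i0)]
      ring
    rw [h1]
    apply dvd_add hz
    apply dvd_sum
    intro i hi
    have h2 : (p : ℤ) ^ g ∣ y w i - z i := by
      rw [hyne w i (ne_of_mem_erase hi)]
      exact ⟨((w ⟨i, ne_of_mem_erase hi⟩ : ℕ) : ℤ), by ring⟩
    exact h2.trans (sub_dvd_pow_sub_pow _ _ k)
  choose r hr1 hr2 using hex
  set F : ({i : Fin d // i ≠ i0} → Fin (p ^ (j - g))) → Fin d → ℤ :=
    fun w i => if i = i0 then r w else y w i with hF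
  have hFi0 : ∀ w, F w i0 = r w := by intro w; simp [hF]
  have hFi : ∀ w i, i ≠ i0 → F w i = y w i := by intro w i h; simp only [hF, if_neg h]
  have hc : (univ : Finset ({i : Fin d // i ≠ i0} → Fin (p ^ (j - g)))).card =
      (p ^ (j - g)) ^ (d - 1) := by
    rw [card_univ, Fintype.card_fun, Fintype.card_fin]
    congr 1
    rw [Fintype.card_subtype_compl, Fintype.card_fin, Fintype.card_subtype_eq]
  rw [← hc]
  apply card_le_card_of_injOn (fun w i => ((F w i : ℤ) : ZMod (p ^ j)))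
  · intro w _
    rw [mem_coe, mem_filter]
    constructor
    · apply cast_mem_S
      rw [← add_sum_erase univ (fun i => F w i ^ k) (mem_univ i0)]
      have h1 : ∑ i ∈ univ.erase i0, F w i ^ k = ∑ i ∈ univ.erase i0, y w i ^ k := by
        apply sum_congr rfl
        intro i hi
        rw [hFi w i (ne_of_mem_erase hi)]
      simp only [hFi0]
      rw [h1]
      have h2 := hr2 w
      push_cast
      have h3 : r w ^ k + ∑ i ∈ univ.erase i0, y w i ^ k - a =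
          r w ^ k - (a - ∑ i ∈ univ.erase i0, y w i ^ k) := by ring
      rw [h3]
      exact h2
    · intro i
      have h1 : (((p ^ j : ℕ)) : ℤ) ∣ ((((F w i : ℤ) : ZMod (p ^ j))).val : ℤ) - F w i := val_cast_sub _
      have h2 : (p : ℤ) ^ (m0 p k) ∣ ((((F w i : ℤ) : ZMod (p ^ j))).val : ℤ) - F w i := by
        refine (pow_dvd_pow _ (hmg.trans hj)).trans ?_
        have : ((p ^ j : ℕ) : ℤ) = (p : ℤ) ^ j := by push_cast; ring
        rwa [this] at h1
      have h3 : (p : ℤ) ^ (m0 p k) ∣ F w i - z i := by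
        by_cases h : i = i0
        · subst h
          rw [hFi0]
          exact hr1 w
        · rw [hFi w i h, hyne w i h]
          refine (pow_dvd_pow _ hmg).trans ⟨((w ⟨i, h⟩ : ℕ) : ℤ), by ring⟩
      have h4 : ((((F w i : ℤ) : ZMod (p ^ j))).val : ℤ) - z i =
          (((((F w i : ℤ) : ZMod (p ^ j))).val : ℤ) - F w i) + (F w i - z i) := by ring
      rw [h4]
      exact dvd_add h2 h3
  · intro w _ w' _ h
    funext i
    have h1 : ((F w i.1 : ℤ) : ZMod (p ^ j)) = ((F w' i.1 : ℤ) : ZMod (p ^ j)) := congrFun h i.1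
    rw [hFi w i.1 i.2, hFi w' i.1 i.2, hyne w i.1 i.2, hyne w' i.1 i.2,
      ZMod.intCast_eq_intCast_iff_dvd_sub] at h1
    have h2 : (z i.1 + (p : ℤ) ^ g * ((w' ⟨i.1, i.2⟩ : ℕ) : ℤ)) -
        (z i.1 + (p : ℤ) ^ g * ((w ⟨i.1, i.2⟩ : ℕ) : ℤ)) =
        (p : ℤ) ^ g * (((w' ⟨i.1, i.2⟩ : ℕ) : ℤ) - ((w ⟨i.1, i.2⟩ : ℕ) : ℤ)) := by ring
    have h3 : ((p ^ j : ℕ) : ℤ) = (p : ℤ) ^ g * (p : ℤ) ^ (j - g) := by
      push_cast
      rw [← pow_add]
      congr 1
      omega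
    rw [h2, h3, mul_dvd_mul_iff_left (pow_ne_zero _ hpz)] at h1
    have h4 := (w ⟨i.1, i.2⟩).2
    have h5 := (w' ⟨i.1, i.2⟩).2
    apply Fin.ext
    have h6 : (((w ⟨i.1, i.2⟩ : ℕ) : ℤ)) = ((w' ⟨i.1, i.2⟩ : ℕ) : ℤ) := by
      have h7 : ((p : ℤ) ^ (j - g)) = ((p ^ (j - g) : ℕ) : ℤ) := by push_cast; ring
      rw [h7] at h1
      have h8 := Int.eq_zero_of_abs_lt_dvd h1 (by
        rw [abs_lt]
        constructor <;> omega)
      omega
    exact_mod_cast h6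

end Pool.Agent.V8H20.LD
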