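import Mathlib
import Pool.Agent.V8H20.LD.L1
import Pool.Agent.V8H20.LD.L2

/-! Upper bounds for fibres. -/

set_option autoImplicit false

open Finset

namespace Pool.Agent.V8H20.LD

lemma natcast_pow (p j : ℕ) : ((p ^ j : ℕ) : ℤ) = (p : ℤ) ^ j := by push_cast; ring

/-- two solutions which agree outside `i0` have the same `k`-th power at `i0` -/
lemma pow_eq_of_agree {k d N : ℕ} [NeZero N] {a : ℤ} {x y : Fin d → ZMod N} (i0 : Fin d)
    (hx : x ∈ S k d N a) (hy : y ∈ S k d N a) (h : ∀ i, i ≠ i0 → x i = y i) :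
    (N : ℤ) ∣ ((x i0).val : ℤ) ^ k - ((y i0).val : ℤ) ^ k := by
  classical
  rw [mem_S] at hx hy
  have h1 := dvd_sub hx hy
  rw [← add_sum_erase univ _ (mem_univ i0),
    ← add_sum_erase univ (fun i => ((y i).val : ℤ) ^ k) (mem_univ i0)] at h1
  have h2 : ∑ i ∈ univ.erase i0, ((x i).val : ℤ) ^ k = ∑ i ∈ univ.erase i0, ((y i).val : ℤ) ^ k := by
    apply sum_congr rfl
    intro i hi
    rw [h i (ne_of_mem_erase hi)]
  rw [h2] at h1
  have h3 : ((x i0).val : ℤ) ^ k + ∑ i ∈ univ.erase i0, ((y i).val : ℤ) ^ k - a -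
      (((y i0).val : ℤ) ^ k + ∑ i ∈ univ.erase i0, ((y i).val : ℤ) ^ k - a) =
      ((x i0).val : ℤ) ^ k - ((y i0).val : ℤ) ^ k := by ring
  rwa [h3] at h1

lemma val_eq_of_dvd {N : ℕ} [NeZero N] {x y : ZMod N} (h : (N : ℤ) ∣ ((x.val : ℤ)) - (y.val : ℤ)) :
    x = y := by
  have h1 := ZMod.val_lt x
  have h2 := ZMod.val_lt y
  apply ZMod.val_injective N
  have h8 := Int.eq_zero_of_abs_lt_dvd h (by rw [abs_lt]; constructor <;> omega)
  omega

/-- for `p` prime to `k` every residue vector modulo `p` with a unit coordinate has at most the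
expected number of lifts -/
lemma fiber_upper {p k d j : ℕ} (hp : p.Prime) (hk : 0 < k) (hpk : ¬ p ∣ k) [NeZero (p ^ j)]
    (hj : 1 ≤ j) (z : Fin d → ℤ) (i0 : Fin d) (hi0 : ¬ (p : ℤ) ∣ z i0) (a : ℤ) :
    ((S k d (p ^ j) a).filter (fun x => ∀ i, (p : ℤ) ∣ ((x i).val : ℤ) - z i)).card ≤
      (p ^ (j - 1)) ^ (d - 1) := by
  classical
  have hpj : p ^ j = p * p ^ (j - 1) := by rw [← pow_succ']; congr 1; omega
  have hm : m0 p k = 1 := by
    unfold m0
    rw [if_neg]
    rintro ⟨rfl, h⟩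
    exact hpk h
  have ht : tau p k = 0 := by
    unfold tau
    exact padicValNat.eq_zero_of_not_dvd hpk
  have hlt : ∀ (x : Fin d → ZMod (p ^ j)) (i : Fin d), (x i).val / p < p ^ (j - 1) := by
    intro x i
    have := ZMod.val_lt (x i)
    rw [Nat.div_lt_iff_lt_mul hp.pos]
    calc (x i).val < p ^ j := this
      _ = p ^ (j - 1) * p := by rw [hpj, mul_comm]
  have hc : (univ : Finset ({i : Fin d // i ≠ i0} → Fin (p ^ (j - 1)))).card =
      (p ^ (j - 1)) ^ (d - 1) := by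
    rw [card_univ, Fintype.card_fun, Fintype.card_fin]
    congr 1
    rw [Fintype.card_subtype_compl, Fintype.card_fin, Fintype.card_subtype_eq]
  rw [← hc]
  apply card_le_card_of_injOn (fun x (i : {i : Fin d // i ≠ i0}) => (⟨(x i.1).val / p, hlt x i.1⟩ : Fin (p ^ (j - 1))))
    (fun _ _ => mem_coe.mpr (mem_univ _))
  intro x hx y hy hxy
  rw [mem_coe, mem_filter] at hx hy
  have hmod : ∀ i, (x i).val % p = (y i).val % p := by
    intro i
    have h1 := dvd_sub (hx.2 i) (hy.2 i)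
    have h2 : ((x i).val : ℤ) - z i - (((y i).val : ℤ) - z i) = ((x i).val : ℤ) - ((y i).val : ℤ) := by ring
    rw [h2] at h1
    have h3 := (Int.emod_emod_of_dvd ((x i).val : ℤ) (dvd_refl (p : ℤ)))
    have h4 := Int.emod_eq_emod_iff_emod_sub_eq_zero.mpr (Int.emod_eq_zero_of_dvd h1)
    exact_mod_cast h4
  have hagree : ∀ i, i ≠ i0 → x i = y i := by
    intro i hi
    have h1 := congrFun hxy ⟨i, hi⟩
    simp only [Fin.mk.injEq] at h1
    apply ZMod.val_injective (p ^ j)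
    rw [← Nat.div_add_mod (x i).val p, ← Nat.div_add_mod (y i).val p, h1, hmod i]
  have h1 := pow_eq_of_agree i0 hx.1 hy.1 hagree
  have hxu : ¬ (p : ℤ) ∣ ((x i0).val : ℤ) := by
    intro h2
    apply hi0
    have := dvd_sub h2 (hx.2 i0)
    simpa using this
  have h2 : (p : ℤ) ^ (m0 p k) ∣ ((x i0).val : ℤ) - ((y i0).val : ℤ) := by
    rw [hm, pow_one]
    have h1 := dvd_sub (hx.2 i0) (hy.2 i0)
    have h2 : ((x i0).val : ℤ) - z i0 - (((y i0).val : ℤ) - z i0) = ((x i0).val : ℤ) - ((y i0).val : ℤ) := by ring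
    rwa [h2] at h1
  rw [natcast_pow] at h1
  have h3 := lte_down hp hk hxu h2 (s := j) (by rw [ht, add_zero]; exact h1)
  funext i
  by_cases hi : i = i0
  · subst hi
    apply val_eq_of_dvd
    rw [natcast_pow]
    exact h3
  · exact hagree i hi

/-- crude upper bound for the number of solutions with a unit at `i0` -/
lemma unit_upper {p k d j : ℕ} (hp : p.Prime) (hk : 0 < k) [NeZero (p ^ j)] (i0 : Fin d) (a : ℤ) :
    ((S k d (p ^ j) a).filter (fun x => ¬ (p : ℤ) ∣ ((x i0).val : ℤ))).card ≤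
      (p ^ j) ^ (d - 1) * p ^ (gam p k) := by
  classical
  have hcc : Fintype.card ({i : Fin d // i ≠ i0} → ZMod (p ^ j)) = (p ^ j) ^ (d - 1) := by
    rw [Fintype.card_fun, ZMod.card]
    congr 1
    rw [Fintype.card_subtype_compl, Fintype.card_fin, Fintype.card_subtype_eq]
  have hppos : 0 < p := hp.pos
  have hlt1 : ∀ (x : Fin d → ZMod (p ^ j)), (x i0).val % p ^ (m0 p k) < p ^ (m0 p k) :=
    fun x => Nat.mod_lt _ (pow_pos hppos _)
  have hlt2 : ∀ (x : Fin d → ZMod (p ^ j)), (x i0).val / p ^ (j - tau p k) < p ^ (tau p k) := by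
    intro x
    rw [Nat.div_lt_iff_lt_mul (pow_pos hppos _), ← pow_add]
    refine (ZMod.val_lt (x i0)).trans_le (Nat.pow_le_pow_right hppos (by omega))
  have hc : (univ : Finset (({i : Fin d // i ≠ i0} → ZMod (p ^ j)) × (Fin (p ^ (m0 p k)) × Fin (p ^ (tau p k))))).card =
      (p ^ j) ^ (d - 1) * p ^ (gam p k) := by
    rw [card_univ, Fintype.card_prod, hcc, Fintype.card_prod, Fintype.card_fin, Fintype.card_fin,
      ← pow_add]
    unfold gam
    rw [add_comm (tau p k)]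
  rw [← hc]
  apply card_le_card_of_injOn (fun x => ((fun i : {i : Fin d // i ≠ i0} => x i.1),
      ((⟨(x i0).val % p ^ (m0 p k), hlt1 x⟩ : Fin (p ^ (m0 p k))),
        (⟨(x i0).val / p ^ (j - tau p k), hlt2 x⟩ : Fin (p ^ (tau p k))))))
    (fun _ _ => mem_coe.mpr (mem_univ _))
  intro x hx y hy hxy
  rw [mem_coe, mem_filter] at hx hy
  simp only [Prod.mk.injEq, Fin.mk.injEq] at hxy
  obtain ⟨h1, h2, h3⟩ := hxy
  have hagree : ∀ i, i ≠ i0 → x i = y i := fun i hi => congrFun h1 ⟨i, hi⟩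
  have h4 := pow_eq_of_agree i0 hx.1 hy.1 hagree
  have h5 : (p : ℤ) ^ (m0 p k) ∣ ((x i0).val : ℤ) - ((y i0).val : ℤ) := by
    rw [← natcast_pow]
    have : (y i0).val ≡ (x i0).val [MOD p ^ (m0 p k)] := h2.symm
    have := (Nat.modEq_iff_dvd.mp this)
    exact_mod_cast this
  have h6 : (p : ℤ) ^ (j - tau p k) ∣ ((x i0).val : ℤ) - ((y i0).val : ℤ) := by
    rcases le_or_gt (tau p k) j with hle | hgt
    · apply lte_down hp hk hx.2 h5
      rw [Nat.sub_add_cancel hle, ← natcast_pow]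
      exact h4
    · rw [Nat.sub_eq_zero_of_le hgt.le, pow_zero]
      exact one_dvd _
  have h7 : (x i0).val = (y i0).val := by
    have h8 : (y i0).val ≡ (x i0).val [MOD p ^ (j - tau p k)] := by
      rw [Nat.modEq_iff_dvd]
      push_cast
      exact h6
    have h9 : (x i0).val % p ^ (j - tau p k) = (y i0).val % p ^ (j - tau p k) := h8.symm
    rw [← Nat.div_add_mod (x i0).val (p ^ (j - tau p k)), ← Nat.div_add_mod (y i0).val (p ^ (j - tau p k)),
      h3, h9]
  funext i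
  by_cases hi : i = i0
  · subst hi
    exact ZMod.val_injective _ h7
  · exact hagree i hi

/-- non-primitive solutions at low levels -/
lemma nonprim_low {p k d j : ℕ} (hp : p.Prime) [NeZero (p ^ j)] (hj : 1 ≤ j) (a : ℤ) :
    ((S k d (p ^ j) a).filter (fun x => ∀ i, (p : ℤ) ∣ ((x i).val : ℤ))).card ≤ (p ^ (j - 1)) ^ d := by
  classical
  have hpj : p ^ j = p * p ^ (j - 1) := by rw [← pow_succ']; congr 1; omega
  have hlt : ∀ (x : Fin d → ZMod (p ^ j)) (i : Fin d), (x i).val / p < p ^ (j - 1) := by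
    intro x i
    have := ZMod.val_lt (x i)
    rw [Nat.div_lt_iff_lt_mul hp.pos]
    calc (x i).val < p ^ j := this
      _ = p ^ (j - 1) * p := by rw [hpj, mul_comm]
  have hc : (univ : Finset (Fin d → Fin (p ^ (j - 1)))).card = (p ^ (j - 1)) ^ d := by
    rw [card_univ, Fintype.card_fun, Fintype.card_fin, Fintype.card_fin]
  rw [← hc]
  apply card_le_card_of_injOn (fun x i => (⟨(x i).val / p, hlt x i⟩ : Fin (p ^ (j - 1))))
    (fun _ _ => mem_coe.mpr (mem_univ _))
  intro x hx y hy hxy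
  rw [mem_coe, mem_filter] at hx hy
  funext i
  have h1 := congrFun hxy i
  simp only [Fin.mk.injEq] at h1
  have h2 : p ∣ (x i).val := by exact_mod_cast hx.2 i
  have h3 : p ∣ (y i).val := by exact_mod_cast hy.2 i
  apply ZMod.val_injective (p ^ j)
  rw [← Nat.div_mul_cancel h2, ← Nat.div_mul_cancel h3, h1]

/-- non-primitive solutions at levels above `k` -/
lemma nonprim_eq {p k d j : ℕ} (hp : p.Prime) [NeZero (p ^ j)] [NeZero (p ^ (j - k))] (hk : 0 < k)
    (hj : k < j) (b : ℤ) :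
    ((S k d (p ^ j) ((p : ℤ) ^ k * b)).filter (fun x => ∀ i, (p : ℤ) ∣ ((x i).val : ℤ))).card ≤
      (p ^ (k - 1)) ^ d * A k d (p ^ (j - k)) b := by
  classical
  have hppos := hp.pos
  have hlt : ∀ (x : Fin d → ZMod (p ^ j)) (i : Fin d), (x i).val / p / p ^ (j - k) < p ^ (k - 1) := by
    intro x i
    have := ZMod.val_lt (x i)
    rw [Nat.div_lt_iff_lt_mul (pow_pos hppos _), Nat.div_lt_iff_lt_mul hp.pos, ← pow_add, ← pow_succ]
    have e : k - 1 + (j - k) + 1 = j := by omega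
    rw [e]
    exact this
  have hc : ((univ : Finset (Fin d → Fin (p ^ (k - 1)))) ×ˢ (S k d (p ^ (j - k)) b)).card =
      (p ^ (k - 1)) ^ d * A k d (p ^ (j - k)) b := by
    rw [card_product, card_univ, Fintype.card_fun, Fintype.card_fin, Fintype.card_fin, ← A_eq]
  rw [← hc]
  apply card_le_card_of_injOn (fun x => ((fun i => (⟨(x i).val / p / p ^ (j - k), hlt x i⟩ : Fin (p ^ (k - 1)))),
    (fun i => (((((x i).val / p : ℕ) : ℤ)) : ZMod (p ^ (j - k))))))
  · intro x hx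
    rw [mem_coe, mem_filter, mem_S] at hx
    rw [mem_coe, mem_product]
    refine ⟨mem_univ _, ?_⟩
    apply cast_mem_S
    have h1 := hx.1
    have h2 : ∀ i, ((x i).val : ℤ) = (p : ℤ) * (((x i).val / p : ℕ) : ℤ) := by
      intro i
      have h2 : p ∣ (x i).val := by exact_mod_cast hx.2 i
      have := Nat.mul_div_cancel' h2
      exact_mod_cast this.symm
    have h3 : ∑ i, ((x i).val : ℤ) ^ k - (p : ℤ) ^ k * b =
        (p : ℤ) ^ k * (∑ i, (((x i).val / p : ℕ) : ℤ) ^ k - b) := by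
      rw [mul_sub, mul_sum]
      congr 1
      apply sum_congr rfl
      intro i _
      rw [← mul_pow, ← h2 i]
    have h4 : ((p ^ j : ℕ) : ℤ) = (p : ℤ) ^ k * ((p ^ (j - k) : ℕ) : ℤ) := by
      rw [natcast_pow, natcast_pow, ← pow_add]
      congr 1
      omega
    rw [h3, h4] at h1
    have hp0 : (p : ℤ) ^ k ≠ 0 := pow_ne_zero _ (by exact_mod_cast hp.ne_zero)
    exact (mul_dvd_mul_iff_left hp0).mp h1
  · intro x hx y hy hxy
    rw [mem_coe, mem_filter] at hx hy
    simp only [Prod.mk.injEq] at hxy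
    funext i
    have h1 := congrFun hxy.1 i
    simp only [Fin.mk.injEq] at h1
    have h2 := congrFun hxy.2 i
    rw [Int.cast_natCast, Int.cast_natCast, ZMod.natCast_eq_natCast_iff'] at h2
    have h3 : (x i).val / p = (y i).val / p := by
      rw [← Nat.div_add_mod ((x i).val / p) (p ^ (j - k)), ← Nat.div_add_mod ((y i).val / p) (p ^ (j - k)),
        h1, h2]
    have h4 : p ∣ (x i).val := by exact_mod_cast hx.2 i
    have h5 : p ∣ (y i).val := by exact_mod_cast hy.2 i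
    apply ZMod.val_injective (p ^ j)
    rw [← Nat.div_mul_cancel h4, ← Nat.div_mul_cancel h5, h3]

/-- non-primitive solutions at levels above `k` -/
lemma nonprim_high {p k d j : ℕ} (hp : p.Prime) [NeZero (p ^ j)] [NeZero (p ^ (j - k))] (hk : 0 < k)
    (hj : k < j) (a : ℤ)
    {B : ℕ} (hB : ∀ b : ℤ, A k d (p ^ (j - k)) b ≤ B) :
    ((S k d (p ^ j) a).filter (fun x => ∀ i, (p : ℤ) ∣ ((x i).val : ℤ))).card ≤
      (p ^ (k - 1)) ^ d * B := by
  classical
  rcases ((S k d (p ^ j) a).filter (fun x => ∀ i, (p : ℤ) ∣ ((x i).val : ℤ))).eq_empty_or_nonempty with he | hne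
  · rw [he]; simp
  obtain ⟨x0, hx0⟩ := hne
  rw [mem_filter, mem_S] at hx0
  have hpka : (p : ℤ) ^ k ∣ a := by
    have h1 : (p : ℤ) ^ k ∣ ∑ i, ((x0 i).val : ℤ) ^ k - a := by
      rw [natcast_pow] at hx0
      exact (pow_dvd_pow _ hj.le).trans hx0.1
    have h2 : (p : ℤ) ^ k ∣ ∑ i, ((x0 i).val : ℤ) ^ k :=
      dvd_sum (fun i _ => pow_dvd_pow_of_dvd (hx0.2 i) k)
    have := dvd_sub h2 h1
    simpa using this
  obtain ⟨b, rfl⟩ := hpka
  exact (nonprim_eq hp hk hj b).trans (Nat.mul_le_mul_left _ (hB b))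

end Pool.Agent.V8H20.LD
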