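import Mathlib
import Pool.Agent.V8H20.LD.L1
import Pool.Agent.TH854.KS.K3

/-! The number of solutions modulo a prime, by Gauss sums of order `k`. -/

set_option autoImplicit false

open Finset Pool.Agent.TH854.KS

namespace Pool.Agent.V8H20.LD

variable {p : ℕ} [Fact p.Prime]

lemma sum_GS (k d : ℕ) (a : ℤ) :
    ∑ t : ZMod p, ψ p (-(t * (a : ZMod p))) * GS p k t ^ d = (p : ℂ) * A k d p a := by
  classical
  have : NeZero p := ⟨(Fact.out : p.Prime).ne_zero⟩
  have h1 : ∀ t : ZMod p, ψ p (-(t * (a : ZMod p))) * GS p k t ^ d =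
      ∑ x : Fin d → ZMod p, ψ p (t * (∑ i, x i ^ k - (a : ZMod p))) := by
    intro t
    unfold GS
    rw [Fintype.sum_pow, mul_sum]
    apply sum_congr rfl
    intro x _
    rw [← char_sum, ← AddChar.map_add_eq_mul, ← mul_sum]
    congr 1
    ring
  simp_rw [h1]
  rw [sum_comm]
  have h2 : ∀ x : Fin d → ZMod p, ∑ t : ZMod p, ψ p (t * (∑ i, x i ^ k - (a : ZMod p))) =
      if ∑ i, x i ^ k = (a : ZMod p) then (p : ℂ) else 0 := by
    intro x
    rw [AddChar.sum_mulShift _ ψ_prim]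
    by_cases h : ∑ i, x i ^ k = (a : ZMod p)
    · rw [if_pos (by rw [h, sub_self]), if_pos h, ZMod.card]
    · rw [if_neg (by intro h'; exact h (sub_eq_zero.mp h')), if_neg h]
      simp
  simp_rw [h2]
  rw [← sum_filter, sum_const, nsmul_eq_mul, mul_comm]
  congr 2
  rw [A_eq]
  rfl

/-- the number of solutions modulo `p` is close to the expected one -/
theorem A_prime_bound {k : ℕ} (hk : 0 < k) {d : ℕ} (hd : 1 ≤ d) (a : ℤ) :
    |(A k d p a : ℝ) - (p : ℝ) ^ (d - 1)| ≤ (k * √p) ^ d := by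
  classical
  have hp : p.Prime := Fact.out
  have hp0 : (0 : ℝ) < p := by exact_mod_cast hp.pos
  have h := sum_GS (p := p) k d a
  rw [← add_sum_erase univ _ (mem_univ (0 : ZMod p)), GS_zero, zero_mul, neg_zero,
    AddChar.map_zero_eq_one, one_mul] at h
  have h1 : ‖∑ t ∈ univ.erase (0 : ZMod p), ψ p (-(t * (a : ZMod p))) * GS p k t ^ d‖ ≤
      (p - 1) * (k * √p) ^ d := by
    refine (norm_sum_le _ _).trans ?_
    have : ∑ t ∈ univ.erase (0 : ZMod p), ‖ψ p (-(t * (a : ZMod p))) * GS p k t ^ d‖ ≤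
        ∑ _t ∈ univ.erase (0 : ZMod p), (k * √p) ^ d := by
      apply sum_le_sum
      intro t ht
      rw [norm_mul, AddChar.norm_apply, one_mul, norm_pow]
      exact pow_le_pow_left₀ (norm_nonneg _) (GS_norm hk (ne_of_mem_erase ht)) d
    refine this.trans (le_of_eq ?_)
    rw [sum_const, card_erase_of_mem (mem_univ _), card_univ, ZMod.card, nsmul_eq_mul,
      Nat.cast_sub hp.one_lt.le, Nat.cast_one]
  have e : (p : ℝ) ^ d = p * p ^ (d - 1) := by
    rw [← pow_succ', Nat.sub_add_cancel hd]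
  have e' : (p : ℂ) ^ d = p * p ^ (d - 1) := by
    rw [← pow_succ', Nat.sub_add_cancel hd]
  have h2 : ‖(p : ℂ) * ((A k d p a : ℂ) - (p : ℂ) ^ (d - 1))‖ ≤ (p - 1) * (k * √p) ^ d := by
    have : (p : ℂ) * ((A k d p a : ℂ) - (p : ℂ) ^ (d - 1)) =
        ∑ t ∈ univ.erase (0 : ZMod p), ψ p (-(t * (a : ZMod p))) * GS p k t ^ d := by
      rw [mul_sub, ← h, ← e']
      ring
    rw [this]
    exact h1
  rw [norm_mul] at h2
  have h3 : ‖(p : ℂ)‖ = p := by simp
  have h4 : ‖((A k d p a : ℂ) - (p : ℂ) ^ (d - 1))‖ = |(A k d p a : ℝ) - (p : ℝ) ^ (d - 1)| := by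
    rw [← Real.norm_eq_abs, ← Complex.norm_real]
    congr 1
    push_cast
    ring
  rw [h3, h4] at h2
  have h5 : 0 ≤ ((k : ℝ) * √p) ^ d := by positivity
  have h6 : (p : ℝ) * |(A k d p a : ℝ) - (p : ℝ) ^ (d - 1)| ≤ p * (k * √p) ^ d := by nlinarith
  exact le_of_mul_le_mul_left h6 hp0

end Pool.Agent.V8H20.LD
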