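import Mathlib
import Pool.Agent.V8H20.LD.L3
import Pool.Agent.V8H20.LD.L4
import Pool.Agent.V8H20.LD.L5

/-! Local densities at one prime. -/

set_option autoImplicit false

open Finset

namespace Pool.Agent.V8H20.LD

/-- small primes, upper bound -/
theorem small_upper {p k d : ℕ} (hp : p.Prime) (hk : 0 < k) (hd : k + 1 ≤ d) (j : ℕ) :
    ∀ a : ℤ, A k d (p ^ j) a ≤ 2 * (d * p ^ (gam p k)) * (p ^ j) ^ (d - 1) := by
  classical
  have hppos := hp.pos
  have hp2 := hp.two_le
  set g := gam p k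
  have hdg : 1 ≤ d * p ^ g := Nat.mul_pos (by omega) (pow_pos hppos _)
  induction j using Nat.strong_induction_on with
  | _ j ih =>
  intro a
  rcases Nat.eq_zero_or_pos j with h0 | hj
  · subst h0
    rw [pow_zero, A_one, one_pow, mul_one]
    omega
  have : NeZero (p ^ j) := ⟨pow_ne_zero _ hp.ne_zero⟩
  have : NeZero (p ^ (j - k)) := ⟨pow_ne_zero _ hp.ne_zero⟩
  -- the decomposition
  have hdec : (S k d (p ^ j) a).card ≤
      ((S k d (p ^ j) a).filter (fun x => ∀ i, (p : ℤ) ∣ ((x i).val : ℤ))).card +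
        d * ((p ^ j) ^ (d - 1) * p ^ g) := by
    rw [← card_filter_add_card_filter_not (s := S k d (p ^ j) a) (fun x => ∀ i, (p : ℤ) ∣ ((x i).val : ℤ))]
    apply Nat.add_le_add_left
    have hsub : (S k d (p ^ j) a).filter (fun x => ¬ ∀ i, (p : ℤ) ∣ ((x i).val : ℤ)) ⊆
        (univ : Finset (Fin d)).biUnion
          (fun i0 => (S k d (p ^ j) a).filter (fun x => ¬ (p : ℤ) ∣ ((x i0).val : ℤ))) := by
      intro x hx
      rw [mem_filter] at hx
      obtain ⟨hx1, hx2⟩ := hx
      push Not at hx2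
      obtain ⟨i0, hi0⟩ := hx2
      rw [mem_biUnion]
      exact ⟨i0, mem_univ _, mem_filter.mpr ⟨hx1, hi0⟩⟩
    refine (card_le_card hsub).trans (card_biUnion_le.trans ?_)
    calc ∑ i0 : Fin d, ((S k d (p ^ j) a).filter (fun x => ¬ (p : ℤ) ∣ ((x i0).val : ℤ))).card
        ≤ ∑ _i0 : Fin d, (p ^ j) ^ (d - 1) * p ^ g := sum_le_sum (fun i0 _ => unit_upper hp hk i0 a)
      _ = d * ((p ^ j) ^ (d - 1) * p ^ g) := by
        rw [sum_const, card_univ, Fintype.card_fin, smul_eq_mul]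
  have hnon : ((S k d (p ^ j) a).filter (fun x => ∀ i, (p : ℤ) ∣ ((x i).val : ℤ))).card ≤
      (d * p ^ g) * (p ^ j) ^ (d - 1) := by
    rcases Nat.lt_or_ge k j with hlt | hge
    · have h1 := nonprim_high (d := d) hp hk hlt a (B := 2 * (d * p ^ g) * (p ^ (j - k)) ^ (d - 1))
        (fun b => ih (j - k) (by omega) b)
      refine h1.trans ?_
      have h2 : 2 * ((p ^ (k - 1)) ^ d * (p ^ (j - k)) ^ (d - 1)) ≤ (p ^ j) ^ (d - 1) := by
        rw [← pow_mul, ← pow_mul, ← pow_mul, ← pow_add]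
        have h3 : (k - 1) * d + (j - k) * (d - 1) + 1 ≤ j * (d - 1) := by
          obtain ⟨e, rfl⟩ : ∃ e, d = k + 1 + e := ⟨d - (k + 1), by omega⟩
          obtain ⟨f, rfl⟩ : ∃ f, j = k + 1 + f := ⟨j - (k + 1), by omega⟩
          obtain ⟨m, rfl⟩ : ∃ m, k = m + 1 := ⟨k - 1, by omega⟩
          have e1 : m + 1 - 1 = m := by omega
          have e2 : m + 1 + 1 + f - (m + 1) = 1 + f := by omega
          have e3 : m + 1 + 1 + e - 1 = m + 1 + e := by omega
          rw [e1, e2, e3]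
          nlinarith
        calc 2 * p ^ ((k - 1) * d + (j - k) * (d - 1)) ≤ p * p ^ ((k - 1) * d + (j - k) * (d - 1)) :=
              Nat.mul_le_mul_right _ hp2
          _ = p ^ ((k - 1) * d + (j - k) * (d - 1) + 1) := by rw [pow_succ, mul_comm]
          _ ≤ _ := Nat.pow_le_pow_right hppos h3
      calc (p ^ (k - 1)) ^ d * (2 * (d * p ^ g) * (p ^ (j - k)) ^ (d - 1))
          = (d * p ^ g) * (2 * ((p ^ (k - 1)) ^ d * (p ^ (j - k)) ^ (d - 1))) := by ring
        _ ≤ _ := Nat.mul_le_mul_left _ h2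
    · have h1 := nonprim_low (k := k) (d := d) hp hj a
      refine h1.trans ?_
      have h2 : (p ^ (j - 1)) ^ d ≤ (p ^ j) ^ (d - 1) := by
        rw [← pow_mul, ← pow_mul]
        apply Nat.pow_le_pow_right hppos
        obtain ⟨f, rfl⟩ : ∃ f, j = f + 1 := ⟨j - 1, by omega⟩
        obtain ⟨e, rfl⟩ : ∃ e, d = e + 1 := ⟨d - 1, by omega⟩
        simp only [Nat.add_sub_cancel]
        nlinarith
      calc (p ^ (j - 1)) ^ d ≤ (p ^ j) ^ (d - 1) := h2
        _ = 1 * (p ^ j) ^ (d - 1) := (one_mul _).symm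
        _ ≤ _ := Nat.mul_le_mul_right _ hdg
  rw [A_eq]
  calc (S k d (p ^ j) a).card ≤ _ := hdec
    _ ≤ (d * p ^ g) * (p ^ j) ^ (d - 1) + d * ((p ^ j) ^ (d - 1) * p ^ g) := Nat.add_le_add_right hnon _
    _ = _ := by ring

/-- lower bound from a primitive solution -/
theorem prim_lower {p k d : ℕ} (hp : p.Prime) (hk : 0 < k) (z : Fin d → ℤ) (i0 : Fin d)
    (hi0 : ¬ (p : ℤ) ∣ z i0) (a : ℤ) (hz : (p : ℤ) ^ (gam p k) ∣ ∑ i, z i ^ k - a) (j : ℕ) :
    (p ^ j) ^ (d - 1) ≤ A k d (p ^ j) a * (p ^ (gam p k)) ^ (d - 1) := by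
  classical
  have : NeZero (p ^ j) := ⟨pow_ne_zero _ hp.ne_zero⟩
  rw [A_eq]
  rcases Nat.lt_or_ge j (gam p k) with hlt | hge
  · have h1 : 1 ≤ (S k d (p ^ j) a).card := by
      rw [Nat.one_le_iff_ne_zero, Ne, card_eq_zero]
      intro he
      have := cast_mem_S (k := k) (N := p ^ j) (a := a) z (by
        rw [natcast_pow]
        exact (pow_dvd_pow _ hlt.le).trans hz)
      rw [he] at this
      simp at this
    calc (p ^ j) ^ (d - 1) ≤ (p ^ (gam p k)) ^ (d - 1) :=
          Nat.pow_le_pow_left (Nat.pow_le_pow_right hp.pos hlt.le) _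
      _ = 1 * (p ^ (gam p k)) ^ (d - 1) := (one_mul _).symm
      _ ≤ _ := Nat.mul_le_mul_right _ h1
  · have h1 := fiber_lower hp hk hge z i0 hi0 a hz
    have h2 := h1.trans (card_filter_le _ _)
    calc (p ^ j) ^ (d - 1) = (p ^ (j - gam p k)) ^ (d - 1) * (p ^ (gam p k)) ^ (d - 1) := by
          rw [← mul_pow, ← pow_add, Nat.sub_add_cancel hge]
      _ ≤ _ := Nat.mul_le_mul_right _ h2

/-- the decomposition of the solutions modulo `p ^ j` according to their residues modulo `p` -/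
lemma dec {p k d j : ℕ} (hp : p.Prime) (hk : 0 < k) (hpk : ¬ p ∣ k) [NeZero (p ^ j)] [NeZero p]
    (hj : 1 ≤ j) (a : ℤ) :
    (S k d (p ^ j) a).card ≤
      ((S k d (p ^ j) a).filter (fun x => ∀ i, (p : ℤ) ∣ ((x i).val : ℤ))).card +
        (S k d p a).card * (p ^ (j - 1)) ^ (d - 1) ∧
    ((S k d p a).card - 1) * (p ^ (j - 1)) ^ (d - 1) ≤ (S k d (p ^ j) a).card := by
  classical
  have hpj : (p : ℤ) ∣ ((p ^ j : ℕ) : ℤ) := by
    rw [natcast_pow]; exact dvd_pow_self _ (by omega)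
  have hmap : ∀ x ∈ S k d (p ^ j) a, (fun i => (((x i).val : ℤ) : ZMod p)) ∈ S k d p a := by
    intro x hx
    rw [mem_S] at hx
    exact cast_mem_S _ (hpj.trans hx)
  have hfib : ∀ z : Fin d → ZMod p, (S k d (p ^ j) a).filter (fun x => (fun i => (((x i).val : ℤ) : ZMod p)) = z) =
      (S k d (p ^ j) a).filter (fun x => ∀ i, (p : ℤ) ∣ ((x i).val : ℤ) - ((z i).val : ℤ)) := by
    intro z
    apply filter_congr
    intro x _
    constructor
    · intro h i
      have h1 : (((x i).val : ℤ) : ZMod p) = z i := congrFun h i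
      rw [← ZMod.intCast_zmod_eq_zero_iff_dvd, Int.cast_sub, h1, Int.cast_natCast, ZMod.natCast_zmod_val,
        sub_self]
    · intro h
      funext i
      have h1 := h i
      rw [← ZMod.intCast_zmod_eq_zero_iff_dvd, Int.cast_sub, sub_eq_zero, Int.cast_natCast (R := ZMod p) (z i).val,
        ZMod.natCast_zmod_val] at h1
      exact h1
  have hm : m0 p k = 1 := by
    unfold m0
    rw [if_neg]
    rintro ⟨rfl, h⟩
    exact hpk h
  have ht : tau p k = 0 := by
    unfold tau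
    exact padicValNat.eq_zero_of_not_dvd hpk
  have hg : gam p k = 1 := by unfold gam; omega
  have hunit : ∀ z : Fin d → ZMod p, z ≠ 0 → ∃ i0, ¬ (p : ℤ) ∣ ((z i0).val : ℤ) := by
    intro z hz
    by_contra hcon
    push Not at hcon
    apply hz
    funext i
    have h1 := hcon i
    rw [← ZMod.intCast_zmod_eq_zero_iff_dvd, Int.cast_natCast, ZMod.natCast_zmod_val] at h1
    exact h1
  have hsum := card_eq_sum_card_fiberwise hmap
  constructor
  · rw [hsum]
    have h1 : ∀ z ∈ S k d p a, ((S k d (p ^ j) a).filter (fun x => (fun i => (((x i).val : ℤ) : ZMod p)) = z)).card ≤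
        (if z = 0 then ((S k d (p ^ j) a).filter (fun x => ∀ i, (p : ℤ) ∣ ((x i).val : ℤ))).card else 0) +
          (p ^ (j - 1)) ^ (d - 1) := by
      intro z _
      rw [hfib z]
      by_cases hz : z = 0
      · rw [if_pos hz, hz]
        refine le_trans (le_of_eq ?_) (Nat.le_add_right _ _)
        congr 1
        apply filter_congr
        intro x _
        simp
      · rw [if_neg hz, zero_add]
        obtain ⟨i0, hi0⟩ := hunit z hz
        exact fiber_upper hp hk hpk hj (fun i => ((z i).val : ℤ)) i0 hi0 a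
    refine (sum_le_sum h1).trans ?_
    rw [sum_add_distrib, sum_const, smul_eq_mul]
    apply Nat.add_le_add_right
    rw [sum_ite_eq']
    split_ifs
    · exact le_rfl
    · exact Nat.zero_le _
  · rw [hsum]
    have h1 : ∀ z ∈ (S k d p a).erase 0, (p ^ (j - 1)) ^ (d - 1) ≤
        ((S k d (p ^ j) a).filter (fun x => (fun i => (((x i).val : ℤ) : ZMod p)) = z)).card := by
      intro z hz
      rw [hfib z]
      obtain ⟨i0, hi0⟩ := hunit z (ne_of_mem_erase hz)
      have h2 := fiber_lower (d := d) hp hk (j := j) (by omega) (fun i => ((z i).val : ℤ)) i0 hi0 a (by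
        rw [hg, pow_one]
        have := (mem_S z).mp (mem_of_mem_erase hz)
        exact this)
      rw [hg, hm, pow_one] at h2
      exact h2
    calc ((S k d p a).card - 1) * (p ^ (j - 1)) ^ (d - 1) ≤ ((S k d p a).erase 0).card * (p ^ (j - 1)) ^ (d - 1) :=
          Nat.mul_le_mul_right _ pred_card_le_card_erase
      _ = ∑ _z ∈ (S k d p a).erase 0, (p ^ (j - 1)) ^ (d - 1) := by rw [sum_const, smul_eq_mul]
      _ ≤ ∑ z ∈ (S k d p a).erase 0, ((S k d (p ^ j) a).filter (fun x => (fun i => (((x i).val : ℤ) : ZMod p)) = z)).card :=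
          sum_le_sum h1
      _ ≤ _ := sum_le_sum_of_subset (erase_subset _ _)

end Pool.Agent.V8H20.LD
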