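import Mathlib
import Pool.Agent.V8H20.LD.L6

/-! Local densities at a large prime. -/

set_option autoImplicit false

open Finset

namespace Pool.Agent.V8H20.LD

/-- `p ^ (-3/2)` -/
noncomputable def ep (p : ℕ) : ℝ := 1 / (√(p : ℝ)) ^ 3

lemma ep_pos {p : ℕ} (hp : 0 < p) : 0 < ep p := by
  unfold ep
  have : (0 : ℝ) < √(p : ℝ) := Real.sqrt_pos.mpr (by exact_mod_cast hp)
  positivity

lemma sq_pow (p n : ℕ) : (√(p : ℝ)) ^ (2 * n) = (p : ℝ) ^ n := by
  rw [pow_mul, Real.sq_sqrt (by positivity)]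

/-- `(√p)^d ≤ ep p * p^(d-1)` -/
lemma gs_small {p d : ℕ} (hp : 1 ≤ p) (hd : 5 ≤ d) : (√(p : ℝ)) ^ d ≤ ep p * (p : ℝ) ^ (d - 1) := by
  have h1 : (1 : ℝ) ≤ √(p : ℝ) := by
    rw [Real.one_le_sqrt]
    exact_mod_cast hp
  have h0 : (0 : ℝ) < (√(p : ℝ)) ^ 3 := by positivity
  unfold ep
  rw [one_div, inv_mul_eq_div, le_div_iff₀ h0, ← pow_add, ← sq_pow]
  exact pow_le_pow_right₀ h1 (by omega)

lemma one_small {p d : ℕ} (hp : 1 ≤ p) (hd : 5 ≤ d) : 1 ≤ ep p * (p : ℝ) ^ (d - 1) := by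
  have h1 : (1 : ℝ) ≤ √(p : ℝ) := by
    rw [Real.one_le_sqrt]
    exact_mod_cast hp
  exact (one_le_pow₀ h1).trans (gs_small hp hd)

lemma inv_sq_small {p : ℕ} (hp : 1 ≤ p) : 1 / (p : ℝ) ^ 2 ≤ ep p := by
  have h1 : (1 : ℝ) ≤ √(p : ℝ) := by
    rw [Real.one_le_sqrt]
    exact_mod_cast hp
  unfold ep
  apply one_div_le_one_div_of_le (by positivity)
  rw [← sq_pow]
  exact pow_le_pow_right₀ h1 (by omega)

variable {p : ℕ} [Fact p.Prime]

/-- large primes -/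
theorem large {k d : ℕ} (hk : 3 ≤ k) (hd : k + 2 ≤ d) (hpk : ¬ p ∣ k) (j : ℕ) :
    ∀ a : ℤ, (A k d (p ^ j) a : ℝ) ≤ (1 + 2 * ((k : ℝ) ^ d + 1) * ep p) * ((p : ℝ) ^ j) ^ (d - 1) ∧
      (1 - 2 * ((k : ℝ) ^ d + 1) * ep p) * ((p : ℝ) ^ j) ^ (d - 1) ≤ (A k d (p ^ j) a : ℝ) := by
  classical
  have hp : p.Prime := Fact.out
  have hppos := hp.pos
  have hp2 := hp.two_le
  have hpR : (0 : ℝ) < p := by exact_mod_cast hppos
  have hp2R : (2 : ℝ) ≤ p := by exact_mod_cast hp2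
  have hepos := ep_pos hppos
  have hkd : (0 : ℝ) < (k : ℝ) ^ d := by
    have : (0 : ℝ) < k := by exact_mod_cast (by omega : 0 < k)
    positivity
  set C : ℝ := 2 * ((k : ℝ) ^ d + 1) with hC
  have hCpos : 0 < C := by positivity
  have : NeZero p := ⟨hp.ne_zero⟩
  induction j using Nat.strong_induction_on with
  | _ j ih =>
  intro a
  rcases Nat.eq_zero_or_pos j with h0 | hj
  · subst h0
    rw [pow_zero, pow_zero, A_one, one_pow, mul_one, mul_one, Nat.cast_one]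
    have : 0 < C * ep p := mul_pos hCpos hepos
    constructor <;> linarith
  have : NeZero (p ^ j) := ⟨pow_ne_zero _ hp.ne_zero⟩
  have : NeZero (p ^ (j - k)) := ⟨pow_ne_zero _ hp.ne_zero⟩
  obtain ⟨hup, hlo⟩ := dec (d := d) hp (by omega : 0 < k) hpk hj a
  rw [← A_eq, ← A_eq] at hup hlo
  have hA1 := A_prime_bound (p := p) (k := k) (by omega) (d := d) (by omega) a
  rw [abs_le] at hA1
  have hgs : ((k : ℝ) * √(p : ℝ)) ^ d ≤ (k : ℝ) ^ d * (ep p * (p : ℝ) ^ (d - 1)) := by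
    rw [mul_pow]
    exact mul_le_mul_of_nonneg_left (gs_small (by omega) (by omega)) hkd.le
  set q : ℝ := ((p : ℝ) ^ (j - 1)) ^ (d - 1) with hq
  have hqpos : 0 < q := by positivity
  have hpq : ((p : ℝ) ^ j) ^ (d - 1) = (p : ℝ) ^ (d - 1) * q := by
    rw [hq, ← mul_pow, ← pow_succ']
    congr 2
    omega
  have hP : 0 < (p : ℝ) ^ (d - 1) := by positivity
  -- the non-primitive part
  have hnon : (((S k d (p ^ j) a).filter (fun x => ∀ i, (p : ℤ) ∣ ((x i).val : ℤ))).card : ℝ) ≤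
      (1 + C * ep p) * (1 / (p : ℝ) ^ 2) * ((p : ℝ) ^ j) ^ (d - 1) := by
    rcases Nat.lt_or_ge k j with hlt | hge
    · have h1 := nonprim_high (d := d) hp (by omega : 0 < k) hlt a
        (B := ⌊(1 + C * ep p) * ((p : ℝ) ^ (j - k)) ^ (d - 1)⌋₊)
        (fun b => Nat.le_floor (ih (j - k) (by omega) b).1)
      have h2 : (((S k d (p ^ j) a).filter (fun x => ∀ i, (p : ℤ) ∣ ((x i).val : ℤ))).card : ℝ) ≤
          ((p : ℝ) ^ (k - 1)) ^ d * ((1 + C * ep p) * ((p : ℝ) ^ (j - k)) ^ (d - 1)) := by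
        refine (Nat.cast_le.mpr h1).trans ?_
        push_cast
        apply mul_le_mul_of_nonneg_left _ (by positivity)
        apply Nat.floor_le
        have : 0 < C * ep p := mul_pos hCpos hepos
        positivity
      refine h2.trans ?_
      have h3 : ((p : ℝ) ^ (k - 1)) ^ d * ((p : ℝ) ^ (j - k)) ^ (d - 1) * (p : ℝ) ^ 2 ≤
          ((p : ℝ) ^ j) ^ (d - 1) := by
        rw [← pow_mul, ← pow_mul, ← pow_mul, ← pow_add, ← pow_add]
        apply pow_le_pow_right₀ (by linarith)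
        obtain ⟨e, rfl⟩ : ∃ e, d = k + 2 + e := ⟨d - (k + 2), by omega⟩
        obtain ⟨f, rfl⟩ : ∃ f, j = k + 1 + f := ⟨j - (k + 1), by omega⟩
        obtain ⟨m, rfl⟩ : ∃ m, k = m + 1 := ⟨k - 1, by omega⟩
        have e1 : m + 1 - 1 = m := by omega
        have e2 : m + 1 + 1 + f - (m + 1) = 1 + f := by omega
        have e3 : m + 1 + 2 + e - 1 = m + 2 + e := by omega
        rw [e1, e2, e3]
        nlinarith
      have h4 : 0 < 1 + C * ep p := by have := mul_pos hCpos hepos; linarith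
      have h5 : ((p : ℝ) ^ (k - 1)) ^ d * ((p : ℝ) ^ (j - k)) ^ (d - 1) ≤
          (1 / (p : ℝ) ^ 2) * ((p : ℝ) ^ j) ^ (d - 1) := by
        rw [one_div, inv_mul_eq_div, le_div_iff₀ (by positivity)]
        exact h3
      calc ((p : ℝ) ^ (k - 1)) ^ d * ((1 + C * ep p) * ((p : ℝ) ^ (j - k)) ^ (d - 1))
          = (1 + C * ep p) * (((p : ℝ) ^ (k - 1)) ^ d * ((p : ℝ) ^ (j - k)) ^ (d - 1)) := by ring
        _ ≤ (1 + C * ep p) * ((1 / (p : ℝ) ^ 2) * ((p : ℝ) ^ j) ^ (d - 1)) :=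
            mul_le_mul_of_nonneg_left h5 h4.le
        _ = _ := by ring
    · have h1 := nonprim_low (k := k) (d := d) hp hj a
      have h2 : (((S k d (p ^ j) a).filter (fun x => ∀ i, (p : ℤ) ∣ ((x i).val : ℤ))).card : ℝ) ≤
          ((p : ℝ) ^ (j - 1)) ^ d := by exact_mod_cast h1
      have h3 : ((p : ℝ) ^ (j - 1)) ^ d * (p : ℝ) ^ 2 ≤ ((p : ℝ) ^ j) ^ (d - 1) := by
        rw [← pow_mul, ← pow_mul, ← pow_add]
        apply pow_le_pow_right₀ (by linarith)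
        obtain ⟨f, rfl⟩ : ∃ f, j = f + 1 := ⟨j - 1, by omega⟩
        obtain ⟨e, rfl⟩ : ∃ e, d = f + 1 + 2 + e := ⟨d - (f + 1 + 2), by omega⟩
        have e1 : f + 1 - 1 = f := by omega
        have e2 : f + 1 + 2 + e - 1 = f + 2 + e := by omega
        rw [e1, e2]
        nlinarith
      have h5 : ((p : ℝ) ^ (j - 1)) ^ d ≤ (1 / (p : ℝ) ^ 2) * ((p : ℝ) ^ j) ^ (d - 1) := by
        rw [one_div, inv_mul_eq_div, le_div_iff₀ (by positivity)]
        exact h3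
      have h6 : 0 < C * ep p := mul_pos hCpos hepos
      have h7 : 0 < (1 / (p : ℝ) ^ 2) * ((p : ℝ) ^ j) ^ (d - 1) := by positivity
      nlinarith
  have hi2 := inv_sq_small (p := p) (by omega)
  have hi4 : 1 / (p : ℝ) ^ 2 ≤ 1 / 4 := by
    apply one_div_le_one_div_of_le (by norm_num)
    nlinarith
  constructor
  · have h1 : (A k d (p ^ j) a : ℝ) ≤
        (((S k d (p ^ j) a).filter (fun x => ∀ i, (p : ℤ) ∣ ((x i).val : ℤ))).card : ℝ) +
          (A k d p a : ℝ) * q := by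
      have := (Nat.cast_le (α := ℝ)).mpr hup
      push_cast at this
      exact this
    have h2 : (A k d p a : ℝ) * q ≤ (1 + (k : ℝ) ^ d * ep p) * ((p : ℝ) ^ j) ^ (d - 1) := by
      rw [hpq]
      have h3 : (A k d p a : ℝ) ≤ (1 + (k : ℝ) ^ d * ep p) * (p : ℝ) ^ (d - 1) := by linarith [hA1.2]
      calc (A k d p a : ℝ) * q ≤ ((1 + (k : ℝ) ^ d * ep p) * (p : ℝ) ^ (d - 1)) * q :=
            mul_le_mul_of_nonneg_right h3 hqpos.le
        _ = _ := by ring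
    have h4 : (1 + C * ep p) * (1 / (p : ℝ) ^ 2) + (1 + (k : ℝ) ^ d * ep p) ≤ 1 + C * ep p := by
      have h5 : (1 + C * ep p) * (1 / (p : ℝ) ^ 2) ≤ ep p + C * ep p * (1 / 4) := by
        have h6 : 0 < C * ep p := mul_pos hCpos hepos
        nlinarith
      have h7 : C * ep p = 2 * ((k : ℝ) ^ d * ep p) + 2 * ep p := by rw [hC]; ring
      have h8 : 0 < (k : ℝ) ^ d * ep p := mul_pos hkd hepos
      rw [h7] at h5 ⊢
      linarith
    have h9 : 0 < ((p : ℝ) ^ j) ^ (d - 1) := by positivity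
    calc (A k d (p ^ j) a : ℝ) ≤ (1 + C * ep p) * (1 / (p : ℝ) ^ 2) * ((p : ℝ) ^ j) ^ (d - 1) +
          (1 + (k : ℝ) ^ d * ep p) * ((p : ℝ) ^ j) ^ (d - 1) := by linarith
      _ = ((1 + C * ep p) * (1 / (p : ℝ) ^ 2) + (1 + (k : ℝ) ^ d * ep p)) * ((p : ℝ) ^ j) ^ (d - 1) := by ring
      _ ≤ _ := mul_le_mul_of_nonneg_right h4 h9.le
  · have h1 : ((A k d p a : ℝ) - 1) * q ≤ (A k d (p ^ j) a : ℝ) := by
      have := (Nat.cast_le (α := ℝ)).mpr hlo
      rw [Nat.cast_mul] at this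
      push_cast at this
      refine le_trans ?_ this
      apply mul_le_mul_of_nonneg_right _ hqpos.le
      rcases Nat.eq_zero_or_pos (A k d p a) with h0 | h0
      · rw [h0]; simp
      · rw [Nat.cast_sub h0]; simp
    refine le_trans ?_ h1
    rw [hpq]
    have h2 := one_small (p := p) (d := d) (by omega) (by omega)
    have h3 : (1 - C * ep p) * (p : ℝ) ^ (d - 1) ≤ (A k d p a : ℝ) - 1 := by
      have h7 : C * ep p * (p : ℝ) ^ (d - 1) =
          2 * ((k : ℝ) ^ d * (ep p * (p : ℝ) ^ (d - 1))) + 2 * (ep p * (p : ℝ) ^ (d - 1)) := by rw [hC]; ring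
      have h8 : 0 < (k : ℝ) ^ d * (ep p * (p : ℝ) ^ (d - 1)) := by positivity
      have h9 : (1 - C * ep p) * (p : ℝ) ^ (d - 1) = (p : ℝ) ^ (d - 1) - C * ep p * (p : ℝ) ^ (d - 1) := by ring
      rw [h9, h7]
      linarith [hA1.1]
    calc (1 - C * ep p) * ((p : ℝ) ^ (d - 1) * q) = ((1 - C * ep p) * (p : ℝ) ^ (d - 1)) * q := by ring
      _ ≤ _ := mul_le_mul_of_nonneg_right h3 hqpos.le

end Pool.Agent.V8H20.LD
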