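import Mathlib
import Pool.Agent.V8H20.LD.L7

/-! All moduli. -/

set_option autoImplicit false

open Finset

namespace Pool.Agent.V8H20.LD

lemma prod_lower (T : Finset ℕ) (x : ℕ → ℝ) (h0 : ∀ p ∈ T, 0 ≤ x p) (h1 : ∀ p ∈ T, x p ≤ 1) :
    1 - ∑ p ∈ T, x p ≤ ∏ p ∈ T, (1 - x p) := by
  classical
  induction T using Finset.induction_on with
  | empty => simp
  | insert q T hq ih =>
    rw [sum_insert hq, prod_insert hq]
    have ih' := ih (fun p hp => h0 p (mem_insert_of_mem hp)) (fun p hp => h1 p (mem_insert_of_mem hp))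
    have h2 := h0 q (mem_insert_self _ _)
    have h3 := h1 q (mem_insert_self _ _)
    have h4 : 0 ≤ ∑ p ∈ T, x p := sum_nonneg (fun p hp => h0 p (mem_insert_of_mem hp))
    nlinarith

lemma prod_upper (T : Finset ℕ) (x : ℕ → ℝ) (h0 : ∀ p ∈ T, 0 ≤ x p) :
    ∏ p ∈ T, (1 + x p) ≤ Real.exp (∑ p ∈ T, x p) := by
  rw [Real.exp_sum]
  apply prod_le_prod
  · intro p hp
    have := h0 p hp
    linarith
  · intro p _
    have := Real.add_one_le_exp (x p)
    linarith

lemma summable_ep (K : ℝ) : Summable (fun n : ℕ => K * ep n) := by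
  apply Summable.mul_left
  have h : Summable (fun n : ℕ => 1 / (n : ℝ) ^ ((3 : ℝ) / 2)) := by
    rw [Real.summable_one_div_nat_rpow]
    norm_num
  refine h.congr ?_
  intro n
  unfold ep
  congr 1
  rw [Real.sqrt_eq_rpow, ← Real.rpow_natCast, ← Real.rpow_mul (by positivity)]
  norm_num

/-- uniform bounds for all moduli -/
theorem all_moduli {k d : ℕ} (hk : 3 ≤ k) (hd : k + 2 ≤ d) :
    ∃ c C : ℝ, 0 < c ∧ c ≤ C ∧ ∀ a : ℤ,
      (∀ p : ℕ, p.Prime → ∃ (z : Fin d → ℤ) (i0 : Fin d), ¬ (p : ℤ) ∣ z i0 ∧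
        (p : ℤ) ^ (gam p k) ∣ ∑ i, z i ^ k - a) →
      ∀ W : ℕ, 1 ≤ W → c * (W : ℝ) ^ (d - 1) ≤ A k d W a ∧ (A k d W a : ℝ) ≤ C * (W : ℝ) ^ (d - 1) := by
  classical
  set K : ℝ := 2 * ((k : ℝ) ^ d + 1) with hK
  have hkd : (0 : ℝ) < (k : ℝ) ^ d := by
    have : (0 : ℝ) < k := by exact_mod_cast (by omega : 0 < k)
    positivity
  have hKpos : 0 < K := by positivity
  obtain ⟨s0, hs0⟩ := (summable_iff_vanishing_norm.mp (summable_ep K)) (1 / 2) (by norm_num)
  set s := (s0 ∪ range (k + 1)).filter Nat.Prime with hs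
  have hsP : ∀ p ∈ s, p.Prime := fun p hp => (mem_filter.mp hp).2
  -- bounds at the small primes
  set l : ℕ → ℝ := fun p => 1 / ((p : ℝ) ^ (gam p k)) ^ (d - 1) with hl
  set u : ℕ → ℝ := fun p => 2 * (d * (p : ℝ) ^ (gam p k)) with hu
  have hlpos : ∀ p, p.Prime → 0 < l p ∧ l p ≤ 1 := by
    intro p hp
    have h1 : (1 : ℝ) ≤ p := by exact_mod_cast hp.one_lt.le
    have h2 : (1 : ℝ) ≤ ((p : ℝ) ^ (gam p k)) ^ (d - 1) := one_le_pow₀ (one_le_pow₀ h1)
    constructor
    · simp only [hl]; positivity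
    · simp only [hl]
      rw [div_le_one (by linarith)]
      exact h2
  have hu1 : ∀ p, p.Prime → 1 ≤ u p := by
    intro p hp
    have h1 : (1 : ℝ) ≤ p := by exact_mod_cast hp.one_lt.le
    have h2 : (1 : ℝ) ≤ (p : ℝ) ^ (gam p k) := one_le_pow₀ h1
    have h3 : (1 : ℝ) ≤ d := by exact_mod_cast (by omega : 1 ≤ d)
    simp only [hu]
    nlinarith
  set L := ∏ p ∈ s, l p with hL
  set U := ∏ p ∈ s, u p with hU
  have hLpos : 0 < L := prod_pos (fun p hp => (hlpos p (hsP p hp)).1)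
  have hL1 : L ≤ 1 := prod_le_one (fun p hp => (hlpos p (hsP p hp)).1.le) (fun p hp => (hlpos p (hsP p hp)).2)
  have hU1 : 1 ≤ U := by
    rw [hU]
    calc (1 : ℝ) = ∏ p ∈ s, (1 : ℝ) := by simp
      _ ≤ _ := prod_le_prod (fun _ _ => zero_le_one) (fun p hp => hu1 p (hsP p hp))
  refine ⟨L * (1 / 2), U * 2, by positivity, by nlinarith, ?_⟩
  intro a hprim W hW
  set T := W.primeFactors with hT
  have hTP : ∀ p ∈ T, p.Prime := fun p hp => Nat.prime_of_mem_primeFactors hp
  have hWprod : (W : ℝ) ^ (d - 1) = ∏ p ∈ T, ((p : ℝ) ^ (W.factorization p)) ^ (d - 1) := by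
    rw [prod_pow]
    congr 1
    have := Nat.prod_factorization_pow_eq_self (by omega : W ≠ 0)
    rw [Finsupp.prod, Nat.support_factorization] at this
    conv_lhs => rw [← this]
    push_cast
    rfl
  have hAprod : (A k d W a : ℝ) = ∏ p ∈ T, (A k d (p ^ (W.factorization p)) a : ℝ) := by
    rw [A_factor k d a (by omega : W ≠ 0), Finsupp.prod, Nat.support_factorization]
    push_cast
    rfl
  -- the local factors
  set f : ℕ → ℝ := fun p => (A k d (p ^ (W.factorization p)) a : ℝ) / ((p : ℝ) ^ (W.factorization p)) ^ (d - 1)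
    with hf
  have hden : ∀ p ∈ T, (0 : ℝ) < ((p : ℝ) ^ (W.factorization p)) ^ (d - 1) := by
    intro p hp
    have : (0 : ℝ) < p := by exact_mod_cast (hTP p hp).pos
    positivity
  have hfprod : (A k d W a : ℝ) = (∏ p ∈ T, f p) * (W : ℝ) ^ (d - 1) := by
    rw [hAprod, hWprod, ← prod_mul_distrib]
    apply prod_congr rfl
    intro p hp
    simp only [hf]
    rw [div_mul_cancel₀ _ (hden p hp).ne']
  have hfsmall : ∀ p ∈ T, l p ≤ f p ∧ f p ≤ u p := by
    intro p hp
    have hpp := hTP p hp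
    constructor
    · obtain ⟨z, i0, hi0, hz⟩ := hprim p hpp
      have h1 := prim_lower (d := d) hpp (by omega : 0 < k) z i0 hi0 a hz (W.factorization p)
      have h2 : ((p : ℝ) ^ (W.factorization p)) ^ (d - 1) ≤
          (A k d (p ^ (W.factorization p)) a : ℝ) * ((p : ℝ) ^ (gam p k)) ^ (d - 1) := by exact_mod_cast h1
      have h3 : (0 : ℝ) < ((p : ℝ) ^ (gam p k)) ^ (d - 1) := by
        have : (0 : ℝ) < p := by exact_mod_cast hpp.pos
        positivity
      simp only [hf, hl]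
      rw [div_le_div_iff₀ h3 (hden p hp), one_mul]
      exact h2
    · have h1 := small_upper (d := d) hpp (by omega : 0 < k) (by omega) (W.factorization p) a
      have h2 : (A k d (p ^ (W.factorization p)) a : ℝ) ≤
          2 * (d * (p : ℝ) ^ (gam p k)) * ((p : ℝ) ^ (W.factorization p)) ^ (d - 1) := by exact_mod_cast h1
      simp only [hf, hu]
      rw [div_le_iff₀ (hden p hp)]
      exact h2
  set T1 := T.filter (fun p => p ∈ s) with hT1
  set T2 := T.filter (fun p => p ∉ s) with hT2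
  have hT2k : ∀ p ∈ T2, p.Prime ∧ ¬ p ∣ k := by
    intro p hp
    rw [hT2, mem_filter] at hp
    have hpp := hTP p hp.1
    refine ⟨hpp, ?_⟩
    intro hdvd
    apply hp.2
    rw [hs, mem_filter, mem_union]
    refine ⟨Or.inr ?_, hpp⟩
    rw [mem_range]
    have := Nat.le_of_dvd (by omega) hdvd
    omega
  have hflarge : ∀ p ∈ T2, 1 - K * ep p ≤ f p ∧ f p ≤ 1 + K * ep p := by
    intro p hp
    obtain ⟨hpp, hpk⟩ := hT2k p hp
    have hpT : p ∈ T := (mem_filter.mp hp).1
    have : Fact p.Prime := ⟨hpp⟩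
    have h1 := large (p := p) hk hd hpk (W.factorization p) a
    simp only [hf]
    rw [le_div_iff₀ (hden p hpT), div_le_iff₀ (hden p hpT)]
    exact ⟨h1.2, h1.1⟩
  have hsumT2 : ∑ p ∈ T2, K * ep p < 1 / 2 := by
    have h1 := hs0 T2 (by
      rw [disjoint_left]
      intro p hp hps
      rw [hT2, mem_filter] at hp
      apply hp.2
      rw [hs, mem_filter, mem_union]
      exact ⟨Or.inl hps, hTP p hp.1⟩)
    exact (le_abs_self _).trans_lt h1
  have hx0 : ∀ p ∈ T2, 0 ≤ K * ep p := by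
    intro p hp
    exact (mul_pos hKpos (ep_pos (hT2k p hp).1.pos)).le
  have hx1 : ∀ p ∈ T2, K * ep p ≤ 1 := by
    intro p hp
    have := single_le_sum hx0 hp
    linarith
  have hsplit : ∏ p ∈ T, f p = (∏ p ∈ T1, f p) * ∏ p ∈ T2, f p :=
    (prod_filter_mul_prod_filter_not T (fun p => p ∈ s) f).symm
  have hT1s : T1 ⊆ s := fun p hp => (mem_filter.mp hp).2
  have hT1T : ∀ p ∈ T1, p ∈ T := fun p hp => (mem_filter.mp hp).1
  have hlow1 : L ≤ ∏ p ∈ T1, f p := by
    calc L = (∏ p ∈ s \ T1, l p) * ∏ p ∈ T1, l p := (prod_sdiff hT1s).symm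
      _ ≤ 1 * ∏ p ∈ T1, l p := by
          apply mul_le_mul_of_nonneg_right _ (prod_nonneg (fun p hp => (hlpos p (hsP p (hT1s hp))).1.le))
          apply prod_le_one
          · intro p hp
            exact (hlpos p (hsP p (mem_sdiff.mp hp).1)).1.le
          · intro p hp
            exact (hlpos p (hsP p (mem_sdiff.mp hp).1)).2
      _ = ∏ p ∈ T1, l p := one_mul _
      _ ≤ _ := prod_le_prod (fun p hp => (hlpos p (hsP p (hT1s hp))).1.le)
          (fun p hp => (hfsmall p (hT1T p hp)).1)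
  have hup1 : ∏ p ∈ T1, f p ≤ U := by
    calc ∏ p ∈ T1, f p ≤ ∏ p ∈ T1, u p := prod_le_prod
          (fun p hp => (hlpos p (hsP p (hT1s hp))).1.le.trans (hfsmall p (hT1T p hp)).1)
          (fun p hp => (hfsmall p (hT1T p hp)).2)
      _ = 1 * ∏ p ∈ T1, u p := (one_mul _).symm
      _ ≤ (∏ p ∈ s \ T1, u p) * ∏ p ∈ T1, u p := by
          apply mul_le_mul_of_nonneg_right
          · calc (1 : ℝ) = ∏ p ∈ s \ T1, (1 : ℝ) := by simp
              _ ≤ _ := prod_le_prod (fun _ _ => zero_le_one)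
                (fun p hp => hu1 p (hsP p (mem_sdiff.mp hp).1))
          · exact prod_nonneg (fun p hp => zero_le_one.trans (hu1 p (hsP p (hT1s hp))))
      _ = U := prod_sdiff hT1s
  have hlow2 : 1 / 2 ≤ ∏ p ∈ T2, f p := by
    calc (1 / 2 : ℝ) ≤ 1 - ∑ p ∈ T2, K * ep p := by linarith
      _ ≤ ∏ p ∈ T2, (1 - K * ep p) := prod_lower T2 (fun p => K * ep p) hx0 hx1
      _ ≤ _ := prod_le_prod (fun p hp => by have := hx1 p hp; linarith) (fun p hp => (hflarge p hp).1)
  have hup2 : ∏ p ∈ T2, f p ≤ 2 := by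
    calc ∏ p ∈ T2, f p ≤ ∏ p ∈ T2, (1 + K * ep p) := prod_le_prod
          (fun p hp => by have := hx1 p hp; have := (hflarge p hp).1; linarith)
          (fun p hp => (hflarge p hp).2)
      _ ≤ Real.exp (∑ p ∈ T2, K * ep p) := prod_upper T2 (fun p => K * ep p) hx0
      _ ≤ Real.exp (1 / 2) := Real.exp_le_exp.mpr hsumT2.le
      _ ≤ 2 := by
          have h1 : Real.exp (1 / 2) ^ 2 = Real.exp 1 := by
            rw [← Real.exp_nat_mul]
            norm_num
          have h2 := Real.exp_one_lt_d9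
          have h3 : 0 < Real.exp (1 / 2) := Real.exp_pos _
          nlinarith
  have hWpos : (0 : ℝ) < (W : ℝ) ^ (d - 1) := by
    have : (0 : ℝ) < W := by exact_mod_cast hW
    positivity
  rw [hfprod, hsplit]
  constructor
  · apply mul_le_mul_of_nonneg_right _ hWpos.le
    exact mul_le_mul hlow1 hlow2 (by norm_num) (hLpos.le.trans hlow1)
  · apply mul_le_mul_of_nonneg_right _ hWpos.le
    exact mul_le_mul hup1 hup2 ((by norm_num : (0:ℝ) ≤ 1/2).trans hlow2) (by linarith)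

end Pool.Agent.V8H20.LD
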