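import Mathlib
import Pool.Agent.V8H20.LD.L8
import Pool.Agent.TH854.KS.K7

/-! Primitive zeros modulo prime powers. -/

set_option autoImplicit false

open Finset

namespace Pool.Agent.V8H20.LD

lemma sum_fin_ite {d m : ℕ} (hm : m ≤ d) (f : ℕ → ℤ) :
    ∑ i : Fin d, (if (i : ℕ) < m then f i else 0) = ∑ i ∈ range m, f i := by
  rw [Fin.sum_univ_eq_sum_range (fun i => if i < m then f i else 0) d, ← sum_filter]
  apply sum_congr _ (fun _ _ => rfl)
  ext i
  rw [mem_filter, mem_range, mem_range]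
  omega

/-- `p ^ γ` ones -/
lemma ones {p k d γ : ℕ} (hp : p.Prime) (hk : 0 < k) (h : p ^ γ ≤ d) :
    ∃ (z : Fin d → ℤ) (i0 : Fin d), ¬ (p : ℤ) ∣ z i0 ∧ (p : ℤ) ^ γ ∣ ∑ i, z i ^ k := by
  have hpos : 0 < p ^ γ := pow_pos hp.pos _
  refine ⟨fun i => if (i : ℕ) < p ^ γ then 1 else 0, ⟨0, by omega⟩, ?_, ?_⟩
  · simp only [hpos, if_true]
    intro h1
    have := Int.natCast_dvd_natCast.mp (by simpa using h1 : ((p : ℕ) : ℤ) ∣ ((1 : ℕ) : ℤ))
    exact hp.one_lt.ne' (Nat.dvd_one.mp this)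
  · have h1 : ∑ i : Fin d, (if (i : ℕ) < p ^ γ then (1 : ℤ) else 0) ^ k =
        ∑ i : Fin d, (if (i : ℕ) < p ^ γ then (1 : ℤ) else 0) := by
      apply sum_congr rfl
      intro i _
      split_ifs
      · simp
      · exact zero_pow hk.ne'
    rw [h1, sum_fin_ite h (fun _ => 1), sum_const, card_range, nsmul_eq_mul, mul_one]
    push_cast
    exact dvd_rfl

/-- Chevalley-Warning -/
lemma cw {p k d : ℕ} (hp : p.Prime) (hk : 0 < k) (hd : k < d) :
    ∃ (z : Fin d → ℤ) (i0 : Fin d), ¬ (p : ℤ) ∣ z i0 ∧ (p : ℤ) ∣ ∑ i, z i ^ k := by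
  classical
  have : Fact p.Prime := ⟨hp⟩
  have : NeZero p := ⟨hp.ne_zero⟩
  set f : MvPolynomial (Fin d) (ZMod p) := ∑ i, MvPolynomial.X i ^ k with hf
  have hdeg : f.totalDegree < Fintype.card (Fin d) := by
    rw [Fintype.card_fin]
    refine lt_of_le_of_lt (MvPolynomial.totalDegree_finsetSum _ _) ?_
    rw [Finset.sup_lt_iff (by simpa using (by omega : 0 < d))]
    intro i _
    rw [MvPolynomial.totalDegree_X_pow]
    exact hd
  have h := char_dvd_card_solutions p hdeg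
  have heval : ∀ x : Fin d → ZMod p, MvPolynomial.eval x f = ∑ i, x i ^ k := by
    intro x
    rw [hf, map_sum]
    apply sum_congr rfl
    intro i _
    rw [map_pow, MvPolynomial.eval_X]
  have h0 : MvPolynomial.eval (0 : Fin d → ZMod p) f = 0 := by
    rw [heval]
    apply sum_eq_zero
    intro i _
    exact zero_pow hk.ne'
  have hcard : 1 < Fintype.card {x : Fin d → ZMod p // MvPolynomial.eval x f = 0} := by
    have h1 : 0 < Fintype.card {x : Fin d → ZMod p // MvPolynomial.eval x f = 0} :=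
      Fintype.card_pos_iff.mpr ⟨⟨0, h0⟩⟩
    exact hp.one_lt.trans_le (Nat.le_of_dvd h1 h)
  rw [Fintype.one_lt_card_iff] at hcard
  obtain ⟨x, y, hxy⟩ := hcard
  have hnz : ∃ w : Fin d → ZMod p, w ≠ 0 ∧ ∑ i, w i ^ k = 0 := by
    by_cases hx : x.1 = 0
    · refine ⟨y.1, ?_, by rw [← heval]; exact y.2⟩
      intro hy
      exact hxy (Subtype.ext (hx.trans hy.symm))
    · exact ⟨x.1, hx, by rw [← heval]; exact x.2⟩
  obtain ⟨w, hw, hw2⟩ := hnz
  obtain ⟨i0, hi0⟩ := Function.ne_iff.mp hw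
  refine ⟨fun i => ((w i).val : ℤ), i0, ?_, ?_⟩
  · intro h1
    apply hi0
    rw [← ZMod.intCast_zmod_eq_zero_iff_dvd, Int.cast_natCast, ZMod.natCast_zmod_val] at h1
    exact h1
  · rw [← ZMod.intCast_zmod_eq_zero_iff_dvd]
    push_cast
    simp only [ZMod.natCast_zmod_val]
    exact hw2

/-- sums over a group of roots of unity -/
lemma rootsum {p k d τ : ℕ} (hp : p.Prime) (hk : 0 < k) (hτ : p ^ τ ∣ k)
    (hpk : ¬ (p - 1) ∣ k) (hd : p - 1 ≤ d) :
    ∃ (z : Fin d → ℤ) (i0 : Fin d), ¬ (p : ℤ) ∣ z i0 ∧ (p : ℤ) ^ (τ + 1) ∣ ∑ i, z i ^ k := by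
  classical
  have : Fact p.Prime := ⟨hp⟩
  have : NeZero p := ⟨hp.ne_zero⟩
  have hp2 := hp.two_le
  have hp1 : 0 < p - 1 := by omega
  -- an element whose k-th power is not one
  obtain ⟨u, hu⟩ : ∃ u : (ZMod p)ˣ, u ^ k ≠ 1 := by
    have h1 : k % (p - 1) ≠ 0 := fun h => hpk (Nat.dvd_of_mod_eq_zero h)
    have h2 : k % (p - 1) < Nat.card (ZMod p)ˣ := by
      rw [Nat.card_eq_fintype_card, ZMod.card_units_eq_totient, Nat.totient_prime hp]
      exact Nat.mod_lt _ hp1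
    obtain ⟨u, hu⟩ := exists_pow_ne_one_of_isCyclic h1 h2
    refine ⟨u, ?_⟩
    intro h3
    apply hu
    have h4 : u ^ (p - 1) = 1 := ZMod.units_pow_card_sub_one_eq_one p u
    rw [← Nat.div_add_mod k (p - 1), pow_add, pow_mul, h4, one_pow, one_mul] at h3
    exact h3
  set g : ℤ := ((u : ZMod p).val : ℤ) with hg
  have hgu : (g : ZMod p) = (u : ZMod p) := by
    rw [hg, Int.cast_natCast, ZMod.natCast_zmod_val]
  have hgp : ¬ (p : ℤ) ∣ g := by
    intro h
    rw [← ZMod.intCast_zmod_eq_zero_iff_dvd, hgu] at h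
    exact u.ne_zero h
  have hg1 : ¬ (p : ℤ) ∣ g ^ k - 1 := by
    intro h
    rw [← ZMod.intCast_zmod_eq_zero_iff_dvd, Int.cast_sub, Int.cast_pow, hgu, Int.cast_one,
      sub_eq_zero] at h
    apply hu
    apply Units.ext
    push_cast
    exact h
  have hpow : (p : ℤ) ^ (τ + 1) ∣ (g ^ k) ^ (p - 1) - 1 := by
    have hcop : Nat.Coprime (u : ZMod p).val (p ^ (τ + 1)) := by
      apply Nat.Coprime.pow_right
      apply Nat.Coprime.symm
      rw [Nat.Prime.coprime_iff_not_dvd hp]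
      intro h
      apply hgp
      rw [hg]
      exact_mod_cast h
    have h1 := Nat.ModEq.pow_totient hcop
    rw [Nat.totient_prime_pow_succ hp] at h1
    have h2 := (Nat.modEq_iff_dvd.mp h1.symm)
    push_cast at h2
    obtain ⟨m, rfl⟩ := hτ
    have h3 : (g ^ (p ^ τ * m)) ^ (p - 1) = (g ^ (p ^ τ * (p - 1))) ^ m := by
      rw [← pow_mul, ← pow_mul]
      congr 1
      ring
    rw [h3]
    have h4 := sub_dvd_pow_sub_pow (g ^ (p ^ τ * (p - 1))) 1 m
    rw [one_pow] at h4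
    exact h2.trans h4
  refine ⟨fun i => if (i : ℕ) < p - 1 then g ^ (i : ℕ) else 0, ⟨0, by omega⟩, ?_, ?_⟩
  · simp only [hp1, if_true, pow_zero]
    intro h1
    have := Int.natCast_dvd_natCast.mp (by simpa using h1 : ((p : ℕ) : ℤ) ∣ ((1 : ℕ) : ℤ))
    exact hp.one_lt.ne' (Nat.dvd_one.mp this)
  · have h1 : ∑ i : Fin d, (if (i : ℕ) < p - 1 then g ^ (i : ℕ) else 0) ^ k =
        ∑ i : Fin d, (if (i : ℕ) < p - 1 then (fun i => (g ^ k) ^ i) (i : ℕ) else 0) := by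
      apply sum_congr rfl
      intro i _
      split_ifs
      · simp only
        rw [← pow_mul, ← pow_mul, mul_comm]
      · exact zero_pow hk.ne'
    rw [h1, sum_fin_ite hd (fun i => (g ^ k) ^ i)]
    have h2 := geom_sum_mul (g ^ k) (p - 1)
    have hpZ : Prime (p : ℤ) := Nat.prime_iff_prime_int.mp hp
    have hcop : IsCoprime ((p : ℤ) ^ (τ + 1)) (g ^ k - 1) := by
      apply IsCoprime.pow_left
      exact (Prime.coprime_iff_not_dvd hpZ).mpr hg1
    apply hcop.dvd_of_dvd_mul_right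
    rw [h2]
    exact hpow

/-- the condition on the dimension -/
def Cond (k d : ℕ) : Prop :=
  k + 2 ≤ d ∧ (2 ∣ k → 2 ^ (padicValNat 2 k + 2) ≤ d) ∧
    ∀ p : ℕ, p.Prime → p - 1 ∣ k → p ^ (padicValNat p k + 1) ≤ d

lemma gam_le {p k : ℕ} (hp : p.Prime) (hk : 3 ≤ k) : gam p k ≤ k := by
  have hdvd : p ^ (tau p k) ∣ k := by unfold tau; exact pow_padicValNat_dvd
  have h1 := Nat.le_of_dvd (by omega) hdvd
  have h2 : tau p k < p ^ (tau p k) := Nat.lt_pow_self hp.one_lt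
  unfold gam m0
  split_ifs with h
  · obtain ⟨rfl, h2k⟩ := h
    have : Fact (Nat.Prime 2) := ⟨Nat.prime_two⟩
    have hτ : 1 ≤ tau 2 k := by
      unfold tau
      exact one_le_padicValNat_of_dvd (by omega) h2k
    rcases Nat.lt_or_ge (tau 2 k) 2 with h3 | h3
    · have : tau 2 k = 1 := by omega
      rw [this]
      obtain ⟨m, rfl⟩ := h2k
      omega
    · have h4 := Pool.Agent.TH854.KS.two_pow_ge _ h3
      omega
  · omega

lemma prim_zero {k d : ℕ} (hk : 3 ≤ k) (h : Cond k d) {p : ℕ} (hp : p.Prime) :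
    ∃ (z : Fin d → ℤ) (i0 : Fin d), ¬ (p : ℤ) ∣ z i0 ∧ (p : ℤ) ^ (gam p k) ∣ ∑ i, z i ^ k := by
  obtain ⟨hA, hB, hC⟩ := h
  by_cases hpk : p ∣ k
  · by_cases h2 : p = 2
    · subst h2
      have hg : gam 2 k = padicValNat 2 k + 2 := by
        unfold gam m0 tau
        rw [if_pos ⟨rfl, hpk⟩]
      rw [hg]
      exact ones Nat.prime_two (by omega) (hB hpk)
    · have hg : gam p k = padicValNat p k + 1 := by
        unfold gam m0 tau
        rw [if_neg (by tauto)]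
      rw [hg]
      by_cases hp1 : p - 1 ∣ k
      · exact ones hp (by omega) (hC p hp hp1)
      · apply rootsum hp (by omega) pow_padicValNat_dvd hp1
        have := Nat.le_of_dvd (by omega) hpk
        omega
  · have hg : gam p k = 1 := by
      unfold gam m0 tau
      rw [if_neg (by rintro ⟨rfl, h⟩; exact hpk h), padicValNat.eq_zero_of_not_dvd hpk]
    rw [hg, pow_one]
    exact cw hp (by omega) (by omega)

/-- primitive local solutions for sums of `d` `k`-th powers -/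
lemma prim_all {k d : ℕ} (hk : 3 ≤ k) (h : Cond k d) {n : ℤ} (y : Fin d → ℤ) (hy : ∑ i, y i ^ k = n)
    {p : ℕ} (hp : p.Prime) :
    ∃ (z : Fin d → ℤ) (i0 : Fin d), ¬ (p : ℤ) ∣ z i0 ∧ (p : ℤ) ^ (gam p k) ∣ ∑ i, z i ^ k - n := by
  by_cases hall : ∀ i, (p : ℤ) ∣ y i
  · have h1 : (p : ℤ) ^ (gam p k) ∣ n := by
      rw [← hy]
      apply dvd_sum
      intro i _
      exact (pow_dvd_pow _ (gam_le hp hk)).trans (pow_dvd_pow_of_dvd (hall i) k)
    obtain ⟨z, i0, h2, h3⟩ := prim_zero hk h hp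
    exact ⟨z, i0, h2, dvd_sub h3 h1⟩
  · push Not at hall
    obtain ⟨i0, hi0⟩ := hall
    exact ⟨y, i0, hi0, by rw [hy, sub_self]; exact dvd_zero _⟩

end Pool.Agent.V8H20.LD
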