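import Mathlib
import Pool.Agent.V8H20.LD.L9

/-! Failure of the uniform bounds below the threshold. -/

set_option autoImplicit false

open Finset

namespace Pool.Agent.V8H20.LD

lemma A_eq_M (k d N : ℕ) {n : ℤ} (h : (n : ZMod N) = 0) : A k d N n = Pool.Agent.TH854.KS.M N k d := by
  unfold A Pool.Agent.TH854.KS.M
  rw [h]

/-- the uniform bounds for the numbers `m ^ k` -/
def PowBounds (k d : ℕ) (c C : ℝ) : Prop :=
  ∀ m W : ℕ, 1 ≤ m → 1 ≤ W → c * (W : ℝ) ^ (d - 1) ≤ A k d W ((m : ℤ) ^ k) ∧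
    (A k d W ((m : ℤ) ^ k) : ℝ) ≤ C * (W : ℝ) ^ (d - 1)

theorem fail_small {k d : ℕ} (hk : 3 ≤ k) (hd1 : 1 ≤ d) {c C : ℝ} (h : PowBounds k d c C) :
    k + 2 ≤ d := by
  by_contra hcon
  rcases Nat.lt_or_ge d k with hlt | hge
  · obtain ⟨N0, hN0⟩ := exists_nat_gt C
    obtain ⟨p, hp1, hp⟩ := Nat.exists_infinite_primes (max N0 (k + 1))
    have hpN : N0 ≤ p := (le_max_left _ _).trans hp1
    have hpk : k + 1 ≤ p := (le_max_right _ _).trans hp1
    have : Fact p.Prime := ⟨hp⟩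
    have hpR : (0 : ℝ) < p := by exact_mod_cast hp.pos
    have h1 := (h p (p ^ k) hp.pos (Nat.one_le_pow _ _ hp.pos)).2
    rw [A_eq_M k d (p ^ k) (by
      have := ZMod.natCast_self (p ^ k)
      push_cast at this ⊢
      exact this)] at h1
    have hnd : ¬ p ∣ k := by
      intro hdvd
      have := Nat.le_of_dvd (by omega) hdvd
      omega
    have h2 := Pool.Agent.TH854.KS.M_pow_ge (p := p) (k := k) (d := d) (by omega) hnd
    have h3 : (((p : ℝ) ^ (k - 1)) ^ d) ≤ (Pool.Agent.TH854.KS.M (p ^ k) k d : ℝ) := by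
      have : (p ^ (k - 1)) ^ d ≤ Pool.Agent.TH854.KS.M (p ^ k) k d := by omega
      exact_mod_cast this
    have h4 : (p : ℝ) * (((p ^ k : ℕ) : ℝ)) ^ (d - 1) ≤ ((p : ℝ) ^ (k - 1)) ^ d := by
      push_cast
      rw [← pow_mul, ← pow_mul, ← pow_succ']
      apply pow_le_pow_right₀ (by exact_mod_cast hp.one_lt.le)
      obtain ⟨e, rfl⟩ : ∃ e, d = e + 1 := ⟨d - 1, by omega⟩
      obtain ⟨f, rfl⟩ : ∃ f, k = e + 1 + 1 + f := ⟨k - (e + 1 + 1), by omega⟩
      have e1 : e + 1 + 1 + f - 1 = e + 1 + f := by omega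
      rw [e1, Nat.add_sub_cancel]
      nlinarith
    have h5 : 0 < (((p ^ k : ℕ) : ℝ)) ^ (d - 1) := by
      push_cast
      positivity
    have h6 := h4.trans (h3.trans h1)
    have h7 := le_of_mul_le_mul_right h6 h5
    have h8 : (N0 : ℝ) ≤ p := by exact_mod_cast hpN
    linarith
  · have hd : d = k ∨ d = k + 1 := by omega
    obtain ⟨N0, hN0⟩ := exists_nat_ge ((2 * ((k : ℝ) ^ (k + 1) + 1)) ^ 2)
    obtain ⟨P, hP, hB⟩ := Pool.Agent.TH854.KS.exists_primes N0 (|C| + 1)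
    set w := ∏ p ∈ P, p with hw
    have hwpos : 0 < w := by
      rw [hw]
      exact prod_pos (fun p hp => (hP p hp).1.pos)
    have hwk : w ^ k = ∏ p ∈ P, p ^ k := by rw [hw, prod_pow]
    have h1 := (h w (w ^ k) hwpos (Nat.one_le_pow _ _ hwpos)).2
    rw [A_eq_M k d (w ^ k) (by
      have := ZMod.natCast_self (w ^ k)
      push_cast at this ⊢
      exact this)] at h1
    have h2 : (Pool.Agent.TH854.KS.M (w ^ k) k d : ℝ) = ∏ p ∈ P, (Pool.Agent.TH854.KS.M (p ^ k) k d : ℝ) := by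
      rw [hwk, Pool.Agent.TH854.KS.M_prod P (fun p hp => (hP p hp).1)]
      push_cast
      rfl
    have h3 : (∏ p ∈ P, (1 + 1 / (2 * (p : ℝ)))) * (((w ^ k : ℕ) : ℝ)) ^ (d - 1) ≤
        (Pool.Agent.TH854.KS.M (w ^ k) k d : ℝ) := by
      rw [h2, hwk]
      push_cast
      rw [← prod_pow, ← prod_mul_distrib]
      apply prod_le_prod
      · intro p _; positivity
      · intro p hp
        have : Fact p.Prime := ⟨(hP p hp).1⟩
        have h4 := Pool.Agent.TH854.KS.density (p := p) hk hd (hN0.trans (by exact_mod_cast (hP p hp).2))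
        rw [pow_mul] at h4
        exact h4
    have hW1 : (0 : ℝ) < (((w ^ k : ℕ) : ℝ)) ^ (d - 1) := by
      have : (0 : ℝ) < ((w ^ k : ℕ) : ℝ) := by exact_mod_cast pow_pos hwpos k
      positivity
    have h5 := le_of_mul_le_mul_right (h3.trans h1) hW1
    have h6 := le_abs_self C
    linarith

/-- decay at a prime with an obstruction -/
theorem fail_obs {k d p γ : ℕ} (hk : 3 ≤ k) (hd : k + 2 ≤ d) (hp : p.Prime) (hγk : γ ≤ k)
    (h0 : ∀ y : ℕ, p ∣ y → p ^ γ ∣ y ^ k)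
    (h1 : ∀ y : ℕ, ¬ p ∣ y → ((p ^ γ : ℕ) : ℤ) ∣ (y : ℤ) ^ k - 1) {c C : ℝ} (hc : 0 < c)
    (h : PowBounds k d c C) : p ^ γ ≤ d := by
  classical
  by_contra hcon
  have hobs : ∀ y : Fin d → ℕ, p ^ γ ∣ ∑ i, y i ^ k → ∀ i, p ∣ y i := by
    intro y hy i
    by_contra hi
    exact hcon (Pool.Agent.TH854.KS.obstruct h0 h1 y hy ⟨i, hi⟩)
  have hppos := hp.pos
  have hrec : ∀ j, k < j → A k d (p ^ j) 0 ≤ (p ^ (k - 1)) ^ d * A k d (p ^ (j - k)) 0 := by
    intro j hj
    have : NeZero (p ^ j) := ⟨pow_ne_zero _ hp.ne_zero⟩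
    have : NeZero (p ^ (j - k)) := ⟨pow_ne_zero _ hp.ne_zero⟩
    have h2 := nonprim_eq (d := d) hp (by omega : 0 < k) hj 0
    rw [mul_zero] at h2
    refine le_trans (le_of_eq ?_) h2
    rw [A_eq]
    congr 1
    symm
    rw [filter_eq_self]
    intro x hx i
    rw [mem_S, sub_zero] at hx
    have h3 : p ^ γ ∣ ∑ i, (x i).val ^ k := by
      have h4 : p ^ j ∣ ∑ i, (x i).val ^ k := by exact_mod_cast hx
      exact (pow_dvd_pow _ (by omega)).trans h4
    have h5 := hobs (fun i => (x i).val) h3 i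
    exact_mod_cast h5
  have hup : ∀ m : ℕ, A k d (p ^ (m * k + 1)) 0 ≤ ((p ^ (k - 1)) ^ d) ^ m * p ^ d := by
    intro m
    induction m with
    | zero =>
      rw [zero_mul, zero_add, pow_zero, one_mul, pow_one]
      have : NeZero p := ⟨hp.ne_zero⟩
      rw [A_eq]
      refine (card_le_univ _).trans (le_of_eq ?_)
      rw [Fintype.card_fun, ZMod.card, Fintype.card_fin]
    | succ m ih =>
      have h2 := hrec ((m + 1) * k + 1) (by nlinarith)
      have e : (m + 1) * k + 1 - k = m * k + 1 := by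
        have : (m + 1) * k = m * k + k := by ring
        omega
      rw [e] at h2
      calc A k d (p ^ ((m + 1) * k + 1)) 0 ≤ (p ^ (k - 1)) ^ d * A k d (p ^ (m * k + 1)) 0 := h2
        _ ≤ (p ^ (k - 1)) ^ d * (((p ^ (k - 1)) ^ d) ^ m * p ^ d) := Nat.mul_le_mul_left _ ih
        _ = _ := by rw [pow_succ]; ring
  have hpR : (1 : ℝ) ≤ p := by exact_mod_cast hp.one_lt.le
  have hpR0 : (0 : ℝ) < p := by linarith
  have hkey : ∀ m : ℕ, c * (p : ℝ) ^ m ≤ p := by
    intro m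
    have h2 := (h (p ^ (m + 1)) (p ^ (m * k + 1)) (Nat.one_le_pow _ _ hppos) (Nat.one_le_pow _ _ hppos)).1
    have h3 : A k d (p ^ (m * k + 1)) ((((p ^ (m + 1) : ℕ)) : ℤ) ^ k) = A k d (p ^ (m * k + 1)) 0 := by
      unfold A
      have h4 : (((((p ^ (m + 1) : ℕ)) : ℤ) ^ k : ℤ) : ZMod (p ^ (m * k + 1))) = 0 := by
        rw [ZMod.intCast_zmod_eq_zero_iff_dvd, natcast_pow, natcast_pow, ← pow_mul]
        apply pow_dvd_pow
        nlinarith
      rw [h4, Int.cast_zero]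
    rw [h3] at h2
    have h5 : (A k d (p ^ (m * k + 1)) 0 : ℝ) ≤ (((p : ℝ) ^ (k - 1)) ^ d) ^ m * (p : ℝ) ^ d := by
      exact_mod_cast hup m
    have h6 : ((((p ^ (m * k + 1) : ℕ)) : ℝ)) ^ (d - 1) * p =
        (((p : ℝ) ^ (k - 1)) ^ d) ^ m * (p : ℝ) ^ d * (p : ℝ) ^ (m * (d - k)) := by
      push_cast
      rw [← pow_mul, ← pow_mul, ← pow_mul, ← pow_add, ← pow_add, ← pow_succ]
      congr 1
      obtain ⟨e, rfl⟩ : ∃ e, d = k + 2 + e := ⟨d - (k + 2), by omega⟩
      obtain ⟨f, rfl⟩ : ∃ f, k = f + 1 := ⟨k - 1, by omega⟩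
      have e1 : f + 1 + 2 + e - 1 = f + 2 + e := by omega
      have e2 : f + 1 + 2 + e - (f + 1) = 2 + e := by omega
      rw [e1, e2, Nat.add_sub_cancel]
      ring
    have h7 : (p : ℝ) ^ m ≤ (p : ℝ) ^ (m * (d - k)) := by
      apply pow_le_pow_right₀ hpR
      have : 1 ≤ d - k := by omega
      nlinarith
    set X := (((p : ℝ) ^ (k - 1)) ^ d) ^ m * (p : ℝ) ^ d with hX
    have hXpos : 0 < X := by positivity
    have h8 : c * (X * (p : ℝ) ^ (m * (d - k))) ≤ X * p := by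
      rw [← h6]
      have := mul_le_mul_of_nonneg_right (h2.trans h5) hpR0.le
      calc c * (((((p ^ (m * k + 1) : ℕ)) : ℝ)) ^ (d - 1) * p) =
          (c * ((((p ^ (m * k + 1) : ℕ)) : ℝ)) ^ (d - 1)) * p := by ring
        _ ≤ _ := this
    have h9 : X * (c * (p : ℝ) ^ (m * (d - k))) ≤ X * p := by
      calc X * (c * (p : ℝ) ^ (m * (d - k))) = c * (X * (p : ℝ) ^ (m * (d - k))) := by ring
        _ ≤ _ := h8
    have h10 := le_of_mul_le_mul_left h9 hXpos
    exact (mul_le_mul_of_nonneg_left h7 hc.le).trans h10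
  have hp2 : (1 : ℝ) < p := by exact_mod_cast hp.one_lt
  obtain ⟨m, hm⟩ := pow_unbounded_of_one_lt ((p : ℝ) / c) hp2
  have h2 := hkey m
  rw [div_lt_iff₀ hc] at hm
  linarith

theorem fail_cond {k d : ℕ} (hk : 3 ≤ k) (hd1 : 1 ≤ d) {c C : ℝ} (hc : 0 < c)
    (h : PowBounds k d c C) : Cond k d := by
  have hd := fail_small hk hd1 h
  refine ⟨hd, ?_, ?_⟩
  · intro h2k
    set τ := padicValNat 2 k with hτ
    have : Fact (Nat.Prime 2) := ⟨Nat.prime_two⟩
    have hτ1 : 1 ≤ τ := one_le_padicValNat_of_dvd (by omega) h2k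
    have hdvd : 2 ^ τ ∣ k := pow_padicValNat_dvd
    have hg := gam_le (p := 2) Nat.prime_two hk
    have hg2 : gam 2 k = τ + 2 := by
      unfold gam m0 tau
      rw [if_pos ⟨rfl, h2k⟩]
    rw [hg2] at hg
    apply fail_obs hk hd Nat.prime_two hg _ _ hc h
    · intro z hz
      exact (pow_dvd_pow 2 hg).trans (pow_dvd_pow_of_dvd hz k)
    · intro z hz
      obtain ⟨m, hm⟩ := hdvd
      have h1 := Pool.Agent.TH854.KS.odd_pow_two z hz τ hτ1
      rw [hm]
      push_cast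
      rw [pow_mul]
      refine h1.trans ?_
      have := sub_dvd_pow_sub_pow ((z : ℤ) ^ (2 ^ τ)) 1 m
      rwa [one_pow] at this
  · intro p hp hp1
    set τ := padicValNat p k with hτ
    have hdvd0 : p ^ τ ∣ k := pow_padicValNat_dvd
    have hdvd : (p - 1) * p ^ τ ∣ k := by
      apply Nat.Coprime.mul_dvd_of_dvd_of_dvd _ hp1 hdvd0
      apply Nat.Coprime.pow_right
      have h1 : Nat.Coprime p (p - 1) := by
        rw [Nat.Prime.coprime_iff_not_dvd hp]
        intro h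
        have := hp.two_le
        have := Nat.le_of_dvd (by omega) h
        omega
      exact h1.symm
    have hg := gam_le hp hk
    have hg2 : τ + 1 ≤ k := by
      unfold gam tau at hg
      have := m0_pos p k
      omega
    apply fail_obs hk hd hp hg2 _ _ hc h
    · intro z hz
      exact (pow_dvd_pow p hg2).trans (pow_dvd_pow_of_dvd hz k)
    · intro z hz
      obtain ⟨m, hm⟩ := hdvd
      have hcop : Nat.Coprime z (p ^ (τ + 1)) := by
        apply Nat.Coprime.pow_right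
        exact ((Nat.Prime.coprime_iff_not_dvd hp).mpr hz).symm
      have h1 := Nat.ModEq.pow_totient hcop
      rw [Nat.totient_prime_pow_succ hp, mul_comm (p ^ τ)] at h1
      have h2 := (Nat.modEq_iff_dvd.mp h1.symm)
      push_cast at h2
      rw [hm]
      push_cast
      rw [pow_mul]
      refine h2.trans ?_
      have := sub_dvd_pow_sub_pow ((z : ℤ) ^ ((p - 1) * p ^ τ)) 1 m
      rwa [one_pow] at this

end Pool.Agent.V8H20.LD
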