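import Mathlib
import Pool.Agent.V8H20.LD.L10

/-! Counting lattice points in boxes and in balls with a congruence condition. -/

set_option autoImplicit false

open Finset

namespace Pool.Agent.V8H20.LD

open Pool.Agent.TH854.KS (Rep Rep_finite Box mem_Box sphere sphere_finite Rep_le_sphere)

/-- the vectors of a box with a congruence condition -/
lemma box_card {W k d L : ℕ} (hW : 0 < W) (a : ℕ) :
    ((Box d (W * L)).filter (fun y => ∑ i, y i ^ k ≡ a [MOD W])).card = L ^ d * A k d W a := by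
  classical
  have : NeZero W := ⟨hW.ne'⟩
  rw [A_eq]
  have hL : L ^ d = (univ : Finset (Fin d → Fin L)).card := by
    rw [card_univ, Fintype.card_fun, Fintype.card_fin, Fintype.card_fin]
  rw [hL, ← card_product]
  symm
  apply card_bij (fun q _ i => (q.2 i).val + W * (q.1 i : ℕ))
  · intro q hq
    rw [mem_product, mem_S] at hq
    rw [mem_filter, mem_Box]
    refine ⟨fun i => ?_, ?_⟩
    · have h1 := ZMod.val_lt (q.2 i)
      have h2 : ((q.1 i : ℕ)) + 1 ≤ L := (q.1 i).2
      calc (q.2 i).val + W * (q.1 i : ℕ) < W + W * (q.1 i : ℕ) := by omega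
        _ = W * ((q.1 i : ℕ) + 1) := by ring
        _ ≤ W * L := Nat.mul_le_mul_left _ h2
    · have h3 : ∑ i, ((q.2 i).val + W * (q.1 i : ℕ)) ^ k ≡ ∑ i, (q.2 i).val ^ k [MOD W] := by
        rw [← ZMod.natCast_eq_natCast_iff]
        push_cast
        apply sum_congr rfl
        intro i _
        rw [ZMod.natCast_self, zero_mul, add_zero]
      refine h3.trans ?_
      rw [Nat.modEq_iff_dvd]
      have h4 := hq.2
      have h5 := (dvd_neg).mpr h4
      push_cast at h5 ⊢
      simpa using h5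
  · intro q _ q' _ h
    have key : ∀ i, (q.2 i).val = (q'.2 i).val ∧ (q.1 i : ℕ) = (q'.1 i : ℕ) := by
      intro i
      have h1 : (q.2 i).val + W * (q.1 i : ℕ) = (q'.2 i).val + W * (q'.1 i : ℕ) := congrFun h i
      have h2 := ZMod.val_lt (q.2 i)
      have h3 := ZMod.val_lt (q'.2 i)
      have h4 := congrArg (fun z => z % W) h1
      simp only [Nat.add_mul_mod_self_left, Nat.mod_eq_of_lt h2, Nat.mod_eq_of_lt h3] at h4
      refine ⟨h4, ?_⟩
      rw [h4] at h1
      exact Nat.eq_of_mul_eq_mul_left hW (by omega)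
    apply Prod.ext
    · funext i
      exact Fin.ext (key i).2
    · funext i
      exact ZMod.val_injective W (key i).1
  · intro y hy
    rw [mem_filter, mem_Box] at hy
    have hlt : ∀ i, y i / W < L := by
      intro i
      rw [Nat.div_lt_iff_lt_mul hW, mul_comm]
      exact hy.1 i
    refine ⟨(fun i => ⟨y i / W, hlt i⟩, fun i => (((y i : ℕ) : ℤ) : ZMod W)), ?_, ?_⟩
    · rw [mem_product]
      refine ⟨mem_univ _, ?_⟩
      apply cast_mem_S
      have h1 := (Nat.modEq_iff_dvd.mp hy.2.symm)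
      push_cast at h1
      exact h1
    · funext i
      simp only [Int.cast_natCast, ZMod.val_natCast]
      exact Nat.mod_add_div (y i) W

/-- `{y : Σ y_i^k = n}` as a finset -/
lemma rep_eq_card {k d n X : ℕ} (hX : n < X ^ k) :
    (Rep k d n).ncard = ((Box d X).filter (fun y => ∑ i, y i ^ k = n)).card := by
  classical
  rw [← Set.ncard_coe_finset]
  congr 1
  ext y
  rw [mem_coe, mem_filter, mem_Box]
  constructor
  · intro hy
    have hy' : ∑ i, y i ^ k = n := hy
    refine ⟨fun i => ?_, hy'⟩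
    have h1 : y i ^ k ≤ n := by
      rw [← hy']
      exact single_le_sum (f := fun i => y i ^ k) (fun _ _ => Nat.zero_le _) (mem_univ i)
    exact lt_of_pow_lt_pow_left₀ k (Nat.zero_le _) (h1.trans_lt hX)
  · intro hy
    exact hy.2

/-- the numbers `1 ≤ n ≤ x` in a residue class -/
def I (W a x : ℕ) : Finset ℕ := (Icc 1 x).filter (fun n => n ≡ a [MOD W])

lemma sum_rep {k d W a x X : ℕ} (hX : x < X ^ k) :
    ∑ n ∈ I W a x, (Rep k d n).ncard =
      ((Box d X).filter (fun y => 1 ≤ ∑ i, y i ^ k ∧ ∑ i, y i ^ k ≤ x ∧ ∑ i, y i ^ k ≡ a [MOD W])).card := by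
  classical
  have hmaps : ∀ y ∈ (Box d X).filter (fun y => 1 ≤ ∑ i, y i ^ k ∧ ∑ i, y i ^ k ≤ x ∧ ∑ i, y i ^ k ≡ a [MOD W]),
      ∑ i, y i ^ k ∈ I W a x := by
    intro y hy
    rw [mem_filter] at hy
    unfold I
    rw [mem_filter, mem_Icc]
    exact ⟨⟨hy.2.1, hy.2.2.1⟩, hy.2.2.2⟩
  rw [card_eq_sum_card_fiberwise hmaps]
  apply sum_congr rfl
  intro n hn
  unfold I at hn
  rw [mem_filter, mem_Icc] at hn
  rw [rep_eq_card (hn.1.2.trans_lt hX)]
  congr 1
  ext y
  rw [mem_filter, mem_filter, mem_filter]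
  constructor
  · rintro ⟨h1, h2⟩
    refine ⟨⟨h1, ?_⟩, h2⟩
    rw [h2]
    exact ⟨hn.1.1, hn.1.2, hn.2⟩
  · rintro ⟨⟨h1, _⟩, h2⟩
    exact ⟨h1, h2⟩

/-- upper bound -/
lemma sum_rep_le {k d W a x L : ℕ} (hW : 0 < W) (hX : x < (W * L) ^ k) :
    ∑ n ∈ I W a x, (Rep k d n).ncard ≤ L ^ d * A k d W a := by
  classical
  rw [sum_rep hX, ← box_card hW a]
  apply card_le_card
  intro y hy
  rw [mem_filter] at hy ⊢
  exact ⟨hy.1, hy.2.2.2⟩

/-- lower bound -/
lemma le_sum_rep {k d W a x L : ℕ} (hk : 0 < k) (hW : 0 < W) (hX : d * (W * L) ^ k ≤ x) :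
    L ^ d * A k d W a ≤ ∑ n ∈ I W a x, (Rep k d n).ncard + 1 := by
  classical
  have hX' : x < (max (x + 1) (W * L)) ^ k := by
    calc x < x + 1 := Nat.lt_succ_self x
      _ ≤ (x + 1) ^ k := Nat.le_self_pow hk.ne' _
      _ ≤ _ := Nat.pow_le_pow_left (le_max_left _ _) k
  rw [sum_rep hX', ← box_card hW a]
  have hsub : (Box d (W * L)).filter (fun y => ∑ i, y i ^ k ≡ a [MOD W]) ⊆
      ((Box d (max (x + 1) (W * L))).filter
        (fun y => 1 ≤ ∑ i, y i ^ k ∧ ∑ i, y i ^ k ≤ x ∧ ∑ i, y i ^ k ≡ a [MOD W])) ∪ {0} := by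
    intro y hy
    rw [mem_filter, mem_Box] at hy
    rw [mem_union, mem_filter, mem_Box, mem_singleton]
    by_cases h0 : y = 0
    · right; exact h0
    · left
      refine ⟨fun i => (hy.1 i).trans_le (le_max_right _ _), ?_, ?_, hy.2⟩
      · obtain ⟨i, hi⟩ := Function.ne_iff.mp h0
        have h1 : 1 ≤ y i ^ k := Nat.one_le_pow _ _ (Nat.pos_of_ne_zero hi)
        exact h1.trans (single_le_sum (f := fun i => y i ^ k) (fun _ _ => Nat.zero_le _) (mem_univ i))
      · calc ∑ i, y i ^ k ≤ ∑ _i : Fin d, (W * L) ^ k := sum_le_sum (fun i _ => Nat.pow_le_pow_left (hy.1 i).le k)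
          _ = d * (W * L) ^ k := by rw [sum_const, card_univ, Fintype.card_fin, smul_eq_mul]
          _ ≤ x := hX
  refine (card_le_card hsub).trans ((card_union_le _ _).trans ?_)
  rw [card_singleton]

/-- the sphere has at most `2 ^ d` times as many points as non-negative points -/
lemma sphere_le_rep {k d n : ℕ} (hk : 0 < k) {r : ℝ} (hrn : r ^ k = n) :
    (sphere k d r).ncard ≤ 2 ^ d * (Rep k d n).ncard := by
  classical
  have h2 : ((Set.univ : Set (Fin d → Bool)) ×ˢ (Rep k d n)).ncard = 2 ^ d * (Rep k d n).ncard := by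
    rw [Set.ncard_prod, Set.ncard_univ, Nat.card_eq_fintype_card, Fintype.card_fun, Fintype.card_bool,
      Fintype.card_fin]
  rw [← h2]
  have hfin : ((Set.univ : Set (Fin d → Bool)) ×ˢ (Rep k d n)).Finite :=
    Set.Finite.prod Set.finite_univ (Rep_finite hk d n)
  apply Set.ncard_le_ncard_of_injOn (fun m => ((fun i => decide (0 ≤ m i)), (fun i => (m i).natAbs))) _ _ hfin
  · intro m hm
    rw [Set.mem_prod]
    refine ⟨Set.mem_univ _, ?_⟩
    have hm' : ∑ i, |(m i : ℝ)| ^ k = r ^ k := hm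
    show ∑ i, (m i).natAbs ^ k = n
    have h : ∀ i, |(m i : ℝ)| = (((m i).natAbs : ℕ) : ℝ) := by
      intro i
      rw [Nat.cast_natAbs, Int.cast_abs]
    simp_rw [h] at hm'
    rw [hrn] at hm'
    exact_mod_cast hm'
  · intro m _ m' _ h
    simp only [Prod.mk.injEq] at h
    funext i
    have h1 := congrFun h.1 i
    have h3 : (m i).natAbs = (m' i).natAbs := congrFun h.2 i
    have h4 : (0 ≤ m i) ↔ (0 ≤ m' i) := by simpa using h1
    by_cases h5 : 0 ≤ m i
    · have := h4.mp h5; omega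
    · have : ¬ 0 ≤ m' i := fun h => h5 (h4.mpr h)
      omega

end Pool.Agent.V8H20.LD
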