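import Mathlib
import Pool.Agent.V8H20.LD.L11

/-! Mean values over residue classes. -/

set_option autoImplicit false

open Finset

namespace Pool.Agent.V8H20.LD

open Pool.Agent.TH854.KS (Rep Rep_finite Box mem_Box sphere sphere_finite Rep_le_sphere)

lemma card_I {W : ℕ} (hW : 1 ≤ W) (a x : ℕ) (hx : 2 * W ≤ x) :
    (x : ℝ) / (2 * W) ≤ ((I W a x).card : ℝ) ∧ ((I W a x).card : ℝ) ≤ 2 * x / W := by
  have h : (I W a x).card = max (⌊((x : ℚ) - a) / W⌋ - ⌊(((0 : ℕ) : ℚ) - a) / W⌋) 0 := by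
    have h1 := Nat.Ioc_filter_modEq_card 0 x (r := W) (by omega) a
    rw [← h1]
    unfold I
    congr 2
  have hWQ : (0 : ℚ) < W := by exact_mod_cast hW
  have hWR : (0 : ℝ) < W := by exact_mod_cast hW
  have e : ((x : ℚ) - a) / W = (((0 : ℕ) : ℚ) - a) / W + x / W := by
    rw [← add_div]
    congr 1
    push_cast
    ring
  have h2 := Int.floor_le (((x : ℚ) - a) / W)
  have h3 := Int.lt_floor_add_one (((x : ℚ) - a) / W)
  have h4 := Int.floor_le ((((0 : ℕ) : ℚ) - a) / W)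
  have h5 := Int.lt_floor_add_one ((((0 : ℕ) : ℚ) - a) / W)
  have h6 : (2 : ℚ) ≤ x / W := by
    rw [le_div_iff₀ hWQ]
    exact_mod_cast hx
  have h7 : (((I W a x).card : ℤ) : ℚ) ≤ x / W + 1 ∧ x / W - 1 ≤ (((I W a x).card : ℤ) : ℚ) := by
    rw [h]
    push_cast
    constructor
    · apply max_le
      · linarith
      · linarith
    · refine le_trans ?_ (le_max_left _ _)
      linarith
  have h8 : ((I W a x).card : ℚ) ≤ x / W + 1 ∧ x / W - 1 ≤ ((I W a x).card : ℚ) := by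
    exact_mod_cast h7
  have h9 : ((I W a x).card : ℝ) ≤ x / W + 1 ∧ (x : ℝ) / W - 1 ≤ ((I W a x).card : ℝ) := by
    have h10 : (((I W a x).card : ℚ) : ℝ) ≤ ((x / W + 1 : ℚ) : ℝ) := by exact_mod_cast h8.1
    have h11 : ((x / W - 1 : ℚ) : ℝ) ≤ (((I W a x).card : ℚ) : ℝ) := by exact_mod_cast h8.2
    push_cast at h10 h11
    exact ⟨h10, h11⟩
  have h12 : (2 : ℝ) ≤ x / W := by
    rw [le_div_iff₀ hWR]
    exact_mod_cast hx
  constructor
  · have : (x : ℝ) / (2 * W) = (x / W) / 2 := by field_simp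
    rw [this]
    linarith [h9.2]
  · have : (2 : ℝ) * x / W = 2 * (x / W) := by ring
    rw [this]
    linarith [h9.1]

/-- the sum of the numbers of lattice points on the spheres in a residue class -/
noncomputable def total (k d W a x : ℕ) : ℝ :=
  ∑ n ∈ I W a x, ((sphere k d ((n : ℝ) ^ (1 / (k : ℝ)))).ncard : ℝ)

lemma root_pow {k : ℕ} (hk : 0 < k) (n : ℕ) : ((n : ℝ) ^ (1 / (k : ℝ))) ^ k = n := by
  have hk0 : (k : ℝ) ≠ 0 := by exact_mod_cast hk.ne'
  rw [← Real.rpow_natCast, ← Real.rpow_mul (by positivity), one_div_mul_cancel hk0, Real.rpow_one]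

lemma total_bounds {k : ℕ} (hk : 0 < k) (d W a x : ℕ) :
    ((∑ n ∈ I W a x, (Rep k d n).ncard : ℕ) : ℝ) ≤ total k d W a x ∧
      total k d W a x ≤ 2 ^ d * ((∑ n ∈ I W a x, (Rep k d n).ncard : ℕ) : ℝ) := by
  unfold total
  push_cast
  constructor
  · apply sum_le_sum
    intro n hn
    unfold I at hn
    rw [mem_filter, mem_Icc] at hn
    have hn0 : (0 : ℝ) < n := by exact_mod_cast hn.1.1
    have := Rep_le_sphere (d := d) hk (r := (n : ℝ) ^ (1 / (k : ℝ))) (by positivity) (root_pow hk n)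
    exact_mod_cast this
  · rw [mul_sum]
    apply sum_le_sum
    intro n _
    have := sphere_le_rep (d := d) hk (root_pow hk n)
    exact_mod_cast this

/-- two-sided bounds for the sum, `q = x^(1/k)` -/
lemma total_le {k d W a x : ℕ} (hk : 0 < k) (hW : 1 ≤ W) (q : ℝ) (hq : q ^ k = x) (hqW : (W : ℝ) ≤ q) :
    total k d W a x ≤ 4 ^ d * (q / W) ^ d * A k d W a := by
  have hWR : (0 : ℝ) < W := by exact_mod_cast hW
  have hq0 : 0 < q := by linarith
  set L := ⌊q / W⌋₊ + 1 with hL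
  have h1 : q < W * L := by
    have := Nat.lt_floor_add_one (q / W)
    rw [div_lt_iff₀ hWR] at this
    rw [hL]
    push_cast
    linarith
  have h2 : x < (W * L) ^ k := by
    have h3 : (x : ℝ) < (W * L) ^ k := by
      rw [← hq]
      exact pow_lt_pow_left₀ h1 hq0.le hk.ne'
    exact_mod_cast h3
  have h4 := sum_rep_le (d := d) (W := W) (a := a) (L := L) (k := k) (x := x) (by omega) h2
  have h5 : (L : ℝ) ≤ 2 * (q / W) := by
    have h6 := Nat.floor_le (div_nonneg hq0.le hWR.le : 0 ≤ q / W)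
    have h7 : 1 ≤ q / W := by rw [le_div_iff₀ hWR]; linarith
    rw [hL]
    push_cast
    linarith
  have h8 : ((∑ n ∈ I W a x, (Rep k d n).ncard : ℕ) : ℝ) ≤ (2 * (q / W)) ^ d * A k d W a := by
    refine (Nat.cast_le.mpr h4).trans ?_
    push_cast
    apply mul_le_mul_of_nonneg_right _ (Nat.cast_nonneg _)
    exact pow_le_pow_left₀ (Nat.cast_nonneg _) h5 d
  calc total k d W a x ≤ 2 ^ d * ((∑ n ∈ I W a x, (Rep k d n).ncard : ℕ) : ℝ) := (total_bounds hk d W a x).2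
    _ ≤ 2 ^ d * ((2 * (q / W)) ^ d * A k d W a) := mul_le_mul_of_nonneg_left h8 (by positivity)
    _ = _ := by
        rw [mul_pow, ← mul_assoc, ← mul_assoc, ← mul_pow]
        norm_num

lemma le_total {k d W a x : ℕ} (hk : 0 < k) (hd : 1 ≤ d) (hW : 1 ≤ W) (q : ℝ) (hq : q ^ k = x)
    (hqW : 4 * (d : ℝ) * W ≤ q) (hA : 1 ≤ A k d W a) :
    (1 / 2) * (1 / (2 * d)) ^ d * (q / W) ^ d * A k d W a ≤ total k d W a x := by
  have hWR : (0 : ℝ) < W := by exact_mod_cast hW
  have hdR : (1 : ℝ) ≤ d := by exact_mod_cast hd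
  have hq0 : 0 < q := by nlinarith
  set L := ⌊q / (d * W)⌋₊ with hL
  have hdW : (0 : ℝ) < d * W := by positivity
  have hfl : (L : ℝ) ≤ q / (d * W) := Nat.floor_le (by positivity)
  have h4' : 4 ≤ q / (d * W) := by
    rw [le_div_iff₀ hdW]
    linarith
  have h1 : (d : ℝ) * ((W : ℝ) * L) ≤ q := by
    rw [le_div_iff₀ hdW] at hfl
    linarith
  have h2 : d * (W * L) ^ k ≤ x := by
    have h3 : (d : ℝ) * ((W : ℝ) * L) ^ k ≤ x := by
      rw [← hq]
      calc (d : ℝ) * ((W : ℝ) * L) ^ k ≤ (d : ℝ) ^ k * ((W : ℝ) * L) ^ k := by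
            apply mul_le_mul_of_nonneg_right _ (by positivity)
            calc (d : ℝ) = d ^ 1 := (pow_one _).symm
              _ ≤ _ := pow_le_pow_right₀ hdR hk
        _ = ((d : ℝ) * ((W : ℝ) * L)) ^ k := (mul_pow _ _ _).symm
        _ ≤ q ^ k := pow_le_pow_left₀ (by positivity) h1 k
    exact_mod_cast h3
  have h4 := le_sum_rep (d := d) (W := W) (a := a) (L := L) hk (by omega) h2
  have h5 : (1 / (2 * d)) * (q / W) ≤ (L : ℝ) := by
    have h6 := Nat.lt_floor_add_one (q / (d * W))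
    have h7 : (1 / (2 * (d : ℝ))) * (q / W) = (q / (d * W)) / 2 := by field_simp
    rw [h7]
    rw [← hL] at h6
    linarith
  have h6 : (2 : ℝ) ≤ (1 / (2 * d)) * (q / W) := by
    have h7 : (1 / (2 * (d : ℝ))) * (q / W) = (q / (d * W)) / 2 := by field_simp
    rw [h7]
    linarith
  have hAR : (1 : ℝ) ≤ A k d W a := by exact_mod_cast hA
  set Y := ((1 / (2 * (d : ℝ))) * (q / W)) ^ d with hY
  have hY2 : 2 ≤ Y := by
    calc (2 : ℝ) ≤ (1 / (2 * d)) * (q / W) := h6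
      _ = ((1 / (2 * d)) * (q / W)) ^ 1 := (pow_one _).symm
      _ ≤ _ := pow_le_pow_right₀ (by linarith) hd
  have h8 : Y * A k d W a ≤ ((∑ n ∈ I W a x, (Rep k d n).ncard : ℕ) : ℝ) + 1 := by
    have h9 : ((L ^ d * A k d W a : ℕ) : ℝ) ≤ ((∑ n ∈ I W a x, (Rep k d n).ncard : ℕ) : ℝ) + 1 := by
      exact_mod_cast h4
    refine le_trans ?_ h9
    push_cast
    apply mul_le_mul_of_nonneg_right _ (Nat.cast_nonneg _)
    exact pow_le_pow_left₀ (by linarith) h5 d
  have h9 := (total_bounds hk d W a x).1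
  have h10 : (1 / 2) * (Y * A k d W a) ≤ Y * A k d W a - 1 := by nlinarith
  calc (1 / 2) * (1 / (2 * d)) ^ d * (q / W) ^ d * A k d W a = (1 / 2) * (Y * A k d W a) := by
        rw [hY, mul_pow]; ring
    _ ≤ Y * A k d W a - 1 := h10
    _ ≤ _ := by linarith

end Pool.Agent.V8H20.LD
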