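import Mathlib
import Pool.Agent.V8H20.LD.L12

/-! The exact dimension threshold for the mean values. -/

set_option autoImplicit false

open Finset

namespace Pool.Agent.V8H20.LD

open Pool.Agent.TH854.KS (Rep Rep_finite Box mem_Box sphere sphere_finite Rep_le_sphere sphere_natAbs
  axis_mem)

/-- a radius for every large `r` -/
lemma root_near {k : ℕ} (hk : 0 < k) {r : ℝ} (hr : 2 ≤ r) :
    ∃ q : ℝ, q ^ k = (⌊r ^ k⌋₊ : ℕ) ∧ r / 2 ≤ q ∧ q ≤ r := by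
  set x := ⌊r ^ k⌋₊ with hx
  have hr0 : 0 < r := by linarith
  have hrk : 1 ≤ r ^ k := one_le_pow₀ (by linarith)
  refine ⟨(x : ℝ) ^ (1 / (k : ℝ)), root_pow hk x, ?_, ?_⟩
  · apply le_of_pow_le_pow_left₀ hk.ne' (by positivity)
    rw [root_pow hk x]
    have h1 := Nat.lt_floor_add_one (r ^ k)
    rw [← hx] at h1
    have h2 : (1 : ℝ) ≤ x := by
      have : 1 ≤ x := by rw [hx]; exact Nat.le_floor (by exact_mod_cast hrk)
      exact_mod_cast this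
    have h3 : (r / 2) ^ k ≤ r ^ k / 2 := by
      rw [div_pow]
      apply div_le_div_of_nonneg_left (by positivity) (by norm_num)
      calc (2 : ℝ) = 2 ^ 1 := (pow_one _).symm
        _ ≤ 2 ^ k := pow_le_pow_right₀ (by norm_num) hk
    linarith
  · apply le_of_pow_le_pow_left₀ hk.ne' hr0.le
    rw [root_pow hk x]
    exact Nat.floor_le (by positivity)

/-- all estimates together -/
lemma mean_bounds {k d W a : ℕ} (hk : 0 < k) (hd : 1 ≤ d) (hW : 1 ≤ W) (hA : 1 ≤ A k d W a) {r : ℝ}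
    (hr : 8 * (d : ℝ) * W ≤ r) :
    (total k d W a ⌊r ^ k⌋₊ ≤ 4 ^ d * (r / W) ^ d * A k d W a ∧
      (1 / 2) * (1 / (4 * d)) ^ d * (r / W) ^ d * A k d W a ≤ total k d W a ⌊r ^ k⌋₊) ∧
    r ^ k / (4 * W) ≤ ((I W a ⌊r ^ k⌋₊).card : ℝ) ∧ ((I W a ⌊r ^ k⌋₊).card : ℝ) ≤ 2 * r ^ k / W := by
  have hWR : (1 : ℝ) ≤ W := by exact_mod_cast hW
  have hdR : (1 : ℝ) ≤ d := by exact_mod_cast hd
  have hdW : (1 : ℝ) ≤ d * W := by nlinarith
  have hr8 : 8 ≤ r := by nlinarith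
  have hr8W : 8 * (W : ℝ) ≤ r := by nlinarith
  obtain ⟨q, hq, hq1, hq2⟩ := root_near hk (by linarith : 2 ≤ r)
  have hq0 : 0 < q := by linarith
  refine ⟨⟨?_, ?_⟩, ?_⟩
  · refine (total_le (d := d) (a := a) hk hW q hq (by linarith)).trans ?_
    apply mul_le_mul_of_nonneg_right _ (Nat.cast_nonneg _)
    apply mul_le_mul_of_nonneg_left _ (by positivity)
    apply pow_le_pow_left₀ (by positivity)
    exact div_le_div_of_nonneg_right hq2 (by linarith)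
  · refine le_trans ?_ (le_total hk hd hW q hq (by linarith) hA)
    apply mul_le_mul_of_nonneg_right _ (Nat.cast_nonneg _)
    rw [mul_assoc, mul_assoc, ← mul_pow, ← mul_pow]
    apply mul_le_mul_of_nonneg_left _ (by norm_num)
    apply pow_le_pow_left₀ (by positivity)
    have h1 : 1 / (4 * (d : ℝ)) * (r / W) = 1 / (2 * d) * ((r / 2) / W) := by field_simp; ring
    rw [h1]
    apply mul_le_mul_of_nonneg_left _ (by positivity)
    exact div_le_div_of_nonneg_right hq1 (by linarith)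
  · have hfl := Nat.floor_le (by positivity : 0 ≤ r ^ k)
    have hfl2 := Nat.lt_floor_add_one (r ^ k)
    have hrk : r ≤ r ^ k := by
      calc r = r ^ 1 := (pow_one _).symm
        _ ≤ _ := pow_le_pow_right₀ (by linarith) hk
    have hx2 : 2 * W ≤ ⌊r ^ k⌋₊ := by
      apply Nat.le_floor
      push_cast
      linarith
    obtain ⟨h1, h2⟩ := card_I hW a ⌊r ^ k⌋₊ hx2
    constructor
    · refine le_trans ?_ h1
      have h3 : r ^ k / (4 * W) = (r ^ k / 2) / (2 * W) := by field_simp; ring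
      rw [h3]
      apply div_le_div_of_nonneg_right _ (by positivity)
      linarith
    · refine h2.trans ?_
      apply div_le_div_of_nonneg_right _ (by linarith)
      linarith

/-- the mean value form of the order of magnitude -/
def AvgHolds (k d : ℕ) : Prop :=
  ∃ c C : ℝ, 0 < c ∧ c ≤ C ∧ ∀ W a : ℕ, 1 ≤ W →
    (∃ r : ℝ, 0 < r ∧ (sphere k d r).Nonempty ∧ ∃ n : ℕ, r ^ k = n ∧ n ≡ a [MOD W]) →
    ∃ r₀ : ℝ, ∀ r : ℝ, r₀ ≤ r →
      c * r ^ ((d : ℝ) - k) * ((I W a ⌊r ^ k⌋₊).card : ℝ) ≤ total k d W a ⌊r ^ k⌋₊ ∧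
      total k d W a ⌊r ^ k⌋₊ ≤ C * r ^ ((d : ℝ) - k) * ((I W a ⌊r ^ k⌋₊).card : ℝ)

lemma A_congr {k d W a n : ℕ} (h : n ≡ a [MOD W]) : A k d W a = A k d W n := by
  unfold A
  have : (((a : ℕ) : ℤ) : ZMod W) = (((n : ℕ) : ℤ) : ZMod W) := by
    rw [Int.cast_natCast, Int.cast_natCast]
    exact ((ZMod.natCast_eq_natCast_iff n a W).mpr h).symm
  rw [this]

lemma A_pos_of_rep {k d W n : ℕ} (hW : 1 ≤ W) (y : Fin d → ℤ) (hy : ∑ i, y i ^ k = n) :
    1 ≤ A k d W n := by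
  have : NeZero W := ⟨by omega⟩
  rw [A_eq, Nat.one_le_iff_ne_zero, Ne, card_eq_zero]
  intro he
  have := cast_mem_S (k := k) (N := W) (a := n) y (by rw [hy, sub_self]; exact dvd_zero _)
  rw [he] at this
  simp at this

lemma sphere_rep {k d n : ℕ} {r : ℝ} (hr : r ^ k = n) {m : Fin d → ℤ} (hm : m ∈ sphere k d r) :
    ∑ i, (((m i).natAbs : ℕ) : ℤ) ^ k = n := by
  have hm' : ∑ i, |(m i : ℝ)| ^ k = r ^ k := hm
  have h : ∀ i, |(m i : ℝ)| = (((m i).natAbs : ℕ) : ℝ) := by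
    intro i
    rw [Nat.cast_natAbs, Int.cast_abs]
  simp_rw [h] at hm'
  rw [hr] at hm'
  exact_mod_cast hm'

theorem avg_of_cond {k d : ℕ} (hk : 3 ≤ k) (h : Cond k d) : AvgHolds k d := by
  have hd : k + 2 ≤ d := h.1
  have hd1 : 1 ≤ d := by omega
  obtain ⟨c, C, hc, hcC, hb⟩ := all_moduli hk hd
  refine ⟨(1 / 4) * (1 / (4 * d)) ^ d * c, 4 * 4 ^ d * C, ?_, ?_, ?_⟩
  · have : (0 : ℝ) < d := by exact_mod_cast hd1
    positivity
  · have hdR : (1 : ℝ) ≤ d := by exact_mod_cast hd1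
    have h1 : (1 / (4 * (d : ℝ))) ^ d ≤ 1 := by
      apply pow_le_one₀ (by positivity)
      rw [div_le_one (by linarith)]
      linarith
    have h2 : (1 : ℝ) ≤ 4 ^ d := one_le_pow₀ (by norm_num)
    have hC : 0 < C := by linarith
    calc (1 / 4) * (1 / (4 * (d : ℝ))) ^ d * c ≤ (1 / 4) * 1 * c := by
          apply mul_le_mul_of_nonneg_right _ hc.le
          apply mul_le_mul_of_nonneg_left h1 (by norm_num)
      _ ≤ 1 * C := by linarith
      _ ≤ (4 * 4 ^ d) * C := by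
          apply mul_le_mul_of_nonneg_right _ hC.le
          linarith
  · rintro W a hW ⟨r, hr0, ⟨m, hm⟩, n, hrn, hna⟩
    refine ⟨8 * (d : ℝ) * W, ?_⟩
    intro ρ hρ
    have hrep := sphere_rep hrn hm
    have hA1 : 1 ≤ A k d W a := by
      rw [A_congr hna]
      exact A_pos_of_rep hW _ hrep
    have hbd := hb (n : ℤ) (fun p hp => prim_all hk h _ hrep hp) W hW
    rw [← A_congr hna] at hbd
    obtain ⟨⟨hup, hlo⟩, hI1, hI2⟩ := mean_bounds (k := k) (a := a) (by omega) hd1 hW hA1 hρ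
    have hWR : (1 : ℝ) ≤ W := by exact_mod_cast hW
    have hdR : (1 : ℝ) ≤ d := by exact_mod_cast hd1
    have hρ0 : 0 < ρ := by nlinarith [mul_pos (by linarith : (0:ℝ) < d) (by linarith : (0:ℝ) < W)]
    have hWd : (W : ℝ) ^ d = (W : ℝ) ^ (d - 1) * W := by
      rw [← pow_succ, Nat.sub_add_cancel hd1]
    have hρd : ρ ^ d = ρ ^ ((d : ℝ) - k) * ρ ^ k := by
      rw [← Real.rpow_natCast, ← Real.rpow_natCast, ← Real.rpow_add hρ0]
      congr 1
      ring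
    have hrp : 0 < ρ ^ ((d : ℝ) - k) := Real.rpow_pos_of_pos hρ0 _
    have hWd1 : (0 : ℝ) < (W : ℝ) ^ (d - 1) := by positivity
    constructor
    · refine le_trans ?_ hlo
      have h1 : (ρ / W) ^ d * (c * (W : ℝ) ^ (d - 1)) ≤ (ρ / W) ^ d * A k d W a :=
        mul_le_mul_of_nonneg_left hbd.1 (by positivity)
      have h2 : (ρ / W) ^ d * (c * (W : ℝ) ^ (d - 1)) = c * (ρ ^ ((d : ℝ) - k) * (ρ ^ k / W)) := by
        rw [div_pow, hWd, hρd]
        field_simp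
      have h3 : (1 / 2) * ((I W a ⌊ρ ^ k⌋₊).card : ℝ) ≤ ρ ^ k / W := by
        have : 2 * ρ ^ k / W = 2 * (ρ ^ k / W) := by ring
        linarith
      have h4 : c * (ρ ^ ((d : ℝ) - k) * ((1 / 2) * ((I W a ⌊ρ ^ k⌋₊).card : ℝ))) ≤
          c * (ρ ^ ((d : ℝ) - k) * (ρ ^ k / W)) :=
        mul_le_mul_of_nonneg_left (mul_le_mul_of_nonneg_left h3 hrp.le) hc.le
      have h5 : (0 : ℝ) ≤ (1 / 2) * (1 / (4 * d)) ^ d := by positivity
      have h6 := mul_le_mul_of_nonneg_left (h4.trans (h2 ▸ h1)) h5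
      calc (1 / 4) * (1 / (4 * d)) ^ d * c * ρ ^ ((d : ℝ) - k) * ((I W a ⌊ρ ^ k⌋₊).card : ℝ)
          = (1 / 2) * (1 / (4 * d)) ^ d * (c * (ρ ^ ((d : ℝ) - k) * ((1 / 2) * ((I W a ⌊ρ ^ k⌋₊).card : ℝ)))) := by ring
        _ ≤ (1 / 2) * (1 / (4 * d)) ^ d * ((ρ / W) ^ d * A k d W a) := h6
        _ = _ := by ring
    · refine hup.trans ?_
      have h1 : (ρ / W) ^ d * A k d W a ≤ (ρ / W) ^ d * (C * (W : ℝ) ^ (d - 1)) :=
        mul_le_mul_of_nonneg_left hbd.2 (by positivity)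
      have h2 : (ρ / W) ^ d * (C * (W : ℝ) ^ (d - 1)) = C * (ρ ^ ((d : ℝ) - k) * (ρ ^ k / W)) := by
        rw [div_pow, hWd, hρd]
        field_simp
      have h3 : ρ ^ k / W ≤ 4 * ((I W a ⌊ρ ^ k⌋₊).card : ℝ) := by
        have : ρ ^ k / (4 * W) = (ρ ^ k / W) / 4 := by field_simp
        linarith
      have hC : 0 < C := by linarith
      have h4 : C * (ρ ^ ((d : ℝ) - k) * (ρ ^ k / W)) ≤
          C * (ρ ^ ((d : ℝ) - k) * (4 * ((I W a ⌊ρ ^ k⌋₊).card : ℝ))) :=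
        mul_le_mul_of_nonneg_left (mul_le_mul_of_nonneg_left h3 hrp.le) hC.le
      have h5 : (0 : ℝ) ≤ 4 ^ d := by positivity
      have h6 := mul_le_mul_of_nonneg_left ((h2 ▸ h1).trans h4) h5
      calc 4 ^ d * (ρ / W) ^ d * A k d W a = 4 ^ d * ((ρ / W) ^ d * A k d W a) := by ring
        _ ≤ 4 ^ d * (C * (ρ ^ ((d : ℝ) - k) * (4 * ((I W a ⌊ρ ^ k⌋₊).card : ℝ)))) := h6
        _ = _ := by ring

theorem cond_of_avg {k d : ℕ} (hk : 3 ≤ k) (hd1 : 1 ≤ d) (h : AvgHolds k d) : Cond k d := by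
  obtain ⟨c, C, hc, hcC, hb⟩ := h
  have hdR : (1 : ℝ) ≤ d := by exact_mod_cast hd1
  have hC : 0 < C := by linarith
  apply fail_cond hk hd1 (c := c / (4 * 4 ^ d)) (C := 4 * (4 * d) ^ d * C) (by positivity)
  intro m W hm hW
  have hWR : (1 : ℝ) ≤ W := by exact_mod_cast hW
  have hadm : ∃ r : ℝ, 0 < r ∧ (sphere k d r).Nonempty ∧ ∃ n : ℕ, r ^ k = n ∧ n ≡ m ^ k [MOD W] := by
    refine ⟨m, by exact_mod_cast hm, axis_mem (by omega) hd1 m, m ^ k, by push_cast; ring, Nat.ModEq.refl _⟩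
  obtain ⟨r₀, hr⟩ := hb W (m ^ k) hW hadm
  have hA1 : 1 ≤ A k d W ((m ^ k : ℕ) : ℤ) := by
    apply A_pos_of_rep hW (fun i => if i = ⟨0, hd1⟩ then (m : ℤ) else 0)
    rw [Finset.sum_eq_single (⟨0, hd1⟩ : Fin d)]
    · simp
    · intro b _ hb
      rw [if_neg hb]
      exact zero_pow (by omega)
    · intro hcon
      exact absurd (mem_univ _) hcon
  set ρ := max r₀ (8 * (d : ℝ) * W) with hρ
  have hρ1 : 8 * (d : ℝ) * W ≤ ρ := le_max_right _ _
  obtain ⟨h1, h2⟩ := hr ρ (le_max_left _ _)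
  obtain ⟨⟨hup, hlo⟩, hI1, hI2⟩ := mean_bounds (k := k) (a := m ^ k) (by omega) hd1 hW hA1 hρ1
  have hρ0 : 0 < ρ := by nlinarith [mul_pos (by linarith : (0:ℝ) < d) (by linarith : (0:ℝ) < W)]
  have hWd : (W : ℝ) ^ d = (W : ℝ) ^ (d - 1) * W := by
    rw [← pow_succ, Nat.sub_add_cancel hd1]
  have hρd : ρ ^ d = ρ ^ ((d : ℝ) - k) * ρ ^ k := by
    rw [← Real.rpow_natCast, ← Real.rpow_natCast, ← Real.rpow_add hρ0]
    congr 1
    ring
  have hrp : 0 < ρ ^ ((d : ℝ) - k) := Real.rpow_pos_of_pos hρ0 _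
  have hWd1 : (0 : ℝ) < (W : ℝ) ^ (d - 1) := by positivity
  have hρk : 0 < ρ ^ k := by positivity
  have hcast : (((m ^ k : ℕ) : ℤ)) = ((m : ℤ) ^ k) := by push_cast; ring
  rw [hcast] at hup hlo
  set Am : ℝ := (A k d W ((m : ℤ) ^ k) : ℝ) with hAm
  -- common factor
  set F : ℝ := ρ ^ ((d : ℝ) - k) * (ρ ^ k / W) / (W : ℝ) ^ (d - 1) with hF
  have hFpos : 0 < F := by positivity
  have hFeq : (ρ / W) ^ d = F := by
    rw [hF, div_pow, hWd, hρd]
    field_simp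
  have hFW : F * (W : ℝ) ^ (d - 1) = ρ ^ ((d : ℝ) - k) * (ρ ^ k / W) := by
    rw [hF]
    field_simp
  rw [hFeq] at hup hlo
  constructor
  · have h3 : c * ρ ^ ((d : ℝ) - k) * (ρ ^ k / (4 * W)) ≤ 4 ^ d * F * Am := by
      refine le_trans ?_ (h1.trans hup)
      exact mul_le_mul_of_nonneg_left hI1 (by positivity)
    have h4 : c * ρ ^ ((d : ℝ) - k) * (ρ ^ k / (4 * W)) = (c / 4) * (F * (W : ℝ) ^ (d - 1)) := by
      rw [hFW]
      field_simp
    rw [h4] at h3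
    have h5 : F * ((c / 4) * (W : ℝ) ^ (d - 1)) ≤ F * (4 ^ d * Am) := by
      calc F * ((c / 4) * (W : ℝ) ^ (d - 1)) = (c / 4) * (F * (W : ℝ) ^ (d - 1)) := by ring
        _ ≤ 4 ^ d * F * Am := h3
        _ = _ := by ring
    have h6 := le_of_mul_le_mul_left h5 hFpos
    have h7 : c / (4 * 4 ^ d) * (W : ℝ) ^ (d - 1) = ((c / 4) * (W : ℝ) ^ (d - 1)) / 4 ^ d := by
      field_simp
    rw [h7, div_le_iff₀ (by positivity)]
    linarith
  · have h3 : (1 / 2) * (1 / (4 * d)) ^ d * F * Am ≤ C * ρ ^ ((d : ℝ) - k) * (2 * ρ ^ k / W) := by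
      refine (hlo.trans h2).trans ?_
      exact mul_le_mul_of_nonneg_left hI2 (by positivity)
    have h4 : C * ρ ^ ((d : ℝ) - k) * (2 * ρ ^ k / W) = 2 * C * (F * (W : ℝ) ^ (d - 1)) := by
      rw [hFW]
      ring
    rw [h4] at h3
    have h5 : F * ((1 / 2) * (1 / (4 * d)) ^ d * Am) ≤ F * (2 * C * (W : ℝ) ^ (d - 1)) := by
      calc F * ((1 / 2) * (1 / (4 * d)) ^ d * Am) = (1 / 2) * (1 / (4 * d)) ^ d * F * Am := by ring
        _ ≤ _ := h3
        _ = _ := by ring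
    have h6 := le_of_mul_le_mul_left h5 hFpos
    have h7 : (4 * (d : ℝ)) ^ d * (1 / (4 * d)) ^ d = 1 := by
      rw [← mul_pow]
      have : 4 * (d : ℝ) * (1 / (4 * d)) = 1 := by field_simp
      rw [this, one_pow]
    have h8 : (0 : ℝ) < 2 * (4 * (d : ℝ)) ^ d := by positivity
    have h9 := mul_le_mul_of_nonneg_left h6 h8.le
    calc Am = ((4 * (d : ℝ)) ^ d * (1 / (4 * d)) ^ d) * Am := by rw [h7, one_mul]
      _ = 2 * (4 * (d : ℝ)) ^ d * ((1 / 2) * (1 / (4 * d)) ^ d * Am) := by ring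
      _ ≤ 2 * (4 * (d : ℝ)) ^ d * (2 * C * (W : ℝ) ^ (d - 1)) := h9
      _ = _ := by ring

theorem avg_iff {k d : ℕ} (hk : 3 ≤ k) (hd1 : 1 ≤ d) : AvgHolds k d ↔ Cond k d :=
  ⟨cond_of_avg hk hd1, avg_of_cond hk⟩

end Pool.Agent.V8H20.LD
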