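import Mathlib
import Pool.Agent.V8H20.LD.L13

/-! When does `N(p r) = N(r)` hold for all radii? -/

set_option autoImplicit false

open Finset

namespace Pool.Agent.V8H20.LD

open Pool.Agent.TH854.KS (Rep Rep_finite Box mem_Box sphere sphere_finite Rep_le_sphere sphere_natAbs
  axis_mem)

/-- primitive zeros, with a condition at `p` only -/
lemma prim_zero_at {k d p : ℕ} (hk : 3 ≤ k) (hd : k + 1 ≤ d) (hp : p.Prime)
    (h : p - 1 ∣ k → p ^ (gam p k) ≤ d) :
    ∃ (z : Fin d → ℤ) (i0 : Fin d), ¬ (p : ℤ) ∣ z i0 ∧ (p : ℤ) ^ (gam p k) ∣ ∑ i, z i ^ k := by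
  by_cases hpk : p ∣ k
  · by_cases hp1 : p - 1 ∣ k
    · exact ones hp (by omega) (h hp1)
    · have h2 : p ≠ 2 := by
        rintro rfl
        exact hp1 (by norm_num)
      have hg : gam p k = padicValNat p k + 1 := by
        unfold gam m0 tau
        rw [if_neg (by tauto)]
      rw [hg]
      apply rootsum hp (by omega) pow_padicValNat_dvd hp1
      have := Nat.le_of_dvd (by omega) hpk
      omega
  · have hg : gam p k = 1 := by
      unfold gam m0 tau
      rw [if_neg (by rintro ⟨rfl, h'⟩; exact hpk h'), padicValNat.eq_zero_of_not_dvd hpk]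
    rw [hg, pow_one]
    exact cw hp (by omega) (by omega)

/-- the obstruction -/
lemma obs_at {k d p : ℕ} (hk : 3 ≤ k) (hp : p.Prime) (hp1 : p - 1 ∣ k) (h : d < p ^ (gam p k))
    (y : Fin d → ℕ) (hy : p ^ (gam p k) ∣ ∑ i, y i ^ k) (i : Fin d) : p ∣ y i := by
  by_contra hi
  have hg := gam_le hp hk
  have h0 : ∀ y : ℕ, p ∣ y → p ^ (gam p k) ∣ y ^ k := fun z hz =>
    (pow_dvd_pow p hg).trans (pow_dvd_pow_of_dvd hz k)
  have h1 : ∀ y : ℕ, ¬ p ∣ y → ((p ^ (gam p k) : ℕ) : ℤ) ∣ (y : ℤ) ^ k - 1 := by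
    intro z hz
    by_cases h2 : p = 2 ∧ 2 ∣ k
    · obtain ⟨rfl, h2k⟩ := h2
      have hg2 : gam 2 k = padicValNat 2 k + 2 := by
        unfold gam m0 tau
        rw [if_pos ⟨rfl, h2k⟩]
      have : Fact (Nat.Prime 2) := ⟨Nat.prime_two⟩
      have hτ1 : 1 ≤ padicValNat 2 k := one_le_padicValNat_of_dvd (by omega) h2k
      obtain ⟨m, hm⟩ := (pow_padicValNat_dvd : 2 ^ padicValNat 2 k ∣ k)
      have h1 := Pool.Agent.TH854.KS.odd_pow_two z hz _ hτ1
      rw [hg2]
      have e : (z : ℤ) ^ k = ((z : ℤ) ^ (2 ^ padicValNat 2 k)) ^ m := by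
        rw [← pow_mul, ← hm]
      rw [e]
      push_cast
      refine h1.trans ?_
      have := sub_dvd_pow_sub_pow ((z : ℤ) ^ (2 ^ padicValNat 2 k)) 1 m
      rwa [one_pow] at this
    · have hg2 : gam p k = padicValNat p k + 1 := by
        unfold gam m0 tau
        rw [if_neg h2]
      have hdvd0 : p ^ (padicValNat p k) ∣ k := pow_padicValNat_dvd
      have hdvd : (p - 1) * p ^ (padicValNat p k) ∣ k := by
        apply Nat.Coprime.mul_dvd_of_dvd_of_dvd _ hp1 hdvd0
        apply Nat.Coprime.pow_right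
        have h1 : Nat.Coprime p (p - 1) := by
          rw [Nat.Prime.coprime_iff_not_dvd hp]
          intro h
          have := hp.two_le
          have := Nat.le_of_dvd (by omega) h
          omega
        exact h1.symm
      obtain ⟨m, hm⟩ := hdvd
      rw [hg2]
      have hcop : Nat.Coprime z (p ^ (padicValNat p k + 1)) := by
        apply Nat.Coprime.pow_right
        exact ((Nat.Prime.coprime_iff_not_dvd hp).mpr hz).symm
      have h1 := Nat.ModEq.pow_totient hcop
      rw [Nat.totient_prime_pow_succ hp, mul_comm (p ^ _)] at h1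
      have h2 := (Nat.modEq_iff_dvd.mp h1.symm)
      have e : (z : ℤ) ^ k = ((z : ℤ) ^ ((p - 1) * p ^ padicValNat p k)) ^ m := by
        rw [← pow_mul, ← hm]
      rw [e]
      push_cast at h2 ⊢
      refine h2.trans ?_
      have := sub_dvd_pow_sub_pow ((z : ℤ) ^ ((p - 1) * p ^ padicValNat p k)) 1 m
      rwa [one_pow] at this
  have := Pool.Agent.TH854.KS.obstruct h0 h1 y hy ⟨i, hi⟩
  omega

lemma mem_sphere_iff {k d n : ℕ} {r : ℝ} (hr : r ^ k = n) (m : Fin d → ℤ) :
    m ∈ sphere k d r ↔ ∑ i, (m i).natAbs ^ k = n := by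
  have h : ∀ i, |(m i : ℝ)| = (((m i).natAbs : ℕ) : ℝ) := by
    intro i
    rw [Nat.cast_natAbs, Int.cast_abs]
  unfold sphere
  rw [Set.mem_ofPred_eq]
  simp_rw [h]
  rw [hr]
  exact_mod_cast Iff.rfl

lemma sphere_mul_inj {k d p : ℕ} (hk : 0 < k) (hp : 0 < p) {r : ℝ} (hr : 0 < r) :
    (fun (m : Fin d → ℤ) (i : Fin d) => (p : ℤ) * m i) '' (sphere k d r) ⊆ sphere k d (p * r) ∧
    ((fun (m : Fin d → ℤ) (i : Fin d) => (p : ℤ) * m i) '' (sphere k d r)).ncard = (sphere k d r).ncard := by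
  have _ := hk
  have _ := hr
  constructor
  · rintro _ ⟨m, hm, rfl⟩
    have hm' : ∑ i, |(m i : ℝ)| ^ k = r ^ k := hm
    show ∑ i, |(((p : ℤ) * m i : ℤ) : ℝ)| ^ k = (p * r) ^ k
    rw [mul_pow, ← hm', mul_sum]
    apply sum_congr rfl
    intro i _
    push_cast
    rw [abs_mul, mul_pow, Nat.abs_cast]
  · apply Set.ncard_image_of_injective
    intro m m' h
    funext i
    have h1 : (p : ℤ) * m i = (p : ℤ) * m' i := congrFun h i
    exact mul_left_cancel₀ (by exact_mod_cast hp.ne') h1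

theorem jacobi_iff {k d p : ℕ} (hk : 3 ≤ k) (hd : k + 1 ≤ d) (hp : p.Prime) :
    (∀ r : ℝ, 0 < r → (∃ n : ℕ, r ^ k = n) → (sphere k d (p * r)).ncard = (sphere k d r).ncard) ↔
      (p - 1 ∣ k ∧ d < p ^ (gam p k)) := by
  classical
  constructor
  · intro h
    by_contra hcon
    have hpz := prim_zero_at hk hd hp (by
      intro h1
      by_contra h2
      exact hcon ⟨h1, by omega⟩)
    obtain ⟨z, i0, hi0, hz⟩ := hpz
    -- a zero modulo p^k
    have hg := gam_le hp hk
    obtain ⟨s, hs1, hs2⟩ := hens hp (by omega : 0 < k) (a := z i0) (v := z i0 ^ k - ∑ i, z i ^ k) hi0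
      (by
        have : z i0 ^ k - (z i0 ^ k - ∑ i, z i ^ k) = ∑ i, z i ^ k := by ring
        rw [this]
        exact hz) k hg
    have hpk : (0 : ℤ) < (p : ℤ) ^ k := by
      have : (0 : ℤ) < p := by exact_mod_cast hp.pos
      positivity
    set w : Fin d → ℤ := fun i => if i = i0 then s else z i with hw
    have hws : (p : ℤ) ^ k ∣ ∑ i, w i ^ k := by
      rw [← add_sum_erase univ _ (mem_univ i0)]
      have e1 : ∑ i ∈ univ.erase i0, w i ^ k = ∑ i ∈ univ.erase i0, z i ^ k := by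
        apply sum_congr rfl
        intro i hi
        simp only [hw, if_neg (ne_of_mem_erase hi)]
      have e2 : w i0 = s := by simp [hw]
      rw [e1, e2]
      have e3 := add_sum_erase univ (fun i => z i ^ k) (mem_univ i0)
      have e4 : s ^ k + ∑ i ∈ univ.erase i0, z i ^ k = s ^ k - (z i0 ^ k - ∑ i, z i ^ k) := by
        rw [← e3]; ring
      rw [e4]
      exact hs2
    have hsp : ¬ (p : ℤ) ∣ s := by
      intro h1
      apply hi0
      have h2 : (p : ℤ) ∣ s - z i0 := (dvd_pow_self _ (by have := m0_pos p k; omega)).trans hs1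
      have := dvd_sub h1 h2
      simpa using this
    -- non-negative representatives
    set v : Fin d → ℕ := fun i => (w i % (p : ℤ) ^ k).toNat with hv
    have hvw : ∀ i, (p : ℤ) ^ k ∣ (v i : ℤ) - w i := by
      intro i
      have h1 : 0 ≤ w i % (p : ℤ) ^ k := Int.emod_nonneg _ hpk.ne'
      have h2 : (v i : ℤ) = w i % (p : ℤ) ^ k := by simp only [hv]; exact Int.toNat_of_nonneg h1
      rw [h2]
      have := Int.emod_add_mul_ediv (w i) ((p : ℤ) ^ k)
      refine ⟨-(w i / (p : ℤ) ^ k), by linarith⟩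
    have hvs : (p : ℤ) ^ k ∣ ∑ i, (v i : ℤ) ^ k := by
      have h1 : (p : ℤ) ^ k ∣ ∑ i, ((v i : ℤ) ^ k - w i ^ k) :=
        dvd_sum (fun i _ => (hvw i).trans (sub_dvd_pow_sub_pow _ _ k))
      rw [sum_sub_distrib] at h1
      have := dvd_add h1 hws
      simpa using this
    have hvs' : p ^ k ∣ ∑ i, v i ^ k := by exact_mod_cast hvs
    have hv0 : ¬ p ∣ v i0 := by
      intro h1
      apply hsp
      have h2 : (p : ℤ) ∣ (v i0 : ℤ) := by exact_mod_cast h1
      have h3 : (p : ℤ) ∣ (v i0 : ℤ) - w i0 := (dvd_pow_self _ (by omega)).trans (hvw i0)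
      have h4 := dvd_sub h2 h3
      have e2 : w i0 = s := by simp [hw]
      simpa [e2] using h4
    obtain ⟨n, hn⟩ := hvs'
    have hnpos : 0 < n := by
      rcases Nat.eq_zero_or_pos n with h0 | h0
      · exfalso
        rw [h0, mul_zero, sum_eq_zero_iff] at hn
        have := hn i0 (mem_univ _)
        have h5 : v i0 = 0 := by
          have := pow_eq_zero_iff (by omega : k ≠ 0) |>.mp this
          exact this
        apply hv0
        rw [h5]
        exact dvd_zero _
      · exact h0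
    set r : ℝ := (n : ℝ) ^ (1 / (k : ℝ)) with hr
    have hnR : (0 : ℝ) < n := by exact_mod_cast hnpos
    have hr0 : 0 < r := by positivity
    have hrk : r ^ k = n := root_pow (by omega) n
    have h1 := h r hr0 ⟨n, hrk⟩
    obtain ⟨hsub, hcard⟩ := sphere_mul_inj (k := k) (d := d) (p := p) (by omega) hp.pos hr0
    have hprk : ((p : ℝ) * r) ^ k = ((p ^ k * n : ℕ) : ℝ) := by
      rw [mul_pow, hrk]; push_cast; ring
    have hvmem : (fun i => (v i : ℤ)) ∈ sphere k d (p * r) := by
      rw [mem_sphere_iff hprk]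
      simp only [Int.natAbs_natCast]
      exact hn
    have hvnot : (fun i => (v i : ℤ)) ∉ (fun (m : Fin d → ℤ) (i : Fin d) => (p : ℤ) * m i) '' (sphere k d r) := by
      rintro ⟨m, _, hm⟩
      have h2 := congrFun hm i0
      apply hv0
      have h3 : (p : ℤ) ∣ (v i0 : ℤ) := ⟨m i0, h2.symm⟩
      exact_mod_cast h3
    have hppos : (0 : ℝ) < p := by exact_mod_cast hp.pos
    have hfin : (sphere k d (p * r)).Finite := sphere_finite (by omega) (by positivity)
    have hlt : ((fun (m : Fin d → ℤ) (i : Fin d) => (p : ℤ) * m i) '' (sphere k d r)).ncard <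
        (sphere k d (p * r)).ncard := by
      apply Set.ncard_lt_ncard _ hfin
      refine ⟨hsub, ?_⟩
      intro h3
      exact hvnot (h3 hvmem)
    rw [hcard] at hlt
    omega
  · rintro ⟨hp1, hdp⟩ r hr0 ⟨n, hrn⟩
    obtain ⟨hsub, hcard⟩ := sphere_mul_inj (k := k) (d := d) (p := p) (by omega) hp.pos hr0
    rw [← hcard]
    congr 1
    apply Set.Subset.antisymm _ hsub
    intro m hm
    have hprk : ((p : ℝ) * r) ^ k = ((p ^ k * n : ℕ) : ℝ) := by
      rw [mul_pow, hrn]; push_cast; ring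
    rw [mem_sphere_iff hprk] at hm
    have hg := gam_le hp hk
    have hdvd : ∀ i, p ∣ (m i).natAbs := by
      apply obs_at hk hp hp1 hdp
      rw [hm]
      exact (pow_dvd_pow p hg).trans (dvd_mul_right _ _)
    have hdvd' : ∀ i, (p : ℤ) ∣ m i := fun i => Int.natCast_dvd.mpr (hdvd i)
    choose q hq using hdvd'
    refine ⟨q, ?_, by funext i; exact (hq i).symm⟩
    rw [mem_sphere_iff hrn]
    have h2 : p ^ k * ∑ i, (q i).natAbs ^ k = p ^ k * n := by
      rw [← hm, mul_sum]
      apply sum_congr rfl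
      intro i _
      rw [hq i, Int.natAbs_mul, Int.natAbs_natCast, mul_pow]
    exact Nat.eq_of_mul_eq_mul_left (pow_pos hp.pos k) h2

end Pool.Agent.V8H20.LD
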