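import Mathlib
import Pool.Agent.V8H20.LD.L8

/-! The product of `1 + 1/p` over the primes. -/

set_option autoImplicit false

open Finset

namespace Pool.Agent.V8H20.LD

/-- the completely multiplicative function `1/n` -/
noncomputable def invHom : ℕ →* ℝ where
  toFun n := (n : ℝ)⁻¹
  map_one' := by simp
  map_mul' m n := by push_cast; rw [mul_inv]

lemma log_le_prod (N : ℕ) (hN : 1 ≤ N) : Real.log N ≤ ∏ p ∈ N.primesBelow, (1 - (p : ℝ)⁻¹)⁻¹ := by
  have h := EulerProduct.summable_and_hasSum_smoothNumbers_prod_primesBelow_geometric (f := invHom)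
    (fun {p} hp => by
      show ‖(p : ℝ)⁻¹‖ < 1
      rw [norm_inv, Real.norm_natCast]
      exact inv_lt_one_of_one_lt₀ (by exact_mod_cast hp.one_lt)) N
  have h1 : ∑ n ∈ Icc 1 (N - 1), (n : ℝ)⁻¹ ≤ ∏ p ∈ N.primesBelow, (1 - (p : ℝ)⁻¹)⁻¹ := by
    have hmem : ∀ n ∈ Icc 1 (N - 1), n ∈ N.smoothNumbers := by
      intro n hn
      rw [mem_Icc] at hn
      rw [Nat.mem_smoothNumbers']
      intro p _ hpn
      have := Nat.le_of_dvd (by omega) hpn
      omega
    have h2 : ∑ n ∈ (Icc 1 (N - 1)).attach, (fun m : N.smoothNumbers => invHom m) ⟨n.1, hmem n.1 n.2⟩ ≤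
        ∏ p ∈ N.primesBelow, (1 - invHom p)⁻¹ := by
      set g : {x // x ∈ Icc 1 (N - 1)} → N.smoothNumbers := fun n => ⟨n.1, hmem n.1 n.2⟩ with hg
      have hinj : Function.Injective g := by
        intro a b hab
        apply Subtype.ext
        exact congrArg (fun z : N.smoothNumbers => (z : ℕ)) hab
      have h3 := sum_le_hasSum ((Icc 1 (N - 1)).attach.map ⟨g, hinj⟩) (fun i _ => by
        show (0 : ℝ) ≤ ((i : ℕ) : ℝ)⁻¹
        positivity) h.2
      rw [sum_map] at h3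
      exact h3
    rw [sum_attach (Icc 1 (N - 1)) (fun n => invHom n)] at h2
    exact h2
  refine le_trans ?_ h1
  have h4 := log_add_one_le_harmonic (N - 1)
  rw [Nat.sub_add_cancel hN] at h4
  refine h4.trans (le_of_eq ?_)
  rw [harmonic_eq_sum_Icc]
  push_cast
  rfl

lemma prod_sq (N : ℕ) (hN : 2 ≤ N) :
    ∏ m ∈ Ico 2 N, (1 - 1 / (m : ℝ) ^ 2) = (N : ℝ) / (2 * ((N : ℝ) - 1)) := by
  induction N, hN using Nat.le_induction with
  | base => norm_num
  | succ n hn ih =>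
    rw [prod_Ico_succ_top hn, ih]
    have h1 : (2 : ℝ) ≤ n := by exact_mod_cast hn
    have h2 : (n : ℝ) - 1 ≠ 0 := by linarith
    have h3 : (n : ℝ) ≠ 0 := by linarith
    push_cast
    have h4 : (n : ℝ) + 1 - 1 = n := by ring
    rw [h4]
    field_simp
    ring

lemma prod_primes_ge (N : ℕ) (hN : 2 ≤ N) :
    (1 / 2) * Real.log N ≤ ∏ p ∈ N.primesBelow, (1 + 1 / (p : ℝ)) := by
  have hP : ∀ p ∈ N.primesBelow, (2 : ℝ) ≤ p := by
    intro p hp
    exact_mod_cast (Nat.prime_of_mem_primesBelow hp).two_le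
  have h1 : ∏ p ∈ N.primesBelow, (1 + 1 / (p : ℝ)) =
      (∏ p ∈ N.primesBelow, (1 - 1 / (p : ℝ) ^ 2)) * ∏ p ∈ N.primesBelow, (1 - (p : ℝ)⁻¹)⁻¹ := by
    rw [← prod_mul_distrib]
    apply prod_congr rfl
    intro p hp
    have h2 := hP p hp
    have h3 : (1 - (p : ℝ)⁻¹) ≠ 0 := by
      have : (p : ℝ)⁻¹ < 1 := inv_lt_one_of_one_lt₀ (by linarith)
      linarith
    have h4 : (p : ℝ) ≠ 0 := by linarith
    have h5 : (1 - 1 / (p : ℝ) ^ 2) = (1 + 1 / (p : ℝ)) * (1 - (p : ℝ)⁻¹) := by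
      field_simp
      ring
    rw [h5, mul_assoc, mul_inv_cancel₀ h3, mul_one]
  have h2 : 1 / 2 ≤ ∏ p ∈ N.primesBelow, (1 - 1 / (p : ℝ) ^ 2) := by
    have hsub : N.primesBelow ⊆ Ico 2 N := by
      intro p hp
      rw [mem_Ico]
      exact ⟨(Nat.prime_of_mem_primesBelow hp).two_le, Nat.lt_of_mem_primesBelow hp⟩
    have hf : ∀ m ∈ Ico 2 N, 0 ≤ 1 - 1 / (m : ℝ) ^ 2 ∧ 1 - 1 / (m : ℝ) ^ 2 ≤ 1 := by
      intro m hm
      rw [mem_Ico] at hm
      have h3 : (2 : ℝ) ≤ m := by exact_mod_cast hm.1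
      have h4 : 1 / (m : ℝ) ^ 2 ≤ 1 := by
        rw [div_le_one (by positivity)]
        nlinarith
      have h5 : 0 ≤ 1 / (m : ℝ) ^ 2 := by positivity
      constructor <;> linarith
    calc (1 / 2 : ℝ) ≤ (N : ℝ) / (2 * ((N : ℝ) - 1)) := by
          have h3 : (2 : ℝ) ≤ N := by exact_mod_cast hN
          rw [div_le_div_iff₀ (by norm_num) (by linarith)]
          linarith
      _ = ∏ m ∈ Ico 2 N, (1 - 1 / (m : ℝ) ^ 2) := (prod_sq N hN).symm
      _ = (∏ m ∈ Ico 2 N \ N.primesBelow, (1 - 1 / (m : ℝ) ^ 2)) *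
          ∏ p ∈ N.primesBelow, (1 - 1 / (p : ℝ) ^ 2) := (prod_sdiff hsub).symm
      _ ≤ 1 * ∏ p ∈ N.primesBelow, (1 - 1 / (p : ℝ) ^ 2) := by
          apply mul_le_mul_of_nonneg_right _ (prod_nonneg (fun p hp => (hf p (hsub hp)).1))
          apply prod_le_one
          · intro m hm; exact (hf m (mem_sdiff.mp hm).1).1
          · intro m hm; exact (hf m (mem_sdiff.mp hm).1).2
      _ = _ := one_mul _
  rw [h1]
  apply mul_le_mul h2 (log_le_prod N (by omega)) (Real.log_nonneg (by exact_mod_cast (by omega : 1 ≤ N)))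
  linarith

/-- the product over the large primes with an error term -/
lemma prod_error (K : ℝ) (hK : 0 ≤ K) (Q : ℕ) : ∃ (P0 : ℕ) (c : ℝ), 0 < c ∧ Q ≤ P0 ∧ ∀ N : ℕ, 2 ≤ N →
    (∀ p ∈ N.primesBelow.filter (fun p => P0 ≤ p), K * ep p ≤ 1) ∧
    c * Real.log N ≤ ∏ p ∈ N.primesBelow.filter (fun p => P0 ≤ p), (1 + 1 / (p : ℝ) - K * ep p) := by
  classical
  obtain ⟨s0, hs0⟩ := (summable_iff_vanishing_norm.mp (summable_ep (K))) (1 / 2) (by norm_num)
  set P0 := s0.sup id + 2 + Q with hP0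
  have hs0P : ∀ p ∈ s0, p < P0 := by
    intro p hp
    have : p ≤ s0.sup id := le_sup (f := id) hp
    omega
  set D : ℝ := ∏ p ∈ P0.primesBelow, (1 + 1 / (p : ℝ)) with hD
  have hDpos : 0 < D := prod_pos (fun p _ => by positivity)
  refine ⟨P0, (1 / 4) / D, by positivity, by omega, ?_⟩
  intro N hN
  set T := N.primesBelow.filter (fun p => P0 ≤ p) with hT
  have hTpos : ∀ p ∈ T, 0 < p := by
    intro p hp
    rw [hT, mem_filter] at hp
    omega
  have hx0 : ∀ p ∈ T, 0 ≤ K * ep p := fun p hp => mul_nonneg hK (ep_pos (hTpos p hp)).le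
  have hsum : ∑ p ∈ T, K * ep p < 1 / 2 := by
    have h1 := hs0 T (by
      rw [disjoint_left]
      intro p hp hps
      rw [hT, mem_filter] at hp
      have := hs0P p hps
      omega)
    exact (le_abs_self _).trans_lt h1
  have hx1 : ∀ p ∈ T, K * ep p ≤ 1 := by
    intro p hp
    have := single_le_sum hx0 hp
    linarith
  refine ⟨hx1, ?_⟩
  have h1 : 1 / 2 ≤ ∏ p ∈ T, (1 - K * ep p) := by
    have := prod_lower T (fun p => K * ep p) hx0 hx1
    linarith
  have h2 : (∏ p ∈ T, (1 + 1 / (p : ℝ))) * ∏ p ∈ T, (1 - K * ep p) ≤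
      ∏ p ∈ T, (1 + 1 / (p : ℝ) - K * ep p) := by
    rw [← prod_mul_distrib]
    apply prod_le_prod
    · intro p hp
      have := hx1 p hp
      have h3 : (0 : ℝ) ≤ 1 / (p : ℝ) := by positivity
      apply mul_nonneg <;> linarith
    · intro p hp
      have h3 : (0 : ℝ) ≤ 1 / (p : ℝ) := by positivity
      have h4 := hx0 p hp
      nlinarith
  have h3 : (1 / 2) * Real.log N ≤ D * ∏ p ∈ T, (1 + 1 / (p : ℝ)) := by
    refine (prod_primes_ge N hN).trans ?_
    rw [← prod_filter_mul_prod_filter_not N.primesBelow (fun p => P0 ≤ p), mul_comm]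
    apply mul_le_mul_of_nonneg_right _ (prod_nonneg (fun p _ => by positivity))
    rw [hD]
    apply prod_le_prod_of_subset_of_one_le
    · intro p hp
      rw [mem_filter] at hp
      rw [Nat.mem_primesBelow]
      exact ⟨by omega, Nat.prime_of_mem_primesBelow hp.1⟩
    · intro p _; positivity
    · intro p _ _
      have h3 : (0 : ℝ) ≤ 1 / (p : ℝ) := by positivity
      linarith
  have h4 : 0 ≤ ∏ p ∈ T, (1 + 1 / (p : ℝ)) := prod_nonneg (fun p _ => by positivity)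
  have h5 : (1 / 2) * ∏ p ∈ T, (1 + 1 / (p : ℝ)) ≤ ∏ p ∈ T, (1 + 1 / (p : ℝ) - K * ep p) := by
    refine le_trans ?_ h2
    rw [mul_comm]
    exact mul_le_mul_of_nonneg_left h1 h4
  refine le_trans ?_ h5
  rw [div_mul_eq_mul_div, div_le_iff₀ hDpos]
  nlinarith

end Pool.Agent.V8H20.LD
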