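import Mathlib
import Pool.Agent.V8H20.LD.L12
import Pool.Agent.V8H20.LD.L15

/-! Large values of `N_{k,k+1}(r)`. -/

set_option autoImplicit false

open Finset

namespace Pool.Agent.V8H20.LD

open Pool.Agent.TH854.KS (Rep Rep_finite Box mem_Box sphere sphere_finite Rep_le_sphere M M_pow_ge M_ge'
  M_ge_odd M_prod M_one)

/-- the local density at `p` in dimension `k + 1` -/
lemma dens {p : ℕ} [Fact p.Prime] {k : ℕ} (hk : 3 ≤ k) (hpk : ¬ p ∣ k) :
    (1 + 1 / (p : ℝ) - ((k : ℝ) ^ (k + 1) + 1) * ep p) * (((p : ℝ) ^ k)) ^ k ≤ (M (p ^ k) k (k + 1) : ℝ) := by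
  have hp : p.Prime := Fact.out
  have hppos := hp.pos
  have hpR : (0 : ℝ) < p := by exact_mod_cast hppos
  have hepos := ep_pos hppos
  have hM := M_pow_ge (p := p) (k := k) (d := k + 1) (by omega) hpk
  rw [Nat.add_sub_cancel] at hM
  have hs1 : (1 : ℝ) ≤ √(p : ℝ) := by
    rw [Real.one_le_sqrt]
    exact_mod_cast hppos
  have h1e : 1 ≤ ep p * (p : ℝ) ^ k := by
    unfold ep
    rw [one_div, inv_mul_eq_div, le_div_iff₀ (by positivity), one_mul, ← sq_pow]
    exact pow_le_pow_right₀ hs1 (by omega)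
  have hMp : (p : ℝ) ^ k - (k : ℝ) ^ (k + 1) * (ep p * (p : ℝ) ^ k) ≤ (M p k (k + 1) : ℝ) := by
    rcases Nat.eq_or_lt_of_le hk with h3 | h4
    · subst h3
      have h := M_ge_odd (p := p) (k := 3) (by decide) (d := 4) (by decide)
      have h' : (p : ℝ) * p ^ 3 ≤ p * (M p 3 4 : ℝ) := by
        calc (p : ℝ) * p ^ 3 = p ^ 4 := by ring
          _ ≤ _ := h
      have h1 := le_of_mul_le_mul_left h' hpR
      have h2 : 0 ≤ (((3 : ℕ) : ℝ)) ^ (3 + 1) * (ep p * (p : ℝ) ^ 3) := by positivity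
      have h3 : (M p 3 (3 + 1) : ℝ) = (M p 3 4 : ℝ) := rfl
      rw [h3]
      linarith
    · have h := M_ge' (p := p) (k := k) (by omega) (k + 1) (by omega)
      rw [Nat.add_sub_cancel, mul_pow] at h
      have h2 := gs_small (p := p) (d := k + 1) (by omega) (by omega)
      rw [Nat.add_sub_cancel] at h2
      have h3 : (k : ℝ) ^ (k + 1) * (√(p : ℝ)) ^ (k + 1) ≤ (k : ℝ) ^ (k + 1) * (ep p * (p : ℝ) ^ k) :=
        mul_le_mul_of_nonneg_left h2 (by positivity)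
      linarith
  have hM' : ((p : ℝ) ^ (k - 1)) ^ (k + 1) + ((M p k (k + 1) : ℝ) - 1) * ((p : ℝ) ^ (k - 1)) ^ k ≤
      (M (p ^ k) k (k + 1) : ℝ) := by
    have h1 : (((p ^ (k - 1)) ^ (k + 1) + (M p k (k + 1) - 1) * (p ^ (k - 1)) ^ k : ℕ) : ℝ) ≤
        (M (p ^ k) k (k + 1) : ℝ) := by exact_mod_cast hM
    rw [Nat.cast_add, Nat.cast_mul] at h1
    refine le_trans ?_ h1
    push_cast
    apply add_le_add le_rfl
    apply mul_le_mul_of_nonneg_right _ (by positivity)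
    rcases Nat.eq_zero_or_pos (M p k (k + 1)) with h0 | h0
    · rw [h0]; simp
    · rw [Nat.cast_sub h0]; simp
  refine le_trans ?_ hM'
  set Q : ℝ := ((p : ℝ) ^ (k - 1)) ^ k with hQ
  have hQpos : 0 < Q := by positivity
  have e1 : ((p : ℝ) ^ k) ^ k = (p : ℝ) ^ k * Q := by
    rw [hQ, ← pow_mul, ← pow_mul, ← pow_add]
    congr 1
    obtain ⟨m, rfl⟩ : ∃ m, k = m + 1 := ⟨k - 1, by omega⟩
    rw [Nat.add_sub_cancel]
    ring
  have e2 : ((p : ℝ) ^ (k - 1)) ^ (k + 1) = (1 / (p : ℝ)) * ((p : ℝ) ^ k) ^ k := by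
    rw [one_div, inv_mul_eq_div, eq_div_iff hpR.ne', ← pow_mul, ← pow_mul, ← pow_succ]
    congr 1
    obtain ⟨m, rfl⟩ : ∃ m, k = m + 1 := ⟨k - 1, by omega⟩
    rw [Nat.add_sub_cancel]
    ring
  rw [e2]
  have h5 : (1 - ((k : ℝ) ^ (k + 1) + 1) * ep p) * (p : ℝ) ^ k ≤ (M p k (k + 1) : ℝ) - 1 := by
    have : (1 - ((k : ℝ) ^ (k + 1) + 1) * ep p) * (p : ℝ) ^ k =
        (p : ℝ) ^ k - (k : ℝ) ^ (k + 1) * (ep p * (p : ℝ) ^ k) - ep p * (p : ℝ) ^ k := by ring
    rw [this]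
    linarith
  have h6 := mul_le_mul_of_nonneg_right h5 hQpos.le
  calc (1 + 1 / (p : ℝ) - ((k : ℝ) ^ (k + 1) + 1) * ep p) * (((p : ℝ) ^ k)) ^ k
      = (1 / (p : ℝ)) * ((p : ℝ) ^ k) ^ k + (1 - ((k : ℝ) ^ (k + 1) + 1) * ep p) * ((p : ℝ) ^ k) ^ k := by ring
    _ = (1 / (p : ℝ)) * ((p : ℝ) ^ k) ^ k + (1 - ((k : ℝ) ^ (k + 1) + 1) * ep p) * (p : ℝ) ^ k * Q := by
        rw [e1]; ring
    _ ≤ _ := by linarith

/-- a highly divisible modulus with many solutions -/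
lemma modulus {k : ℕ} (hk : 3 ≤ k) : ∃ c1 : ℝ, 0 < c1 ∧ ∀ N : ℕ, 2 ≤ N → ∃ W : ℕ, 1 ≤ W ∧
    Real.log W ≤ 2 * k * N ∧ c1 * Real.log N * (W : ℝ) ^ k ≤ (M W k (k + 1) : ℝ) := by
  obtain ⟨P0, c1, hc1, hQ, hprod⟩ := prod_error ((k : ℝ) ^ (k + 1) + 1) (by positivity) (k + 1)
  refine ⟨c1, hc1, ?_⟩
  intro N hN
  obtain ⟨hx1, hprod⟩ := hprod N hN
  set T := N.primesBelow.filter (fun p => P0 ≤ p) with hT
  have hTP : ∀ p ∈ T, p.Prime := fun p hp => Nat.prime_of_mem_primesBelow (mem_filter.mp hp).1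
  have hTk : ∀ p ∈ T, ¬ p ∣ k := by
    intro p hp h
    have := Nat.le_of_dvd (by omega) h
    have := (mem_filter.mp hp).2
    omega
  refine ⟨∏ p ∈ T, p ^ k, ?_, ?_, ?_⟩
  · exact Nat.one_le_iff_ne_zero.mpr (prod_ne_zero_iff.mpr (fun p hp => pow_ne_zero _ (hTP p hp).ne_zero))
  · have h1 : ∏ p ∈ T, p ^ k ≤ (4 ^ N) ^ k := by
      rw [prod_pow]
      apply Nat.pow_le_pow_left
      refine le_trans ?_ (primorial_le_four_pow N)
      unfold primorial
      apply prod_le_prod_of_subset_of_one_le'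
      · intro p hp
        rw [mem_filter, mem_range]
        have := Nat.lt_of_mem_primesBelow (mem_filter.mp hp).1
        exact ⟨by omega, hTP p hp⟩
      · intro p hp _
        rw [mem_filter] at hp
        exact hp.2.one_lt.le
    have h2 : (0 : ℝ) < ((∏ p ∈ T, p ^ k : ℕ) : ℝ) := by
      exact_mod_cast prod_pos (fun p hp => pow_pos (hTP p hp).pos _)
    calc Real.log ((∏ p ∈ T, p ^ k : ℕ) : ℝ) ≤ Real.log (((4 ^ N) ^ k : ℕ) : ℝ) :=
          Real.log_le_log h2 (by exact_mod_cast h1)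
      _ = k * (N * Real.log 4) := by
          push_cast
          rw [Real.log_pow, Real.log_pow]
      _ ≤ k * (N * 2) := by
          apply mul_le_mul_of_nonneg_left _ (Nat.cast_nonneg _)
          apply mul_le_mul_of_nonneg_left _ (Nat.cast_nonneg _)
          have h3 : Real.log 4 = 2 * Real.log 2 := by
            rw [show (4 : ℝ) = 2 ^ 2 by norm_num, Real.log_pow]
            push_cast
            ring
          rw [h3]
          have := Real.log_two_lt_d9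
          linarith
      _ = 2 * k * N := by ring
  · have h2 : (M (∏ p ∈ T, p ^ k) k (k + 1) : ℝ) = ∏ p ∈ T, (M (p ^ k) k (k + 1) : ℝ) := by
      rw [M_prod T hTP]
      push_cast
      rfl
    rw [h2]
    calc c1 * Real.log N * (((∏ p ∈ T, p ^ k : ℕ)) : ℝ) ^ k
        ≤ (∏ p ∈ T, (1 + 1 / (p : ℝ) - ((k : ℝ) ^ (k + 1) + 1) * ep p)) * (((∏ p ∈ T, p ^ k : ℕ)) : ℝ) ^ k :=
          mul_le_mul_of_nonneg_right hprod (by positivity)
      _ = ∏ p ∈ T, ((1 + 1 / (p : ℝ) - ((k : ℝ) ^ (k + 1) + 1) * ep p) * (((p : ℝ) ^ k)) ^ k) := by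
          push_cast
          rw [← prod_pow, prod_mul_distrib]
      _ ≤ _ := by
          apply prod_le_prod
          · intro p hp
            have h3 := hx1 p hp
            have h4 : (0 : ℝ) ≤ 1 / (p : ℝ) := by positivity
            apply mul_nonneg
            · linarith
            · positivity
          · intro p hp
            have : Fact p.Prime := ⟨hTP p hp⟩
            exact dens hk (hTk p hp)

lemma A_zero (k d N : ℕ) : A k d N ((0 : ℕ) : ℤ) = M N k d := by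
  unfold A M
  simp

/-- averaging -/
lemma averaging' {k W n0 : ℕ} (hk : 3 ≤ k) (hW : 1 ≤ W) (hn0 : 1 ≤ n0) {B : ℝ} (hB : 0 ≤ B)
    (H : ∀ n : ℕ, n0 ≤ n → n ≤ (k + 1) * (W * n0) ^ k → ((Rep k (k + 1) n).ncard : ℝ) ≤ B) :
    (n0 : ℝ) ^ (k + 1) * (M W k (k + 1) : ℝ) ≤
      (n0 + 1 : ℝ) ^ (k + 1) + 1 + 2 * (((k : ℝ) + 1) * ((W : ℝ) * n0) ^ k) / W * B := by
  classical
  set x := (k + 1) * (W * n0) ^ k with hx
  have h1 := le_sum_rep (k := k) (d := k + 1) (W := W) (a := 0) (L := n0) (x := x) (by omega) (by omega) le_rfl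
  rw [A_zero] at h1
  have hWn : 1 ≤ W * n0 := Nat.mul_pos hW hn0
  have hx2 : 2 * W ≤ x := by
    have h2 : W ≤ (W * n0) ^ k := by
      calc W ≤ W * n0 := Nat.le_mul_of_pos_right W hn0
        _ ≤ (W * n0) ^ k := Nat.le_self_pow (by omega) _
    rw [hx]
    exact Nat.mul_le_mul (by omega) h2
  have hI := (card_I hW 0 x hx2).2
  have h3 : ((∑ n ∈ I W 0 x, (Rep k (k + 1) n).ncard : ℕ) : ℝ) ≤
      (n0 + 1 : ℝ) ^ (k + 1) + ((I W 0 x).card : ℝ) * B := by
    rw [← sum_filter_add_sum_filter_not (I W 0 x) (fun n => n < n0)]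
    push_cast
    apply add_le_add
    · have h4 : ∑ n ∈ (I W 0 x).filter (fun n => n < n0), (Rep k (k + 1) n).ncard ≤
          ∑ n ∈ I 1 0 n0, (Rep k (k + 1) n).ncard := by
        apply sum_le_sum_of_subset
        intro n hn
        unfold I at hn ⊢
        rw [mem_filter, mem_filter, mem_Icc] at hn
        rw [mem_filter, mem_Icc]
        exact ⟨⟨hn.1.1.1, hn.2.le⟩, Nat.modEq_one⟩
      have h5 := sum_rep_le (k := k) (d := k + 1) (W := 1) (a := 0) (x := n0) (L := n0 + 1) (by norm_num)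
        (by
          rw [one_mul]
          calc n0 < n0 + 1 := Nat.lt_succ_self _
            _ ≤ (n0 + 1) ^ k := Nat.le_self_pow (by omega) _)
      rw [A_one, mul_one] at h5
      exact_mod_cast h4.trans h5
    · calc ∑ n ∈ (I W 0 x).filter (fun n => ¬ n < n0), ((Rep k (k + 1) n).ncard : ℝ)
          ≤ ∑ _n ∈ (I W 0 x).filter (fun n => ¬ n < n0), B := by
            apply sum_le_sum
            intro n hn
            unfold I at hn
            rw [mem_filter, mem_filter, mem_Icc] at hn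
            exact H n (by omega) hn.1.1.2
        _ = (((I W 0 x).filter (fun n => ¬ n < n0)).card : ℝ) * B := by rw [sum_const, nsmul_eq_mul]
        _ ≤ _ := by
            apply mul_le_mul_of_nonneg_right _ hB
            exact_mod_cast card_le_card (filter_subset _ _)
  have h4 : (n0 : ℝ) ^ (k + 1) * (M W k (k + 1) : ℝ) ≤
      ((∑ n ∈ I W 0 x, (Rep k (k + 1) n).ncard : ℕ) : ℝ) + 1 := by exact_mod_cast h1
  have h5 : ((I W 0 x).card : ℝ) * B ≤ 2 * (((k : ℝ) + 1) * ((W : ℝ) * n0) ^ k) / W * B := by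
    apply mul_le_mul_of_nonneg_right _ hB
    refine hI.trans (le_of_eq ?_)
    rw [hx]
    push_cast
    rfl
  linarith

end Pool.Agent.V8H20.LD
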