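import Mathlib
import Pool.Agent.V8H20.LD.L16

/-! Large values of `N_{k,k+1}(r)`. -/

set_option autoImplicit false

open Finset

namespace Pool.Agent.V8H20.LD

open Pool.Agent.TH854.KS (Rep Rep_finite Box mem_Box sphere sphere_finite Rep_le_sphere M)

lemma exists_large (c A1 D : ℝ) (hc : 0 < c) (k : ℕ) :
    ∃ N : ℕ, 2 ≤ N ∧ A1 < c * Real.log N ∧ D + 2 * k * N ≤ (N : ℝ) ^ 2 := by
  have h1 : Filter.Tendsto (fun N : ℕ => c * Real.log N) Filter.atTop Filter.atTop :=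
    (Real.tendsto_log_atTop.comp tendsto_natCast_atTop_atTop).const_mul_atTop hc
  obtain ⟨N, hN1, hN2⟩ := ((h1.eventually_gt_atTop A1).and
    (Filter.eventually_ge_atTop (⌈|D|⌉₊ + 2 * k + 2))).exists
  refine ⟨N, by omega, hN1, ?_⟩
  have h2 : (⌈|D|⌉₊ : ℝ) + 2 * k + 2 ≤ N := by exact_mod_cast hN2
  have h3 := Nat.le_ceil |D|
  have h4 := le_abs_self D
  have h5 : (0 : ℝ) ≤ k := Nat.cast_nonneg _
  have h6 : (0 : ℝ) ≤ |D| := abs_nonneg D
  nlinarith

theorem omega_succ {k : ℕ} (hk : 3 ≤ k) : ∃ c : ℝ, 0 < c ∧ ∀ R0 : ℝ, ∃ r : ℝ, R0 ≤ r ∧ 3 ≤ r ∧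
    (∃ n : ℕ, r ^ k = n) ∧ c * (r * Real.log (Real.log r)) ≤ ((sphere k (k + 1) r).ncard : ℝ) := by
  obtain ⟨c1, hc1, hmod⟩ := modulus hk
  set d : ℝ := (k : ℝ) + 1 with hd
  have hd4 : 4 ≤ d := by
    have : (3 : ℝ) ≤ k := by exact_mod_cast hk
    linarith
  refine ⟨c1 / (8 * d ^ 2), by positivity, ?_⟩
  intro R0
  by_contra hcon
  push Not at hcon
  set c := c1 / (8 * d ^ 2) with hc
  have hcpos : 0 < c := by positivity
  set R := max R0 3 with hR
  have hR3 : 3 ≤ R := le_max_right _ _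
  set n0 := ⌈R ^ k⌉₊ with hn0
  have hRk : (3 : ℝ) ≤ R ^ k := by
    calc (3 : ℝ) ≤ R := hR3
      _ = R ^ 1 := (pow_one _).symm
      _ ≤ _ := pow_le_pow_right₀ (by linarith) (by omega)
  have hn0R : R ^ k ≤ n0 := Nat.le_ceil _
  have hn03 : (3 : ℝ) ≤ n0 := by linarith
  have hn01 : 1 ≤ n0 := by
    have : (1 : ℝ) ≤ n0 := by linarith
    exact_mod_cast this
  -- choice of N
  obtain ⟨N, hN2, hN3, hN4⟩ := exists_large (c1 / 2) (2 ^ (k + 1) + 1) (Real.log d + Real.log n0)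
    (by positivity) k
  obtain ⟨W, hW1, hW2, hW3⟩ := hmod N hN2
  have hWR : (1 : ℝ) ≤ W := by exact_mod_cast hW1
  set X : ℝ := d * (W * n0) with hX
  have hWn : (3 : ℝ) ≤ W * n0 := by nlinarith
  have hX3 : 12 ≤ X := by nlinarith
  have hNR : (2 : ℝ) ≤ N := by exact_mod_cast hN2
  -- the iterated logarithm
  have hlogX : Real.log X ≤ (N : ℝ) ^ 2 := by
    rw [hX, Real.log_mul (by linarith) (by nlinarith), Real.log_mul (by linarith) (by linarith)]
    linarith
  have hlogX1 : 1 < Real.log X := by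
    rw [Real.lt_log_iff_exp_lt (by linarith)]
    have := Real.exp_one_lt_d9
    linarith
  have hLL : Real.log (Real.log X) ≤ 2 * Real.log N := by
    calc Real.log (Real.log X) ≤ Real.log ((N : ℝ) ^ 2) := Real.log_le_log (by linarith) hlogX
      _ = 2 * Real.log N := by rw [Real.log_pow]; push_cast; ring
  have hLL0 : 0 < Real.log (Real.log X) := Real.log_pos hlogX1
  set B : ℝ := c * (X * Real.log (Real.log X)) with hB
  have hB0 : 0 ≤ B := by positivity
  have H : ∀ n : ℕ, n0 ≤ n → n ≤ (k + 1) * (W * n0) ^ k → ((Rep k (k + 1) n).ncard : ℝ) ≤ B := by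
    intro n hn1 hn2
    have hnR : (n0 : ℝ) ≤ n := by exact_mod_cast hn1
    have hn0' : (0 : ℝ) < n := by linarith
    set r : ℝ := (n : ℝ) ^ (1 / (k : ℝ)) with hr
    have hr0 : 0 < r := by positivity
    have hrk : r ^ k = n := root_pow (by omega) n
    have hRr : R ≤ r := by
      apply le_of_pow_le_pow_left₀ (n := k) (by omega) hr0.le
      rw [hrk]
      linarith
    have hr3 : 3 ≤ r := hR3.trans hRr
    have hrX : r ≤ X := by
      apply le_of_pow_le_pow_left₀ (n := k) (by omega) (by positivity)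
      rw [hrk, hX, mul_pow]
      have h1 : (n : ℝ) ≤ ((k : ℝ) + 1) * ((W : ℝ) * n0) ^ k := by exact_mod_cast hn2
      refine h1.trans ?_
      apply mul_le_mul_of_nonneg_right _ (by positivity)
      calc (k : ℝ) + 1 = d ^ 1 := by rw [pow_one]
        _ ≤ _ := pow_le_pow_right₀ (by linarith) (by omega)
    have h1 := hcon r ((le_max_left _ _).trans hRr) hr3 ⟨n, hrk⟩
    have h2 := Rep_le_sphere (d := k + 1) (by omega : 0 < k) hr0 hrk
    have h3 : ((Rep k (k + 1) n).ncard : ℝ) ≤ c * (r * Real.log (Real.log r)) := by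
      have : ((Rep k (k + 1) n).ncard : ℝ) ≤ ((sphere k (k + 1) r).ncard : ℝ) := by exact_mod_cast h2
      linarith
    refine h3.trans ?_
    rw [hB]
    apply mul_le_mul_of_nonneg_left _ hcpos.le
    have h4 : 1 < Real.log r := by
      rw [Real.lt_log_iff_exp_lt hr0]
      have := Real.exp_one_lt_d9
      linarith
    have h5 : Real.log (Real.log r) ≤ Real.log (Real.log X) :=
      Real.log_le_log (by linarith) (Real.log_le_log hr0 hrX)
    exact mul_le_mul hrX h5 (Real.log_nonneg h4.le) (by linarith)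
  have havg := averaging' hk hW1 hn01 hB0 H
  -- final computation
  have hWpos : (0 : ℝ) < W := by linarith
  have hn0pos : (0 : ℝ) < n0 := by linarith
  set P : ℝ := (n0 : ℝ) ^ (k + 1) with hP
  have hPpos : 0 < P := by positivity
  have hWk : (1 : ℝ) ≤ (W : ℝ) ^ k := one_le_pow₀ hWR
  have e1 : 2 * (((k : ℝ) + 1) * ((W : ℝ) * n0) ^ k) / W * B =
      P * (2 * d ^ 2 * c * (W : ℝ) ^ k * Real.log (Real.log X)) := by
    rw [hB, ← hd, hX, hP, mul_pow, pow_succ]
    field_simp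
  have e2 : ((n0 : ℝ) + 1) ^ (k + 1) + 1 ≤ P * (2 ^ (k + 1) + 1) := by
    have h1 : ((n0 : ℝ) + 1) ^ (k + 1) ≤ (2 * n0) ^ (k + 1) :=
      pow_le_pow_left₀ (by linarith) (by linarith) _
    have h2 : (2 * (n0 : ℝ)) ^ (k + 1) = P * 2 ^ (k + 1) := by rw [hP, mul_pow]; ring
    have h3 : 1 ≤ P := by rw [hP]; exact one_le_pow₀ (by linarith)
    rw [h2] at h1
    linarith
  have h7 : P * (c1 * Real.log N * (W : ℝ) ^ k) ≤
      P * ((2 ^ (k + 1) + 1) + 2 * d ^ 2 * c * (W : ℝ) ^ k * Real.log (Real.log X)) := by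
    calc P * (c1 * Real.log N * (W : ℝ) ^ k) ≤ P * (M W k (k + 1) : ℝ) :=
          mul_le_mul_of_nonneg_left hW3 hPpos.le
      _ ≤ _ := havg
      _ ≤ P * (2 ^ (k + 1) + 1) + P * (2 * d ^ 2 * c * (W : ℝ) ^ k * Real.log (Real.log X)) := by
          rw [e1]
          linarith
      _ = _ := by ring
  have h8 := le_of_mul_le_mul_left h7 hPpos
  have h9 : 2 * d ^ 2 * c * (W : ℝ) ^ k * Real.log (Real.log X) ≤
      (c1 / 2 * Real.log N) * (W : ℝ) ^ k := by
    have h10 : 2 * d ^ 2 * c = c1 / 4 := by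
      rw [hc]
      field_simp
      norm_num
    rw [h10]
    have h11 : c1 / 4 * (W : ℝ) ^ k * Real.log (Real.log X) ≤ c1 / 4 * (W : ℝ) ^ k * (2 * Real.log N) :=
      mul_le_mul_of_nonneg_left hLL (by positivity)
    linarith
  have h12 : ((2 : ℝ) ^ (k + 1) + 1) ≤ (2 ^ (k + 1) + 1) * (W : ℝ) ^ k := by
    have : (0 : ℝ) < 2 ^ (k + 1) + 1 := by positivity
    nlinarith
  have h13 : (c1 / 2 * Real.log N) * (W : ℝ) ^ k ≤ (2 ^ (k + 1) + 1) * (W : ℝ) ^ k := by
    linarith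
  have h14 := le_of_mul_le_mul_right h13 (by positivity)
  linarith

end Pool.Agent.V8H20.LD
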